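import Pool.Agent.H308.AL.Stm

/-!
# Existence and uniqueness of the Aluthge transform of an injective operator (for helper308, AL)
-/

set_option autoImplicit false

open Filter Topology

noncomputable section

namespace Pool.Agent.H726.AL

open Pool.Agent.H308.AL

theorem eq_of_dense {H : Type} [NormedAddCommGroup H] [InnerProductSpace ℂ H] [CompleteSpace H]
    {A U V : H →L[ℂ] H} (hA : DenseRange A) (h : U * A = V * A) : U = V := by
  have h1 : (U : H → H) = V := by
    apply hA.equalizer U.continuous V.continuous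
    funext x
    exact congrArg (fun W : H →L[ℂ] H => W x) h
  exact DFunLike.coe_injective h1

theorem alu (h1 : S_DGL) (h2 : S_BAS) : S_ALU := by
  intro H _ _ _ T hT
  obtain ⟨-, -, -, b4, b5, b6⟩ := h2 H T
  obtain ⟨-, i2, d1, -⟩ := b6 hT
  obtain ⟨U, hU, -⟩ := h1 H (ab T) T 1 zero_le_one d1 (fun h => by rw [b5, one_mul])
  have hnorm : ∀ y, ‖U y‖ = ‖y‖ := by
    have hc : IsClosed {y | ‖U y‖ = ‖y‖} :=
      isClosed_eq (U.continuous.norm) continuous_norm
    intro y
    have hy : y ∈ closure (Set.range (ab T)) := d1 y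
    refine hc.closure_subset_iff.2 ?_ hy
    rintro _ ⟨x, rfl⟩
    show ‖U (ab T x)‖ = ‖ab T x‖
    have e : U (ab T x) = T x := congrArg (fun W : H →L[ℂ] H => W x) hU
    rw [e, b5]
  have hiso : star U * U = 1 := U.norm_map_iff_adjoint_comp_self.1 hnorm
  have hinj : Function.Injective U := by
    intro x y hxy
    rw [← sub_eq_zero, ← map_sub, ← norm_eq_zero, hnorm, norm_eq_zero] at hxy
    exact sub_eq_zero.1 hxy
  have hpol : IsPolar T U := by
    refine ⟨hU.symm, ?_, fun x => ?_⟩
    · rw [mul_assoc, hiso, mul_one]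
    · rw [map_eq_zero_iff U hinj, map_eq_zero_iff T hT]
  have huniq : ∀ S, IsAluthge T S → S = hf T * U * hf T := by
    rintro S ⟨V, hV, rfl⟩
    have e : V = U := eq_of_dense d1 (by rw [hU]; exact hV.eq.symm)
    rw [e]
  have hex : IsAluthge T (hf T * U * hf T) := ⟨U, hpol, rfl⟩
  have hal : IsAluthge T (al T) := by
    have h3 : ∃ S, IsAluthge T S := ⟨_, hex⟩
    unfold al
    rw [dif_pos h3]
    exact h3.choose_spec
  have heq : al T = hf T * U * hf T := huniq _ hal
  refine ⟨hal, fun S hS => (huniq S hS).trans heq.symm, ?_, ?_, U, hiso, hU, heq⟩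
  · rw [heq]
    exact i2.comp (hinj.comp i2)
  · rw [heq, mul_assoc, mul_assoc, b4, hU]

end Pool.Agent.H726.AL
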