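import Pool.Agent.H308.AL.Stm

/-!
# BAIRE: a Baire category argument on the Cantor space
-/

set_option autoImplicit false

open Filter Topology

namespace Pool.Agent.H597.AL

open Pool.Agent.H308.AL

/-- the sequences which are eventually equal to `b` are dense -/
theorem dense_ev (b : Bool) : Dense {s : ℕ → Bool | ∃ N, ∀ k ≥ N, s k = b} := by
  intro s
  have h1 : Tendsto (fun N : ℕ => (fun k => if k < N then s k else b : ℕ → Bool)) atTop (𝓝 s) := by
    rw [tendsto_pi_nhds]
    intro k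
    refine tendsto_const_nhds.congr' ?_
    filter_upwards [eventually_gt_atTop k] with N hN
    rw [if_pos hN]
  refine mem_closure_of_tendsto h1 (Eventually.of_forall fun N => ?_)
  exact ⟨N, fun k hk => if_neg (not_lt.2 hk)⟩

theorem baire : S_BAIRE := by
  intro f F α β hαβ hc hF ht hf
  obtain ⟨g', hg1, hg2⟩ := exists_between hαβ
  obtain ⟨g, hg3, hg4⟩ := exists_between hg2
  -- the open dense sets
  have hU : ∀ m : ℕ, IsOpen {s : ℕ → Bool | ∃ n, m ≤ n ∧ g < f n s} := by
    intro m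
    have : {s : ℕ → Bool | ∃ n, m ≤ n ∧ g < f n s} =
        ⋃ n, ⋃ _ : m ≤ n, {s | g < f n s} := by
      ext s
      simp
    rw [this]
    exact isOpen_iUnion fun n => isOpen_iUnion fun _ => isOpen_lt continuous_const (hc n)
  have hV : ∀ m : ℕ, IsOpen {s : ℕ → Bool | ∃ n, m ≤ n ∧ f n s < g'} := by
    intro m
    have : {s : ℕ → Bool | ∃ n, m ≤ n ∧ f n s < g'} =
        ⋃ n, ⋃ _ : m ≤ n, {s | f n s < g'} := by
      ext s
      simp
    rw [this]
    exact isOpen_iUnion fun n => isOpen_iUnion fun _ => isOpen_lt (hc n) continuous_const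
  have dU : ∀ m : ℕ, Dense {s : ℕ → Bool | ∃ n, m ≤ n ∧ g < f n s} := by
    intro m
    refine (dense_ev true).mono ?_
    rintro s ⟨N, hN⟩
    have h1 : g < F s := lt_of_lt_of_le hg4 (ht s ⟨N, hN⟩)
    obtain ⟨n, hn, hn'⟩ := (((hF s).eventually_const_lt h1).and (eventually_ge_atTop m)).exists
    exact ⟨n, hn', hn⟩
  have dV : ∀ m : ℕ, Dense {s : ℕ → Bool | ∃ n, m ≤ n ∧ f n s < g'} := by
    intro m
    refine (dense_ev false).mono ?_
    rintro s ⟨N, hN⟩
    have h1 : F s < g' := lt_of_le_of_lt (hf s ⟨N, hN⟩) hg1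
    obtain ⟨n, hn, hn'⟩ := (((hF s).eventually_lt_const h1).and (eventually_ge_atTop m)).exists
    exact ⟨n, hn', hn⟩
  have D1 := dense_iInter_of_isOpen_nat (fun m => (hU m).inter (hV m))
    (fun m => (dU m).inter_of_isOpen_left (dV m) (hU m))
  obtain ⟨s, hs⟩ := D1.nonempty
  rw [Set.mem_iInter] at hs
  -- no limit at `s`
  rcases lt_or_ge (F s) g with h | h
  · obtain ⟨m, hm⟩ := ((hF s).eventually_lt_const h).exists_forall_of_atTop
    obtain ⟨n, hn, hn'⟩ := (hs m).1
    exact lt_asymm (hm n hn) hn'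
  · have h : g' < F s := lt_of_lt_of_le hg3 h
    obtain ⟨m, hm⟩ := ((hF s).eventually_const_lt h).exists_forall_of_atTop
    obtain ⟨n, hn, hn'⟩ := (hs m).2
    exact lt_asymm (hm n hn) hn'

end Pool.Agent.H597.AL
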