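import Pool.Agent.H308.AL.Stm

set_option autoImplicit false
set_option linter.all false

open Filter Topology
open scoped InnerProductSpace

namespace Pool.Agent.H407.AL

open Pool.Agent.H308.AL

theorem dense_of_inj {H : Type} [NormedAddCommGroup H] [InnerProductSpace ℂ H] [CompleteSpace H]
    (A : H →L[ℂ] H) (hA : 0 ≤ A) (h : Function.Injective A) : DenseRange A := by
  have hsa : star A = A := (IsSelfAdjoint.of_nonneg hA).star_eq
  have h1 : (LinearMap.range (A : H →ₗ[ℂ] H)).topologicalClosure = ⊤ := by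
    rw [Submodule.topologicalClosure_eq_top_iff, Submodule.eq_bot_iff]
    intro x hx
    apply h
    rw [map_zero]
    rw [Submodule.mem_orthogonal] at hx
    have h2 : ∀ y, ⟪y, A x⟫_ℂ = 0 := by
      intro y
      have h3 := hx (A y) (LinearMap.mem_range_self (A : H →ₗ[ℂ] H) y)
      have h4 : ⟪y, (ContinuousLinearMap.adjoint A) x⟫_ℂ = ⟪A y, x⟫_ℂ :=
        ContinuousLinearMap.adjoint_inner_right A y x
      have h5 : ContinuousLinearMap.adjoint A = A := hsa
      rw [h5] at h4
      rw [h4]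
      exact h3
    have h6 := h2 (A x)
    exact inner_self_eq_zero.1 h6
  have h2 := Submodule.dense_iff_topologicalClosure_eq_top.2 h1
  exact h2

theorem bas : S_BAS := by
  intro H _ _ _ T
  have hTT : 0 ≤ star T * T := star_mul_self_nonneg T
  have h1 : 0 ≤ ab T := CFC.sqrt_nonneg _
  have h2 : 0 ≤ hf T := CFC.sqrt_nonneg _
  have h3 : ab T * ab T = star T * T := CFC.sqrt_mul_sqrt_self _ hTT
  have h4 : hf T * hf T = ab T := CFC.sqrt_mul_sqrt_self _ h1
  have h5 : ∀ h, ‖ab T h‖ = ‖T h‖ := by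
    intro h
    have hsa : ContinuousLinearMap.adjoint (ab T) = ab T :=
      (IsSelfAdjoint.of_nonneg h1).star_eq
    have e1 : ⟪ab T h, ab T h⟫_ℂ = ⟪T h, T h⟫_ℂ := by
      have a1 : ⟪(ContinuousLinearMap.adjoint (ab T)) (ab T h), h⟫_ℂ = ⟪ab T h, ab T h⟫_ℂ :=
        ContinuousLinearMap.adjoint_inner_left (ab T) h (ab T h)
      have a2 : ⟪(ContinuousLinearMap.adjoint T) (T h), h⟫_ℂ = ⟪T h, T h⟫_ℂ :=
        ContinuousLinearMap.adjoint_inner_left T h (T h)
      rw [← a1, ← a2, hsa]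
      have a3 : ab T (ab T h) = (ContinuousLinearMap.adjoint T) (T h) :=
        congrArg (fun A : H →L[ℂ] H => A h) h3
      rw [a3]
    have e2 : ‖ab T h‖ ^ 2 = ‖T h‖ ^ 2 := by
      rw [← inner_self_eq_norm_sq (𝕜 := ℂ), ← inner_self_eq_norm_sq (𝕜 := ℂ), e1]
    exact (pow_left_inj₀ (norm_nonneg _) (norm_nonneg _) two_ne_zero).1 e2
  refine ⟨h1, h2, h3, h4, h5, fun hinj => ?_⟩
  have i1 : Function.Injective (ab T) := by
    rw [injective_iff_map_eq_zero]
    intro x hx
    have h6 := h5 x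
    rw [hx, norm_zero] at h6
    have h7 : T x = 0 := norm_eq_zero.1 h6.symm
    apply hinj
    rw [h7, map_zero]
  have i2 : Function.Injective (hf T) := by
    rw [injective_iff_map_eq_zero]
    intro x hx
    apply i1
    rw [map_zero, ← h4]
    show hf T (hf T x) = 0
    rw [hx, map_zero]
  exact ⟨i1, i2, dense_of_inj _ h1 i1, dense_of_inj _ h2 i2⟩

end Pool.Agent.H407.AL
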