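import Pool.Agent.H308.AL.Stm

/-!
# Power bounds for the composition operators with decaying weights (AL-BPW, helper967 for helper308)
-/

set_option autoImplicit false

open Filter Topology

noncomputable section

namespace Pool.Agent.H967.AL

open Pool.Agent.H308.AL

theorem sq_sum_succ (N : ℕ) : ∑ j ∈ Finset.range (N + 1), (1 / ((j : ℝ) + 1)) ^ 2 ≤
    2 - 1 / ((N : ℝ) + 1) := by
  induction N with
  | zero => norm_num
  | succ N ih =>
    rw [Finset.sum_range_succ]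
    have hN : (0 : ℝ) ≤ N := Nat.cast_nonneg N
    have h1 : (1 / (((N + 1 : ℕ) : ℝ) + 1)) ^ 2 ≤
        1 / ((N : ℝ) + 1) - 1 / (((N + 1 : ℕ) : ℝ) + 1) := by
      push_cast
      rw [div_sub_div _ _ (by positivity) (by positivity), div_pow, one_pow,
        div_le_div_iff₀ (by positivity) (by positivity)]
      nlinarith
    linarith

theorem sq_sum (N : ℕ) : ∑ j ∈ Finset.range N, (1 / ((j : ℝ) + 1)) ^ 2 ≤ 2 := by
  cases N with
  | zero => norm_num
  | succ N =>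
    have h1 := sq_sum_succ N
    have h2 : (0 : ℝ) ≤ 1 / ((N : ℝ) + 1) := by positivity
    linarith

theorem choose_bound {j k : ℕ} (hkj : k ≤ j) :
    ((j + 1).choose (k + 1) : ℝ) * ((((k + 1 : ℕ) : ℝ) + 1) / (((j + 1 : ℕ) : ℝ) + 1)) ^ 2 ≤
      2 * (j.choose k : ℝ) := by
  have hx0 : (0 : ℝ) ≤ ((j + 1).choose (k + 1) : ℝ) := Nat.cast_nonneg _
  have hy0 : (0 : ℝ) ≤ (j.choose k : ℝ) := Nat.cast_nonneg _
  have hrel : ((j : ℝ) + 1) * (j.choose k : ℝ) =
      ((j + 1).choose (k + 1) : ℝ) * ((k : ℝ) + 1) := by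
    exact_mod_cast Nat.add_one_mul_choose_eq j k
  have hj : (0 : ℝ) ≤ j := Nat.cast_nonneg j
  have hk : (0 : ℝ) ≤ k := Nat.cast_nonneg k
  have hkj' : (k : ℝ) ≤ j := by exact_mod_cast hkj
  push_cast
  generalize ((j + 1).choose (k + 1) : ℝ) = x at hx0 hrel ⊢
  generalize (j.choose k : ℝ) = y at hy0 hrel ⊢
  set r : ℝ := ((k : ℝ) + 1 + 1) / ((j : ℝ) + 1 + 1) with hr
  have hr0 : 0 ≤ r := by positivity
  have hr1 : r ≤ 1 := by
    rw [hr, div_le_one (by positivity)]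
    linarith
  have hr2 : r * ((j : ℝ) + 1 + 1) = (k : ℝ) + 1 + 1 := by
    rw [hr, div_mul_cancel₀]
    positivity
  have h1 : x * r ^ 2 ≤ x * r := by
    apply mul_le_mul_of_nonneg_left _ hx0
    nlinarith
  refine h1.trans ?_
  have h2 : x * r * (((k : ℝ) + 1) * ((j : ℝ) + 1 + 1)) ≤
      2 * y * (((k : ℝ) + 1) * ((j : ℝ) + 1 + 1)) := by
    have h3 : x * r * (((k : ℝ) + 1) * ((j : ℝ) + 1 + 1)) =
        (((j : ℝ) + 1) * y) * ((k : ℝ) + 1 + 1) := by
      rw [hrel, ← hr2]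
      ring
    have h4 : ((j : ℝ) + 1) * ((k : ℝ) + 1 + 1) ≤ 2 * (((k : ℝ) + 1) * ((j : ℝ) + 1 + 1)) := by
      nlinarith [mul_nonneg hj hk]
    rw [h3]
    nlinarith [mul_le_mul_of_nonneg_left h4 hy0]
  exact le_of_mul_le_mul_right h2 (by positivity)

theorem col_bound (h2 : S_ROW) {p : ℝ} (hp0 : 0 < p) (hp1 : p ≤ 1) (k N : ℕ) :
    ∑ j ∈ Finset.Ico k N, t p j k * (((k : ℝ) + 1) / ((j : ℝ) + 1)) ^ 2 ≤ 4 * p := by
  obtain ⟨ht0, -, htc⟩ := h2 p hp0 hp1
  have hq0 : 0 ≤ 1 - p := by linarith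
  have hq1 : 1 - p ≤ 1 := by linarith
  cases k with
  | zero =>
    have h3 : ∑ j ∈ Finset.Ico 0 N, t p j 0 * (((0 : ℕ) : ℝ) + 1) ^ 2 / ((j : ℝ) + 1) ^ 2 ≤
        ∑ j ∈ Finset.Ico 0 N, p * (1 / ((j : ℝ) + 1)) ^ 2 := by
      refine Finset.sum_le_sum fun j _ => ?_
      have h4 : t p j 0 ≤ p := by
        unfold t
        rw [Nat.choose_zero_right, Nat.cast_one, mul_one, zero_add, pow_one]
        exact mul_le_of_le_one_right hp0.le (pow_le_one₀ hq0 hq1)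
      have h5 : t p j 0 * (((0 : ℕ) : ℝ) + 1) ^ 2 / ((j : ℝ) + 1) ^ 2 =
          t p j 0 * (1 / ((j : ℝ) + 1)) ^ 2 := by
        rw [Nat.cast_zero, zero_add, one_pow, mul_one, div_pow, one_pow]
        ring
      rw [h5]
      exact mul_le_mul_of_nonneg_right h4 (by positivity)
    have h6 : ∑ j ∈ Finset.Ico 0 N, p * (1 / ((j : ℝ) + 1)) ^ 2 ≤ 4 * p := by
      rw [← Finset.mul_sum, ← Finset.range_eq_Ico]
      have h7 := sq_sum N
      nlinarith [mul_le_mul_of_nonneg_left h7 hp0.le]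
    refine le_trans (le_of_eq ?_) (h3.trans h6)
    refine Finset.sum_congr rfl fun j _ => ?_
    rw [div_pow, mul_div_assoc]
  | succ k =>
    cases N with
    | zero =>
      rw [Finset.Ico_eq_empty (by omega), Finset.sum_empty]
      positivity
    | succ N =>
      rw [← Finset.sum_Ico_add' (fun j => t p j (k + 1) *
        ((((k + 1 : ℕ) : ℝ) + 1) / ((j : ℝ) + 1)) ^ 2) k N 1]
      have h3 : ∑ j ∈ Finset.Ico k N, t p (j + 1) (k + 1) *
          ((((k + 1 : ℕ) : ℝ) + 1) / (((j + 1 : ℕ) : ℝ) + 1)) ^ 2 ≤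
          ∑ j ∈ Finset.Ico k N, 2 * p * t p j k := by
        refine Finset.sum_le_sum fun j hj => ?_
        have hkj : k ≤ j := (Finset.mem_Ico.1 hj).1
        have h4 := choose_bound hkj
        have h5 : t p (j + 1) (k + 1) *
            ((((k + 1 : ℕ) : ℝ) + 1) / (((j + 1 : ℕ) : ℝ) + 1)) ^ 2 =
            (p ^ (k + 2) * (1 - p) ^ (j - k)) * (((j + 1).choose (k + 1) : ℝ) *
            ((((k + 1 : ℕ) : ℝ) + 1) / (((j + 1 : ℕ) : ℝ) + 1)) ^ 2) := by
          unfold t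
          rw [Nat.add_sub_add_right]
          ring
        have h6 : 2 * p * t p j k = (p ^ (k + 2) * (1 - p) ^ (j - k)) *
            (2 * (j.choose k : ℝ)) := by
          unfold t
          ring
        rw [h5, h6]
        exact mul_le_mul_of_nonneg_left h4 (mul_nonneg (pow_nonneg hp0.le _) (pow_nonneg hq0 _))
      refine h3.trans ?_
      rw [← Finset.mul_sum]
      have h7 := htc k N
      nlinarith [mul_le_mul_of_nonneg_left h7 hp0.le]

theorem norm_T_le (h1 : S_SCH) (h2 : S_ROW) {p C : ℝ} {b : ℕ → ℝ} (hp0 : 0 < p) (hp1 : p ≤ 1)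
    (hb : ∀ k, 0 < b k) (hC : 1 ≤ C)
    (hd : ∀ j k : ℕ, k ≤ j → b j ≤ C * (((k : ℝ) + 1) / ((j : ℝ) + 1)) ^ 2 * b k) :
    ‖T p b‖ ≤ 2 * C * p := by
  obtain ⟨ht0, htr, -⟩ := h2 p hp0 hp1
  have hC0 : 0 < C := by linarith
  have hent : ∀ j k : ℕ, k ≤ j →
      tw p b j k ≤ C * (t p j k * (((k : ℝ) + 1) / ((j : ℝ) + 1)) ^ 2) := by
    intro j k hkj
    unfold tw
    have h3 : b j / b k ≤ C * (((k : ℝ) + 1) / ((j : ℝ) + 1)) ^ 2 := by
      rw [div_le_iff₀ (hb k)]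
      exact hd j k hkj
    calc t p j k * (b j / b k) ≤ t p j k * (C * (((k : ℝ) + 1) / ((j : ℝ) + 1)) ^ 2) :=
          mul_le_mul_of_nonneg_left h3 (ht0 j k)
      _ = C * (t p j k * (((k : ℝ) + 1) / ((j : ℝ) + 1)) ^ 2) := by ring
  have hrow : ∀ j, ∑ k ∈ Finset.range (j + 1), tw p b j k ≤ C * p := by
    intro j
    have h3 : ∑ k ∈ Finset.range (j + 1), tw p b j k ≤
        ∑ k ∈ Finset.range (j + 1), C * t p j k := by
      refine Finset.sum_le_sum fun k hk => ?_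
      have hkj : k ≤ j := by
        have := Finset.mem_range.1 hk
        omega
      have hkj' : (k : ℝ) ≤ j := by exact_mod_cast hkj
      have hk0 : (0 : ℝ) ≤ k := Nat.cast_nonneg k
      have hj0 : (0 : ℝ) ≤ j := Nat.cast_nonneg j
      refine (hent j k hkj).trans ?_
      apply mul_le_mul_of_nonneg_left _ hC0.le
      apply mul_le_of_le_one_right (ht0 j k)
      apply pow_le_one₀ (by positivity)
      rw [div_le_one (by positivity)]
      linarith
    refine h3.trans ?_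
    rw [← Finset.mul_sum, htr j]
  have hcol : ∀ k N, ∑ j ∈ Finset.Ico k N, tw p b j k ≤ C * (4 * p) := by
    intro k N
    have h3 : ∑ j ∈ Finset.Ico k N, tw p b j k ≤
        ∑ j ∈ Finset.Ico k N, C * (t p j k * (((k : ℝ) + 1) / ((j : ℝ) + 1)) ^ 2) :=
      Finset.sum_le_sum fun j hj => hent j k (Finset.mem_Ico.1 hj).1
    refine h3.trans ?_
    rw [← Finset.mul_sum]
    exact mul_le_mul_of_nonneg_left (col_bound h2 hp0 hp1 k N) hC0.le
  obtain ⟨-, h3, -⟩ := h1 (tw p b) (C * p) (C * (4 * p))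
    (fun j k => mul_nonneg (ht0 j k) (div_nonneg (hb j).le (hb k).le)) hrow hcol
  have h4 : C * p * (C * (4 * p)) = (2 * C * p) ^ 2 := by ring
  rw [h4, Real.sqrt_sq (by positivity)] at h3
  exact h3

theorem T_pow (h4 : S_TSG) {a : ℝ} {b : ℕ → ℝ} (ha0 : 0 < a) (ha1 : a ≤ 1)
    (hb : ∀ k, 0 < b k) (hm : ∀ j k, k ≤ j → b j ≤ b k) (k : ℕ) :
    (T a b) ^ k = T (a ^ k) b := by
  induction k with
  | zero =>
    rw [pow_zero, pow_zero]
    exact (h4 a a b ha0 ha1 ha0 ha1 hb hm).2.symm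
  | succ k ih =>
    rw [pow_succ, ih, pow_succ]
    exact (h4 (a ^ k) a b (pow_pos ha0 k) (pow_le_one₀ ha0.le ha1) ha0 ha1 hb hm).1

theorem bpw (h1 : S_SCH) (h2 : S_ROW) (_h3 : S_TWB) (h4 : S_TSG) : S_BPW := by
  intro a b C ha0 ha1 hb hm hC hd
  refine ⟨2 * C, by linarith, fun k => ?_⟩
  rw [T_pow h4 ha0 ha1.le hb hm k]
  exact norm_T_le h1 h2 (pow_pos ha0 k) (pow_le_one₀ ha0.le ha1.le) hb hC hd

end Pool.Agent.H967.AL
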