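import Pool.Agent.H308.AL.Stm

/-! `S_CMP` : two-sided comparison for Aluthge transforms (MP_943409_an). -/

set_option autoImplicit false

open Filter Topology

noncomputable section

namespace Pool.Agent.H746.AL

open Pool.Agent.H308.AL

variable {H : Type} [NormedAddCommGroup H] [InnerProductSpace ℂ H] [CompleteSpace H]

/-- cancellation on the right for operators with dense range -/
theorem cancel {A B D : H →L[ℂ] H} (hD : DenseRange D) (h : A * D = B * D) : A = B := by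
  apply ContinuousLinearMap.ext
  have := hD.equalizer A.continuous B.continuous (funext fun x => by
    have h1 := congrArg (fun S : H →L[ℂ] H => S x) h
    exact h1)
  intro x
  exact congrFun this x

/-- comparison of positive operators by their norms -/
theorem le_of_norm {A B : H →L[ℂ] H} (hA : 0 ≤ A) (hB : 0 ≤ B) (h : ∀ x, ‖A x‖ ≤ ‖B x‖) :
    A ≤ B := by
  have hA' : IsSelfAdjoint A := ((ContinuousLinearMap.nonneg_iff_isPositive A).mp hA).isSelfAdjoint
  have hB' : IsSelfAdjoint B := ((ContinuousLinearMap.nonneg_iff_isPositive B).mp hB).isSelfAdjoint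
  have key : ∀ (S : H →L[ℂ] H), IsSelfAdjoint S → ∀ x, RCLike.re (inner ℂ ((S * S) x) x) = ‖S x‖ ^ 2 := by
    intro S hS x
    have h1 : inner ℂ (S (S x)) x = inner ℂ (S x) (S x) :=
      (ContinuousLinearMap.isSelfAdjoint_iff_isSymmetric.mp hS) (S x) x
    show RCLike.re (inner ℂ (S (S x)) x) = _
    rw [h1, inner_self_eq_norm_sq]
  have hsq : A * A ≤ B * B := by
    rw [ContinuousLinearMap.le_def, ContinuousLinearMap.isPositive_def']
    refine ⟨?_, fun x => ?_⟩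
    · refine IsSelfAdjoint.sub ?_ ?_
      · rw [isSelfAdjoint_iff, star_mul, hB'.star_eq]
      · rw [isSelfAdjoint_iff, star_mul, hA'.star_eq]
    · rw [ContinuousLinearMap.reApplyInnerSelf_apply, ContinuousLinearMap.sub_apply, inner_sub_left,
        map_sub, key A hA' x, key B hB' x]
      have := pow_le_pow_left₀ (norm_nonneg _) (h x) 2
      linarith
  have h2 := CFC.sqrt_le_sqrt _ _ hsq
  rwa [CFC.sqrt_mul_self A hA, CFC.sqrt_mul_self B hB] at h2

theorem inner_ab (h2 : S_BAS) (T : H →L[ℂ] H) (x : H) :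
    RCLike.re (inner ℂ (ab T x) x) = ‖hf T x‖ ^ 2 := by
  obtain ⟨-, hh, -, hhf, -, -⟩ := h2 H T
  have hS : IsSelfAdjoint (hf T) :=
    ((ContinuousLinearMap.nonneg_iff_isPositive (hf T)).mp hh).isSelfAdjoint
  have h1 : inner ℂ (hf T (hf T x)) x = inner ℂ (hf T x) (hf T x) :=
    (ContinuousLinearMap.isSelfAdjoint_iff_isSymmetric.mp hS) (hf T x) x
  rw [← hhf]
  show RCLike.re (inner ℂ (hf T (hf T x)) x) = _
  rw [h1, inner_self_eq_norm_sq]

theorem one_side (h1 : S_DGL) (h2 : S_BAS) (T R Y : H →L[ℂ] H) (hT : Function.Injective T)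
    (hY : Y * T = R * Y) : ∃ Y' : H →L[ℂ] H, Y' * hf T = hf R * Y ∧ ‖Y'‖ ≤ ‖Y‖ := by
  obtain ⟨abT, -, -, -, nT, dT⟩ := h2 H T
  obtain ⟨abR, -, -, -, nR, -⟩ := h2 H R
  refine h1 H (hf T) (hf R * Y) ‖Y‖ (norm_nonneg _) (dT hT).2.2.2 fun x => ?_
  set c : ℝ := ‖Y‖ with hc
  have hA : 0 ≤ star Y * ab R * Y := star_left_conjugate_nonneg abR Y
  have hB : 0 ≤ ((c ^ 2 : ℝ) : ℂ) • ab T := by
    rw [ContinuousLinearMap.nonneg_iff_isPositive] at abT ⊢
    refine abT.smul_of_nonneg ?_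
    exact_mod_cast sq_nonneg c
  have hle : star Y * ab R * Y ≤ ((c ^ 2 : ℝ) : ℂ) • ab T := by
    refine le_of_norm hA hB fun y => ?_
    have e1 : R (Y y) = Y (T y) := (congrArg (fun S : H →L[ℂ] H => S y) hY).symm
    calc ‖(star Y * ab R * Y) y‖ = ‖star Y (ab R (Y y))‖ := rfl
      _ ≤ ‖star Y‖ * ‖ab R (Y y)‖ := (star Y).le_opNorm _
      _ = c * ‖Y (T y)‖ := by rw [norm_star, nR, e1]
      _ ≤ c * (c * ‖T y‖) := mul_le_mul_of_nonneg_left (Y.le_opNorm _) (norm_nonneg _)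
      _ = ‖(((c ^ 2 : ℝ) : ℂ) • ab T) y‖ := by
        rw [ContinuousLinearMap.smul_apply, norm_smul, nT, Complex.norm_real, Real.norm_eq_abs,
          abs_of_nonneg (sq_nonneg c)]
        ring
  have h3 := ((ContinuousLinearMap.le_def _ _).mp hle).re_inner_nonneg_left x
  rw [ContinuousLinearMap.sub_apply, inner_sub_left, map_sub] at h3
  have e2 : RCLike.re (inner ℂ ((star Y * ab R * Y) x) x) = ‖hf R (Y x)‖ ^ 2 := by
    rw [← inner_ab h2 R (Y x)]
    show RCLike.re (inner ℂ (star Y (ab R (Y x))) x) = _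
    rw [ContinuousLinearMap.star_eq_adjoint, ContinuousLinearMap.adjoint_inner_left]
  have e3 : RCLike.re (inner ℂ ((((c ^ 2 : ℝ) : ℂ) • ab T) x) x) = c ^ 2 * ‖hf T x‖ ^ 2 := by
    rw [← inner_ab h2 T x, ContinuousLinearMap.smul_apply, inner_smul_left]
    rw [Complex.conj_ofReal]
    exact Complex.re_ofReal_mul _ _
  rw [e2, e3] at h3
  have h4 : ‖hf R (Y x)‖ ^ 2 ≤ (c * ‖hf T x‖) ^ 2 := by rw [mul_pow]; linarith
  exact (sq_le_sq₀ (norm_nonneg _) (mul_nonneg (norm_nonneg _) (norm_nonneg _))).mp h4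

theorem cmp (h1 : S_DGL) (h2 : S_BAS) (h3 : S_ALU) : S_CMP := by
  intro H _ _ _ T R Y Z hT hR hYZ hZY hY
  have hZ : Z * R = T * Z := by
    calc Z * R = Z * R * (Y * Z) := by rw [hYZ, mul_one]
      _ = Z * (R * Y) * Z := by noncomm_ring
      _ = (Z * Y) * T * Z := by rw [← hY]; noncomm_ring
      _ = T * Z := by rw [hZY, one_mul]
  obtain ⟨Y', hY', nY⟩ := one_side h1 h2 T R Y hT hY
  obtain ⟨Z', hZ', nZ⟩ := one_side h1 h2 R T Z hR hZ
  obtain ⟨-, -, -, -, -, dT⟩ := h2 H T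
  obtain ⟨-, -, -, -, -, dR⟩ := h2 H R
  obtain ⟨-, -, -, aT, -⟩ := h3 H T hT
  obtain ⟨-, -, -, aR, -⟩ := h3 H R hR
  refine ⟨Y', Z', ?_, ?_, ?_, nY, nZ⟩
  · refine cancel (dR hR).2.2.2 ?_
    rw [mul_assoc, hZ', ← mul_assoc, hY', mul_assoc, hYZ, mul_one, one_mul]
  · refine cancel (dT hT).2.2.2 ?_
    rw [mul_assoc, hY', ← mul_assoc, hZ', mul_assoc, hZY, mul_one, one_mul]
  · refine cancel (dT hT).2.2.2 ?_
    rw [mul_assoc, aT, ← mul_assoc, hY', mul_assoc, hY, ← mul_assoc, ← aR, mul_assoc, mul_assoc,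
      ← hY']

end Pool.Agent.H746.AL
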