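import Pool.Agent.H308.AL.Stm

/-!
# Project AL: *-strong continuity of the Aluthge transform
-/

set_option autoImplicit false

open Filter Topology

noncomputable section

namespace Pool.Agent.H707.AL

open Pool.Agent.H308.AL

section

variable {H : Type} [NormedAddCommGroup H] [InnerProductSpace ℂ H] [CompleteSpace H]

theorem ab_eq (T : H →L[ℂ] H) : ab T = cfc Real.sqrt (star T * T) := by
  unfold ab
  rw [CFC.sqrt_eq_real_sqrt (star T * T) (star_mul_self_nonneg T)]
  exact cfcₙ_eq_cfc Real.continuous_sqrt.continuousOn Real.sqrt_zero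

theorem hf_eq (T : H →L[ℂ] H) (h : 0 ≤ ab T) : hf T = cfc Real.sqrt (ab T) := by
  unfold hf
  rw [CFC.sqrt_eq_real_sqrt (ab T) h]
  exact cfcₙ_eq_cfc Real.continuous_sqrt.continuousOn Real.sqrt_zero

theorem key_scalar (ε t : ℝ) (hε : 0 < ε) (ht : 0 ≤ t) :
    ‖Real.sqrt t - t * (1 / (Real.sqrt t + ε))‖ ≤ ε := by
  have hs := Real.sqrt_nonneg t
  have hpos : 0 < Real.sqrt t + ε := by linarith
  have h1 : Real.sqrt t - t * (1 / (Real.sqrt t + ε)) = ε * (Real.sqrt t / (Real.sqrt t + ε)) := by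
    have h2 : t = Real.sqrt t * Real.sqrt t := (Real.mul_self_sqrt ht).symm
    field_simp
    nlinarith
  have h3 : 0 ≤ Real.sqrt t / (Real.sqrt t + ε) := div_nonneg hs hpos.le
  have h4 : Real.sqrt t / (Real.sqrt t + ε) ≤ 1 := by
    rw [div_le_one hpos]; linarith
  rw [h1, Real.norm_eq_abs, abs_of_nonneg (mul_nonneg hε.le h3)]
  nlinarith

end

theorem cont (h1 : S_SC1) (h2 : S_SC2) (h3 : S_ALU) (h4 : S_BAS) : S_CONT := by
  intro H _ _ _ X _ A hinj hA
  -- `|T|`, `|T|^(1/2)`
  have hAA : StarCont fun s => star (A s) * A s :=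
    (h2 H X (fun s => star (A s)) A).1 ((h2 H X A A).2.1 hA) hA
  have hab : StarCont fun s => ab (A s) := by
    have h := h1 H X (fun s => star (A s) * A s) Real.sqrt Real.continuous_sqrt
      (fun s => IsSelfAdjoint.star_mul_self (A s)) hAA
    have h' : (fun s => ab (A s)) = fun s => cfc Real.sqrt (star (A s) * A s) :=
      funext fun s => ab_eq (A s)
    rw [h']
    exact h
  have habsa : ∀ s, IsSelfAdjoint (ab (A s)) := fun s =>
    IsSelfAdjoint.of_nonneg (h4 H (A s)).1
  have hhf : StarCont fun s => hf (A s) := by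
    have h := h1 H X (fun s => ab (A s)) Real.sqrt Real.continuous_sqrt habsa hab
    have h' : (fun s => hf (A s)) = fun s => cfc Real.sqrt (ab (A s)) :=
      funext fun s => hf_eq (A s) (h4 H (A s)).1
    rw [h']
    exact h
  obtain ⟨M, hM⟩ := hhf.bdd
  refine (h2 H X (fun s => al (A s)) A).2.2 fun ε hε => ?_
  set δ : ℝ := ε / (|M| + 1) with hδ
  have hM1 : 0 < |M| + 1 := by positivity
  have hδpos : 0 < δ := div_pos hε hM1
  set g : ℝ → ℝ := fun t => 1 / (Real.sqrt t + δ) with hg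
  have hgc : Continuous g := by
    refine continuous_const.div (Real.continuous_sqrt.add continuous_const) fun t => ?_
    have := Real.sqrt_nonneg t
    linarith
  have hcg : StarCont fun s => cfc g (ab (A s)) := h1 H X (fun s => ab (A s)) g hgc habsa hab
  have hD : StarCont fun s => hf (A s) * A s * cfc g (ab (A s)) :=
    (h2 H X (fun s => hf (A s) * A s) (fun s => cfc g (ab (A s)))).1
      ((h2 H X (fun s => hf (A s)) A).1 hhf hA) hcg
  refine ⟨fun s => hf (A s) * A s * cfc g (ab (A s)), hD, fun s => ?_⟩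
  obtain ⟨-, -, -, -, U, hU, hUT, hal⟩ := h3 H (A s) (hinj s)
  have hUn : ‖U‖ ≤ 1 := by
    have h5 : ‖U‖ * ‖U‖ ≤ 1 := by
      rw [← CStarRing.norm_star_mul_self, hU]
      exact ContinuousLinearMap.norm_id_le
    nlinarith [norm_nonneg U]
  have h6 : al (A s) - hf (A s) * A s * cfc g (ab (A s)) =
      hf (A s) * U * (hf (A s) - ab (A s) * cfc g (ab (A s))) := by
    have h5 : A s * cfc g (ab (A s)) = U * (ab (A s) * cfc g (ab (A s))) := by
      rw [← mul_assoc, hUT]
    rw [hal, mul_sub, mul_assoc (hf (A s)) (A s), h5]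
    simp only [mul_assoc]
  have h7 : ab (A s) * cfc g (ab (A s)) = cfc (fun t => t * g t) (ab (A s)) := by
    rw [cfc_mul (fun t : ℝ => t) g (ab (A s)) continuousOn_id hgc.continuousOn,
      cfc_id' ℝ (ab (A s)) (habsa s)]
  have h8 : hf (A s) - ab (A s) * cfc g (ab (A s)) =
      cfc (fun t => Real.sqrt t - t * g t) (ab (A s)) := by
    rw [h7, hf_eq (A s) (h4 H (A s)).1]
    exact (cfc_sub Real.sqrt (fun t => t * g t) (ab (A s)) Real.continuous_sqrt.continuousOn
      (continuous_id.mul hgc).continuousOn).symm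
  have h9 : ‖hf (A s) - ab (A s) * cfc g (ab (A s))‖ ≤ δ := by
    rw [h8]
    refine norm_cfc_le hδpos.le fun t ht => ?_
    exact key_scalar δ t hδpos (spectrum_nonneg_of_nonneg (h4 H (A s)).1 ht)
  rw [h6]
  calc ‖hf (A s) * U * (hf (A s) - ab (A s) * cfc g (ab (A s)))‖
      ≤ ‖hf (A s)‖ * ‖U‖ * ‖hf (A s) - ab (A s) * cfc g (ab (A s))‖ :=
        (norm_mul_le _ _).trans (mul_le_mul_of_nonneg_right (norm_mul_le _ _) (norm_nonneg _))
    _ ≤ |M| * 1 * δ := by
        refine mul_le_mul (mul_le_mul ((hM s).trans (le_abs_self M)) hUn (norm_nonneg _)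
          (abs_nonneg _)) h9 (norm_nonneg _) (by positivity)
    _ ≤ ε := by
        rw [mul_one, hδ, mul_div_assoc', div_le_iff₀ hM1]
        nlinarith [abs_nonneg M]

end Pool.Agent.H707.AL
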