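import Pool.Agent.H308.AL.Stm

/-!
# DGL: Douglas lemma with dense range
-/

set_option autoImplicit false

open Filter Topology

noncomputable section

namespace Pool.Agent.H331.AL

open Pool.Agent.H308.AL

theorem dgl : S_DGL := by
  intro H _ _ _ A B C hC hA hB
  let e : H →ₗ[ℂ] H := A.toLinearMap
  let f : H →ₗ[ℂ] H := B.toLinearMap
  have hd : DenseRange e := hA
  have hn : ∀ x, ‖f x‖ ≤ C * ‖e x‖ := hB
  refine ⟨f.extendOfNorm e, ?_, LinearMap.opNorm_extendOfNorm_le hd hC hn⟩
  refine ContinuousLinearMap.ext fun x => ?_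
  exact LinearMap.extendOfNorm_eq hd ⟨C, hn⟩ x

end Pool.Agent.H331.AL
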