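import Pool.Agent.H308.AL.Stm

/-! # AL-DIA (subtask by helper284) -/

set_option autoImplicit false

open Filter Topology

noncomputable section

namespace Pool.Agent.H284.AL

open Pool.Agent.H308.AL

/-- diagonal operators with nonnegative bounded entries -/
lemma exists_diag (h3 : S_SCH) (d : ℕ → ℝ) (C : ℝ) (h0 : ∀ k, 0 ≤ d k) (hC : ∀ k, d k ≤ C) :
    ∃ D : L2 →L[ℂ] L2, (∀ (x : L2) (k : ℕ), (D x) k = (d k : ℂ) * x k) ∧ ‖D‖ ≤ C := by
  have hC0 : 0 ≤ C := (h0 0).trans (hC 0)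
  obtain ⟨m, hm⟩ : ∃ m : ℕ → ℕ → ℝ, m = fun j k => if j = k then d k else 0 := ⟨_, rfl⟩
  have hmjk : ∀ j k, m j k = if j = k then d k else 0 := fun j k => by rw [hm]
  have c1 : ∀ j k, 0 ≤ m j k := by
    intro j k
    rw [hmjk]
    split_ifs
    · exact h0 k
    · exact le_rfl
  have c2 : ∀ j, ∑ k ∈ Finset.range (j + 1), m j k ≤ C := by
    intro j
    rw [Finset.sum_eq_single j]
    · rw [hmjk, if_pos rfl]
      exact hC j
    · intro k _ hk
      rw [hmjk, if_neg (Ne.symm hk)]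
    · intro h
      exact (h (Finset.mem_range.2 (Nat.lt_succ_self j))).elim
  have c3 : ∀ k N, ∑ j ∈ Finset.Ico k N, m j k ≤ C := by
    intro k N
    by_cases h : k ∈ Finset.Ico k N
    · rw [Finset.sum_eq_single k]
      · rw [hmjk, if_pos rfl]
        exact hC k
      · intro j _ hj
        rw [hmjk, if_neg hj]
      · intro h'
        exact (h' h).elim
    · rw [Finset.sum_eq_zero]
      · exact hC0
      · intro j hj
        rw [hmjk, if_neg]
        rintro rfl
        exact h hj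
  obtain ⟨hM, hn, -⟩ := h3 m C C c1 c2 c3
  refine ⟨mat m, fun x j => ?_, ?_⟩
  · rw [hM x j, Finset.sum_eq_single j]
    · rw [hmjk, if_pos rfl]
    · intro k _ hk
      rw [hmjk, if_neg (Ne.symm hk), Complex.ofReal_zero, zero_mul]
    · intro h
      exact (h (Finset.mem_range.2 (Nat.lt_succ_self j))).elim
  · rw [Real.sqrt_mul_self hC0] at hn
    exact hn

lemma star_eq_of_diag {D : L2 →L[ℂ] L2} {d : ℕ → ℝ}
    (h : ∀ (x : L2) (k : ℕ), (D x) k = (d k : ℂ) * x k) : star D = D := by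
  rw [ContinuousLinearMap.star_eq_adjoint]
  refine ContinuousLinearMap.ext fun x => ?_
  refine ext_inner_left ℂ fun y => ?_
  rw [ContinuousLinearMap.adjoint_inner_right, lp.inner_eq_tsum, lp.inner_eq_tsum]
  refine tsum_congr fun k => ?_
  rw [h, h]
  simp only [RCLike.inner_apply, map_mul, Complex.conj_ofReal]
  ring

lemma ext_coord {A B : L2 →L[ℂ] L2} (h : ∀ (x : L2) (k : ℕ), (A x) k = (B x) k) : A = B := by
  refine ContinuousLinearMap.ext fun x => ?_
  refine lp.ext ?_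
  funext k
  exact h x k

/-- **DIA.** -/
theorem dia (h1 : S_TWB) (h2 : S_DOM) (h3 : S_SCH) : S_DIA := by
  intro b hb hdec hev
  obtain ⟨N, hN⟩ := hev
  obtain ⟨z, hz⟩ : ∃ z : ℕ → ℝ, z = fun k => b k / b N := ⟨_, rfl⟩
  have hzk : ∀ k, z k = b k / b N := fun k => by rw [hz]
  have hbN := hb N
  have hble : ∀ k, b N ≤ b k := by
    intro k
    rcases le_total k N with h | h
    · exact hdec N k h
    · rw [hN k h]
  have hz1 : ∀ k, 1 ≤ z k := by
    intro k
    rw [hzk, le_div_iff₀ hbN, one_mul]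
    exact hble k
  have hz0 : ∀ k, 0 < z k := fun k => lt_of_lt_of_le one_pos (hz1 k)
  have hzC : ∀ k, z k ≤ z 0 := by
    intro k
    rw [hzk, hzk]
    exact div_le_div_of_nonneg_right (hdec k 0 (Nat.zero_le k)) hbN.le
  have hzN : ∀ k, N ≤ k → z k = 1 := by
    intro k hk
    rw [hzk, hN k hk, div_self hbN.ne']
  obtain ⟨Z, hZ, -⟩ := exists_diag h3 z (z 0) (fun k => (hz0 k).le) hzC
  obtain ⟨Y, hY, hYn⟩ := exists_diag h3 (fun k => (z k)⁻¹) 1 (fun k => (inv_pos.2 (hz0 k)).le)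
    (fun k => inv_le_one_of_one_le₀ (hz1 k))
  have hzc : ∀ k, (z k : ℂ) ≠ 0 := fun k => Complex.ofReal_ne_zero.2 (hz0 k).ne'
  refine ⟨Y, Z, ?_, ?_, star_eq_of_diag hY, star_eq_of_diag hZ, hYn, ?_, ?_⟩
  · refine ext_coord fun x k => ?_
    show (Y (Z x)) k = x k
    rw [hY, hZ, Complex.ofReal_inv, ← mul_assoc, inv_mul_cancel₀ (hzc k), one_mul]
  · refine ext_coord fun x k => ?_
    show (Z (Y x)) k = x k
    rw [hZ, hY, Complex.ofReal_inv, ← mul_assoc, mul_inv_cancel₀ (hzc k), one_mul]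
  · intro a ha0 ha1
    obtain ⟨hT, -, -⟩ := h1 a b ha0 ha1.le hb hdec
    obtain ⟨hR, -, -⟩ := h1 a (fun _ => 1) ha0 ha1.le (fun _ => one_pos) (fun _ _ _ => le_rfl)
    refine ext_coord fun x j => ?_
    show (T a b x) j = (Z (R a (Y x))) j
    have e1 : (R a (Y x)) j = ∑ k ∈ Finset.range (j + 1), (tw a (fun _ => 1) j k : ℂ) * (Y x) k :=
      hR (Y x) j
    rw [hT x j, hZ, e1, Finset.mul_sum]
    refine Finset.sum_congr rfl fun k _ => ?_
    rw [hY]
    have e2 : tw a b j k = z j * (tw a (fun _ => 1) j k * (z k)⁻¹) := by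
      unfold tw
      rw [hzk, hzk]
      have := (hb k).ne'
      field_simp
    rw [e2]
    push_cast
    ring
  · intro p hp0 hp1
    obtain ⟨e, he⟩ : ∃ e : ℕ → L2, e = fun k => lp.single 2 k (1 : ℂ) := ⟨_, rfl⟩
    have hek : ∀ k j, (e k) j = if j = k then 1 else 0 := by
      intro k j
      rw [he]
      by_cases h : j = k
      · subst h
        rw [if_pos rfl]
        exact lp.single_apply_self (E := fun _ : ℕ => ℂ) 2 j (1 : ℂ)
      · rw [if_neg h]
        exact lp.single_apply_ne (E := fun _ : ℕ => ℂ) 2 k (1 : ℂ) h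
    have hZx : ∀ x : L2, Z x = x + ∑ k ∈ Finset.range N, (((z k - 1 : ℝ) : ℂ) * x k) • e k := by
      intro x
      refine lp.ext ?_
      funext j
      have e1 : (x + ∑ k ∈ Finset.range N, (((z k - 1 : ℝ) : ℂ) * x k) • e k : L2) j =
          x j + ∑ k ∈ Finset.range N, (((z k - 1 : ℝ) : ℂ) * x k) * (e k) j := by
        rw [lp.coeFn_add, Pi.add_apply, lp.coeFn_sum, Finset.sum_apply]
        rfl
      rw [e1, hZ]
      by_cases hj : j < N
      · rw [Finset.sum_eq_single j]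
        · rw [hek, if_pos rfl]
          push_cast
          ring
        · intro k _ hk
          rw [hek, if_neg (Ne.symm hk), mul_zero]
        · intro h
          exact (h (Finset.mem_range.2 hj)).elim
      · rw [Finset.sum_eq_zero, add_zero, hzN j (not_lt.1 hj), Complex.ofReal_one, one_mul]
        intro k hk
        rw [hek, if_neg, mul_zero]
        rintro rfl
        exact hj (Finset.mem_range.1 hk)
    have hD : ∀ k, ∃ C : ℝ, 0 ≤ C ∧ ∀ x : L2, ‖x k‖ ≤ C * ‖R p x‖ := fun k => h2 p k hp0 hp1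
    choose C hC0 hC using hD
    refine ⟨1 + ∑ k ∈ Finset.range N, (z k - 1) * C k * ‖R p (e k)‖, ?_, fun x => ?_⟩
    · refine add_nonneg zero_le_one (Finset.sum_nonneg fun k _ => ?_)
      exact mul_nonneg (mul_nonneg (sub_nonneg.2 (hz1 k)) (hC0 k)) (norm_nonneg _)
    · rw [hZx x, map_add, map_sum, add_mul, one_mul, Finset.sum_mul]
      refine (norm_add_le _ _).trans (add_le_add le_rfl ?_)
      refine (norm_sum_le _ _).trans (Finset.sum_le_sum fun k _ => ?_)
      rw [map_smul, norm_smul, norm_mul, Complex.norm_real, Real.norm_eq_abs,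
        abs_of_nonneg (sub_nonneg.2 (hz1 k))]
      have h5 := mul_le_mul_of_nonneg_left (hC k x) (sub_nonneg.2 (hz1 k))
      have h6 := mul_le_mul_of_nonneg_right h5 (norm_nonneg (R p (e k)))
      calc (z k - 1) * ‖x k‖ * ‖R p (e k)‖ ≤ (z k - 1) * (C k * ‖R p x‖) * ‖R p (e k)‖ := h6
        _ = (z k - 1) * C k * ‖R p (e k)‖ * ‖R p x‖ := by ring

end Pool.Agent.H284.AL
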