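import Pool.Agent.H308.AL.Stm

/-!
# The coordinate bound
-/

set_option autoImplicit false

open Pool.Agent.H308.AL

namespace Pool.Agent.H803.AL

theorem dom (h1 : S_TWB) : S_DOM := by
  intro a k ha ha1
  obtain ⟨hM, -, -⟩ := h1 a (fun _ => 1) ha ha1.le (fun _ => one_pos) (fun _ _ _ => le_rfl)
  induction k using Nat.strong_induction_on with
  | _ k ih =>
    choose! C hC0 hC using ih
    have hS : 0 ≤ ∑ i ∈ Finset.range k, |tw a (fun _ => 1) k i| * C i :=
      Finset.sum_nonneg fun i hi => mul_nonneg (abs_nonneg _) (hC0 i (Finset.mem_range.1 hi))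
    have hp : 0 < a ^ (k + 1) := pow_pos ha _
    refine ⟨(a ^ (k + 1))⁻¹ * (1 + ∑ i ∈ Finset.range k, |tw a (fun _ => 1) k i| * C i),
      mul_nonneg (inv_nonneg.2 hp.le) (by linarith), fun x => ?_⟩
    have e1 : (R a x) k = ∑ i ∈ Finset.range (k + 1), (tw a (fun _ => 1) k i : ℂ) * x i := hM x k
    have e2 : tw a (fun _ => 1) k k = a ^ (k + 1) := by
      simp [tw, t]
    rw [Finset.sum_range_succ, e2] at e1
    have e3 : ((a ^ (k + 1) : ℝ) : ℂ) * x k =
        (R a x) k - ∑ i ∈ Finset.range k, (tw a (fun _ => 1) k i : ℂ) * x i := by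
      rw [e1]
      ring
    have e4 : a ^ (k + 1) * ‖x k‖ ≤
        ‖R a x‖ + ∑ i ∈ Finset.range k, |tw a (fun _ => 1) k i| * C i * ‖R a x‖ := by
      have h5 := congrArg norm e3
      rw [norm_mul, Complex.norm_real, Real.norm_of_nonneg hp.le] at h5
      rw [h5]
      refine (norm_sub_le _ _).trans (add_le_add (lp.norm_apply_le_norm (by norm_num) _ _) ?_)
      refine (norm_sum_le _ _).trans (Finset.sum_le_sum fun i hi => ?_)
      rw [norm_mul, Complex.norm_real, Real.norm_eq_abs, mul_assoc]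
      exact mul_le_mul_of_nonneg_left (hC i (Finset.mem_range.1 hi) x) (abs_nonneg _)
    rw [← Finset.sum_mul] at e4
    rw [mul_assoc, le_inv_mul_iff₀ hp]
    linarith

end Pool.Agent.H803.AL
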