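import Pool.Agent.H308.AL.Stm

/-!
# AL-DOWN: upper bound for the limit of the iterated Aluthge transforms
-/

set_option autoImplicit false

open Filter Topology

noncomputable section

namespace Pool.Agent.H784.AL

open Pool.Agent.H308.AL

variable {H : Type} [NormedAddCommGroup H] [InnerProductSpace ℂ H] [CompleteSpace H]

theorem it_succ (T : H →L[ℂ] H) (n : ℕ) : it T (n + 1) = al (it T n) :=
  Function.iterate_succ_apply' al n T

theorem it_bd (h2 : S_HNZ) (h3 : S_ALU) (T : H →L[ℂ] H) (hT : Function.Injective T) (n : ℕ) :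
    Function.Injective (it T n) ∧ ∀ k : ℕ, ‖(it T n) ^ k‖ ≤ ‖T ^ k‖ := by
  induction n with
  | zero => exact ⟨hT, fun k => le_refl _⟩
  | succ n ih =>
    rw [it_succ]
    exact ⟨(h3 H (it T n) ih.1).2.2.1, fun k => (h2 H (it T n) ih.1 k).trans (ih.2 k)⟩

omit [CompleteSpace H] in
theorem pow_lim (S : ℕ → H →L[ℂ] H) (L : H →L[ℂ] H) (M : ℝ) (hM : ∀ n, ‖S n‖ ≤ M) (hS : SOT S L) (k : ℕ) :
    ∀ x, Tendsto (fun n => ((S n) ^ k) x) atTop (𝓝 ((L ^ k) x)) := by
  induction k with
  | zero =>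
    intro x
    simp only [pow_zero]
    exact tendsto_const_nhds
  | succ k ih =>
    intro x
    have e : ∀ A : H →L[ℂ] H, (A ^ (k + 1)) x = A ((A ^ k) x) := fun A => by
      rw [pow_succ']
      rfl
    rw [e L]
    have h1 : Tendsto (fun n => S n (((S n) ^ k) x - (L ^ k) x)) atTop (𝓝 0) := by
      have h2 : Tendsto (fun n => M * ‖((S n) ^ k) x - (L ^ k) x‖) atTop (𝓝 0) := by
        have h3 := ((ih x).sub_const ((L ^ k) x)).norm.const_mul M
        rw [sub_self, norm_zero, mul_zero] at h3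
        exact h3
      refine squeeze_zero_norm (fun n => ?_) h2
      exact ((S n).le_opNorm _).trans (mul_le_mul_of_nonneg_right (hM n) (norm_nonneg _))
    have h4 := h1.add (hS ((L ^ k) x))
    rw [zero_add] at h4
    refine h4.congr fun n => ?_
    rw [e (S n), map_sub, sub_add_cancel]

theorem down (h1 : S_SPC) (h2 : S_HNZ) (h3 : S_ALU) : S_DOWN := by
  intro H _ _ _ T L m C hT hm hC hpow hSOT hQ
  refine (h1 H L m C hm hC hQ).2 fun k x => ?_
  have hb := it_bd h2 h3 T hT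
  have hM : ∀ n, ‖it T n‖ ≤ ‖T‖ := fun n => by
    have := (hb n).2 1
    simpa using this
  refine le_of_tendsto (pow_lim (it T) L ‖T‖ hM hSOT k x).norm (Eventually.of_forall fun n => ?_)
  calc ‖((it T n) ^ k) x‖ ≤ ‖(it T n) ^ k‖ * ‖x‖ := ((it T n) ^ k).le_opNorm x
    _ ≤ (C * m ^ k) * ‖x‖ := mul_le_mul_of_nonneg_right (((hb n).2 k).trans (hpow k)) (norm_nonneg _)

end Pool.Agent.H784.AL
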