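import Pool.Agent.H308.AL.Stm

/-!
# EPW: rational powers of `E c`
-/

set_option autoImplicit false

open Filter Topology

noncomputable section

namespace Pool.Agent.H331.AL

open Pool.Agent.H308.AL

section General

variable {H : Type} [NormedAddCommGroup H] [InnerProductSpace ℂ H] [CompleteSpace H]

theorem pw_nat (A : H →L[ℂ] H) (hA : 0 ≤ A) (k : ℕ) : pw A (k : ℝ) = A ^ k := by
  unfold pw
  exact CFC.rpow_natCast _ k hA

theorem pw_pw (A : H →L[ℂ] H) (hA : 0 ≤ A) (x y : ℝ) (hx : 0 ≤ x) (hy : 0 ≤ y) :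
    pw (pw A x) y = pw A (x * y) := by
  unfold pw
  exact CFC.rpow_rpow_of_exponent_nonneg _ _ _ hx hy hA

open ComplexOrder in
theorem smul_star_mul_nonneg (A : H →L[ℂ] H) (r : ℝ) (hr : 0 ≤ r) :
    0 ≤ (r : ℂ) • (star A * A) := by
  have h2 : (0 : ℂ) ≤ (r : ℂ) := by exact_mod_cast hr
  exact smul_nonneg h2 (star_mul_self_nonneg _)

end General

theorem E_nonneg (c : ℝ) (hc : c < 1) : 0 ≤ E c := by
  have h : (0 : ℝ) ≤ 1 / (1 - c) := by
    have : 0 < 1 - c := by linarith
    positivity
  exact smul_star_mul_nonneg _ _ h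

theorem epw (h1 : S_KER) (_h2 : S_TWB) : S_EPW := by
  intro c m n hc hc1 hm hmn
  have hn : 0 < n := by omega
  have hnR : (0 : ℝ) < n := by exact_mod_cast hn
  obtain ⟨hadd, -, -⟩ := h1
  have hcn : c / n < 1 := by
    rw [div_lt_one hnR]
    have : (1 : ℝ) ≤ n := by exact_mod_cast hn
    linarith
  have hcn0 : 0 ≤ c / n := by positivity
  have hpow : ∀ k : ℕ, k + 1 ≤ n → (E (c / n)) ^ (k + 1) = E (((k + 1 : ℕ) : ℝ) / n * c) := by
    intro k
    induction k with
    | zero =>
      intro _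
      rw [pow_one]
      congr 1
      push_cast
      ring
    | succ k ih =>
      intro hk
      rw [pow_succ, ih (by omega), hadd _ _ (by positivity) hcn0]
      · congr 1
        push_cast
        ring
      · have e : ((k + 1 : ℕ) : ℝ) / n * c + c / n = (((k + 1 + 1 : ℕ) : ℝ) / n) * c := by
          push_cast
          ring
        rw [e]
        have h3 : (((k + 1 + 1 : ℕ) : ℝ) / n) ≤ 1 := by
          rw [div_le_one hnR]
          exact_mod_cast hk
        calc (((k + 1 + 1 : ℕ) : ℝ) / n) * c ≤ 1 * c := mul_le_mul_of_nonneg_right h3 hc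
          _ < 1 := by linarith
  have hF : 0 ≤ E (c / n) := E_nonneg _ hcn
  refine ⟨E_nonneg c hc1, ?_⟩
  have hpn : ∀ k : ℕ, pw (E (c / n)) (k : ℝ) = (E (c / n)) ^ k := fun k => pw_nat _ hF k
  have en : E c = pw (E (c / n)) (n : ℝ) := by
    rw [hpn]
    have := hpow (n - 1) (by omega)
    have e2 : n - 1 + 1 = n := by omega
    rw [e2] at this
    rw [this, div_self hnR.ne', one_mul]
  have em : pw (E (c / n)) (m : ℝ) = E ((m : ℝ) / n * c) := by
    rw [hpn]
    have := hpow (m - 1) (by omega)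
    have e2 : m - 1 + 1 = m := by omega
    rw [e2] at this
    exact this
  rw [en, ← em, pw_pw _ hF _ _ hnR.le (by positivity), mul_div_cancel₀ _ hnR.ne']

end Pool.Agent.H331.AL
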