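import Pool.Agent.H308.AL.Stm

/-! # Absolute convergence of the power series of the elements of `H²(β)` -/

set_option autoImplicit false

open Filter Topology

noncomputable section

namespace Pool.Agent.H282.AL

open Pool.Agent.H308.AL

theorem evl : S_EVL := by
  intro β hβ x z hz
  have hz0 := norm_nonneg z
  have hzn : ‖(‖z‖ : ℝ)‖ < 1 := by rwa [norm_norm]
  have s1 : Summable fun j : ℕ => (j : ℝ) ^ 2 * ‖z‖ ^ j :=
    summable_pow_mul_geometric_of_norm_lt_one 2 hzn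
  have s2 : Summable fun j : ℕ => ‖z‖ ^ j := summable_geometric_of_norm_lt_one hzn
  have s3 : Summable fun j : ℕ => ‖x‖ * (2 * ((j : ℝ) ^ 2 * ‖z‖ ^ j) + 2 * ‖z‖ ^ j) :=
    ((s1.mul_left 2).add (s2.mul_left 2)).mul_left ‖x‖
  refine Summable.of_nonneg_of_le (fun j => norm_nonneg _) (fun j => ?_) s3
  have hj : (0 : ℝ) < (j : ℝ) + 1 := by positivity
  have hb : 0 < β j := lt_of_lt_of_le (by positivity) (hβ j)
  have hx : ‖x j‖ ≤ ‖x‖ := lp.norm_apply_le_norm (by norm_num) x j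
  rw [norm_mul, norm_div, norm_pow, Complex.norm_real, Real.norm_of_nonneg hb.le]
  have h1 : 1 / β j ≤ ((j : ℝ) + 1) ^ 2 := by
    rw [div_le_iff₀ hb]
    have h2 := mul_le_mul_of_nonneg_left (hβ j) (by positivity : 0 ≤ ((j : ℝ) + 1) ^ 2)
    have h3 : ((j : ℝ) + 1) ^ 2 * (1 / ((j : ℝ) + 1)) ^ 2 = 1 := by
      field_simp
    linarith
  have h2 : ((j : ℝ) + 1) ^ 2 ≤ 2 * (j : ℝ) ^ 2 + 2 := by nlinarith [sq_nonneg ((j : ℝ) - 1)]
  calc ‖x j‖ / β j * ‖z‖ ^ j = ‖x j‖ * (1 / β j) * ‖z‖ ^ j := by ring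
    _ ≤ ‖x‖ * (2 * (j : ℝ) ^ 2 + 2) * ‖z‖ ^ j := by
        refine mul_le_mul_of_nonneg_right ?_ (by positivity)
        exact mul_le_mul hx (h1.trans h2) (by positivity) (norm_nonneg _)
    _ = _ := by ring

end Pool.Agent.H282.AL
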