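import Pool.Agent.H308.AL.Stm

/-! # Norm inequality for the powers of the Aluthge transform -/

set_option autoImplicit false

open Filter Topology

noncomputable section

namespace Pool.Agent.H282.AL

open Pool.Agent.H308.AL

/-- the norm of a self-adjoint product `P Q` is at most the norm of `Q P` -/
theorem norm_mul_swap {A : Type} [CStarAlgebra A] (P Q : A) (h : IsSelfAdjoint (P * Q)) :
    ‖P * Q‖ ≤ ‖Q * P‖ := by
  rcases subsingleton_or_nontrivial A with hA | hA
  · have h0 : P * Q = 0 := Subsingleton.elim _ _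
    rw [h0, norm_zero]
    exact norm_nonneg _
  have h1 := h.spectralRadius_eq_nnnorm
  have h2 : spectralRadius ℂ (P * Q) ≤ ‖Q * P‖₊ := by
    unfold spectralRadius
    refine iSup₂_le fun k hk => ?_
    by_cases hk0 : k = 0
    · rw [hk0, nnnorm_zero]
      exact zero_le
    · have h3 : k ∈ spectrum ℂ (P * Q) \ {0} := ⟨hk, hk0⟩
      rw [spectrum.nonzero_mul_comm] at h3
      have h4 := spectrum.norm_le_norm_of_mem h3.1
      exact_mod_cast h4
  rw [h1] at h2
  exact_mod_cast h2

theorem hnz (h1 : S_ALU) (h2 : S_BAS) : S_HNZ := by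
  intro H _ _ _ T hT k
  rcases k with _ | k
  · rw [pow_zero, pow_zero]
  obtain ⟨_, _, _, _, U, hU, hUB, hal⟩ := h1 H T hT
  obtain ⟨hB0, hh0, _, hhh, hBn, _⟩ := h2 H T
  set B := ab T with hBdef
  set h := hf T with hhdef
  have hsB : star B = B := (IsSelfAdjoint.of_nonneg hB0).star_eq
  have hsh : star h = h := (IsSelfAdjoint.of_nonneg hh0).star_eq
  have hpow : ∀ j : ℕ, (al T) ^ (j + 1) = h * (T ^ j * U) * h := by
    intro j
    induction j with
    | zero => rw [zero_add, pow_one, pow_zero, one_mul, hal]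
    | succ j ih =>
      rw [pow_succ, ih, hal, pow_succ T j]
      calc h * (T ^ j * U) * h * (h * U * h) = h * (T ^ j * (U * (h * h)) * U) * h := by
            simp only [mul_assoc]
        _ = h * (T ^ j * T * U) * h := by rw [hhh, hUB]
  set Y := T ^ k * U with hY
  have hYB : Y * B = T ^ (k + 1) := by
    rw [hY, mul_assoc, hUB, pow_succ]
  have hUn : ∀ x, ‖U x‖ = ‖x‖ := by
    intro x
    have e1 : inner ℂ (U x) (U x) = inner ℂ x x := by
      rw [← ContinuousLinearMap.adjoint_inner_right]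
      have e2 : (ContinuousLinearMap.adjoint U) (U x) = x := by
        have := congrArg (fun V : H →L[ℂ] H => V x) hU
        exact this
      rw [e2]
    rw [inner_self_eq_norm_sq_to_K, inner_self_eq_norm_sq_to_K] at e1
    have e3 : ‖U x‖ ^ 2 = ‖x‖ ^ 2 := by exact_mod_cast e1
    exact (pow_left_inj₀ (norm_nonneg _) (norm_nonneg _) two_ne_zero).1 e3
  have hBY : ‖B * Y‖ ≤ ‖T ^ (k + 1)‖ := by
    refine ContinuousLinearMap.opNorm_le_bound _ (norm_nonneg _) fun x => ?_
    have e1 : ‖(B * Y) x‖ = ‖(T ^ (k + 1)) (U x)‖ := by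
      show ‖B (Y x)‖ = _
      rw [hBn, hY, pow_succ']
      rfl
    rw [e1]
    refine (ContinuousLinearMap.le_opNorm _ _).trans ?_
    rw [hUn]
  have hW : star (h * Y * h) * (h * Y * h) = h * (star Y * B * Y * h) := by
    simp only [star_mul, hsh]
    rw [← hhh]
    simp only [mul_assoc]
  have hsa : IsSelfAdjoint (h * (star Y * B * Y * h)) := by
    rw [← hW]
    exact IsSelfAdjoint.star_mul_self _
  have e1 := norm_mul_swap h (star Y * B * Y * h) hsa
  have e2 : star Y * B * Y * h * h = star (B * Y) * (Y * B) := by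
    rw [star_mul B Y, hsB, mul_assoc _ h h, hhh]
    simp only [mul_assoc]
  rw [e2, ← hW, CStarRing.norm_star_mul_self] at e1
  have e3 : ‖star (B * Y) * (Y * B)‖ ≤ ‖T ^ (k + 1)‖ * ‖T ^ (k + 1)‖ := by
    refine (norm_mul_le _ _).trans ?_
    rw [norm_star, hYB]
    exact mul_le_mul_of_nonneg_right hBY (norm_nonneg _)
  rw [hpow k]
  exact abs_le_of_sq_le_sq' (by nlinarith) (norm_nonneg _) |>.2

end Pool.Agent.H282.AL
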