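import Pool.Agent.H308.AL.Stm

/-!
# Intertwining relations and the functional calculus
-/

set_option autoImplicit false

open Filter Topology Polynomial

noncomputable section

namespace Pool.Agent.H603.AL

open Pool.Agent.H308.AL

variable {H : Type} [NormedAddCommGroup H] [InnerProductSpace ℂ H] [CompleteSpace H]

omit [CompleteSpace H] in
theorem aeval_mul (X Y W : H →L[ℂ] H) (h : X * W = W * Y) (p : ℝ[X]) :
    aeval X p * W = W * aeval Y p := by
  induction p using Polynomial.induction_on' with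
  | add p q hp hq => rw [map_add, map_add, add_mul, mul_add, hp, hq]
  | monomial n a =>
    have h1 : ∀ n : ℕ, X ^ n * W = W * Y ^ n := by
      intro n
      induction n with
      | zero => simp
      | succ n ih => rw [pow_succ, mul_assoc, h, ← mul_assoc, ih, mul_assoc, ← pow_succ]
    rw [aeval_monomial, aeval_monomial, mul_assoc, h1, ← mul_assoc, ← mul_assoc,
      Algebra.commutes a W]

theorem int : S_INT := by
  intro H _ _ _ X Y W f hX hY hf hXY
  rw [← sub_eq_zero, ← norm_le_zero_iff]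
  refine le_of_forall_pos_le_add fun ε hε => ?_
  set δ : ℝ := ε / (2 * (‖W‖ + 1)) with hδ
  have hδ0 : 0 < δ := by positivity
  set M : ℝ := max (‖X‖ * ‖(1 : H →L[ℂ] H)‖) (‖Y‖ * ‖(1 : H →L[ℂ] H)‖) with hM
  obtain ⟨p, hp⟩ := exists_polynomial_near_of_continuousOn (-M) M f hf.continuousOn δ hδ0
  have key : ∀ Z : H →L[ℂ] H, IsSelfAdjoint Z → ‖Z‖ * ‖(1 : H →L[ℂ] H)‖ ≤ M →
      ‖cfc f Z - aeval Z p‖ ≤ δ := by
    intro Z hZ hZM
    rw [← cfc_polynomial p Z hZ, ← cfc_sub f p.eval Z hf.continuousOn p.continuous.continuousOn]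
    refine norm_cfc_le hδ0.le fun x hx => ?_
    have h1 := spectrum.norm_le_norm_mul_of_mem hx
    rw [Real.norm_eq_abs] at h1
    have h2 : x ∈ Set.Icc (-M) M := abs_le.1 (h1.trans hZM)
    rw [Real.norm_eq_abs, abs_sub_comm]
    exact (hp x h2).le
  have h1 := key X hX (le_max_left _ _)
  have h2 := key Y hY (le_max_right _ _)
  have h3 : cfc f X * W - W * cfc f Y =
      (cfc f X - aeval X p) * W - W * (cfc f Y - aeval Y p) := by
    rw [sub_mul, mul_sub, aeval_mul X Y W hXY p]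
    abel
  rw [h3]
  calc ‖(cfc f X - aeval X p) * W - W * (cfc f Y - aeval Y p)‖
      ≤ ‖(cfc f X - aeval X p) * W‖ + ‖W * (cfc f Y - aeval Y p)‖ := norm_sub_le _ _
    _ ≤ ‖cfc f X - aeval X p‖ * ‖W‖ + ‖W‖ * ‖cfc f Y - aeval Y p‖ :=
        add_le_add (norm_mul_le _ _) (norm_mul_le _ _)
    _ ≤ δ * ‖W‖ + ‖W‖ * δ := by gcongr
    _ ≤ 0 + ε := by
        have h4 : δ * (2 * (‖W‖ + 1)) = ε := by rw [hδ]; field_simp
        nlinarith [norm_nonneg W]

end Pool.Agent.H603.AL
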