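import Pool.Agent.H308.AL.Stm

set_option autoImplicit false

/-!
# MP_943409_an: intertwining of square roots and real powers
-/

noncomputable section

namespace Pool.Agent.H187.AL

open Pool.Agent.H308.AL

theorem int2 (h1 : S_INT) : S_INT2 := by
  intro H _ _ _ X Y W hX hY hXY
  have sX : IsSelfAdjoint X := IsSelfAdjoint.of_nonneg hX
  have sY : IsSelfAdjoint Y := IsSelfAdjoint.of_nonneg hY
  refine ⟨?_, fun r hr => ?_⟩
  · rw [CFC.sqrt_eq_real_sqrt X hX, CFC.sqrt_eq_real_sqrt Y hY, cfcₙ_eq_cfc, cfcₙ_eq_cfc]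
    exact h1 H X Y W Real.sqrt sX sY Real.continuous_sqrt hXY
  · rw [CFC.rpow_eq_cfc_real hX, CFC.rpow_eq_cfc_real hY]
    exact h1 H X Y W (fun x => x ^ r) sX sY (Real.continuous_rpow_const hr) hXY

end Pool.Agent.H187.AL
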