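import Pool.Agent.H308.AL.Stm

/-!
# Iterates of the pure model (task AL-ITP, helper922)
-/

set_option autoImplicit false
set_option linter.unusedVariables false

namespace Pool.Agent.H922.AL

open Pool.Agent.H308.AL

section

variable {H : Type} [NormedAddCommGroup H] [InnerProductSpace ℂ H] [CompleteSpace H]
variable {a : ℝ} {E : ℝ → H →L[ℂ] H} {U : H →L[ℂ] H}

theorem half_mul (hP : Pure a E U) {x c : ℝ} (hx : 0 ≤ x) (hc : 0 ≤ c) (hc1 : c < 1) :
    (((Real.sqrt x : ℝ) : ℂ) • E (c / 2)) * (((Real.sqrt x : ℝ) : ℂ) • E (c / 2)) =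
      ((x : ℝ) : ℂ) • E c := by
  rw [smul_mul_smul_comm, hP.add (c / 2) (c / 2) (by linarith) (by linarith) (by linarith),
    add_halves, ← Complex.ofReal_mul, Real.mul_self_sqrt hx]

theorem star_sm (hP : Pure a E U) {x c : ℝ} (hc : 0 ≤ c) (hc1 : c < 1) :
    star (((x : ℝ) : ℂ) • E c) = ((x : ℝ) : ℂ) • E c := by
  rw [star_smul, hP.sa c hc hc1, Complex.star_def, Complex.conj_ofReal]

theorem nn (hP : Pure a E U) {x c : ℝ} (hx : 0 ≤ x) (hc : 0 ≤ c) (hc1 : c < 1) :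
    0 ≤ ((x : ℝ) : ℂ) • E c := by
  rw [← half_mul hP hx hc hc1]
  have h := star_mul_self_nonneg (((Real.sqrt x : ℝ) : ℂ) • E (c / 2))
  rwa [star_sm hP (by linarith) (by linarith)] at h

theorem ab_eq (hP : Pure a E U) {l c : ℝ} (hl : 0 < l) (hc : 0 ≤ c) (hc1 : c < 1) :
    ab ((l : ℂ) • (U * E c)) = (l : ℂ) • E c := by
  unfold ab
  refine CFC.sqrt_unique ?_ (nn hP hl.le hc hc1)
  have h1 : (l : ℂ) • (U * E c) = U * ((l : ℂ) • E c) := by rw [mul_smul_comm]
  rw [h1, star_mul, star_sm hP hc hc1]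
  calc (l : ℂ) • E c * (l : ℂ) • E c = (l : ℂ) • E c * (1 * (l : ℂ) • E c) := by rw [one_mul]
    _ = _ := by rw [← hP.iso]; simp only [mul_assoc]

theorem hf_eq (hP : Pure a E U) {l c : ℝ} (hl : 0 < l) (hc : 0 ≤ c) (hc1 : c < 1) :
    hf ((l : ℂ) • (U * E c)) = ((Real.sqrt l : ℝ) : ℂ) • E (c / 2) := by
  unfold hf
  rw [ab_eq hP hl hc hc1]
  exact CFC.sqrt_unique (half_mul hP hl.le hc hc1)
    (nn hP (Real.sqrt_nonneg l) (by linarith) (by linarith))

theorem U_inj (hP : Pure a E U) : Function.Injective U := by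
  intro x y hxy
  have h1 : (star U * U) x = (star U * U) y := by
    show star U (U x) = star U (U y)
    rw [hxy]
  rwa [hP.iso] at h1

theorem V_inj (hP : Pure a E U) {l c : ℝ} (hl : 0 < l) (hc : 0 ≤ c) (hc1 : c < 1) :
    Function.Injective ((l : ℂ) • (U * E c)) := by
  intro x y hxy
  have hl' : (l : ℂ) ≠ 0 := by exact_mod_cast hl.ne'
  have h1 : (l : ℂ) • U (E c x) = (l : ℂ) • U (E c y) := hxy
  exact hP.inj c hc hc1 (U_inj hP (smul_right_injective _ hl' h1))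

theorem al_eq (h1 : S_ALU) (ha : 0 < a) (ha1 : a < 1) (hP : Pure a E U) {l c : ℝ} (hl : 0 < l)
    (hc : 0 ≤ c) (hc1 : c < 1) :
    al ((l : ℂ) • (U * E c)) = (l : ℂ) • (U * E (c * ((1 + a) / 2))) := by
  obtain ⟨-, huniq, -⟩ := h1 H ((l : ℂ) • (U * E c)) (V_inj hP hl hc hc1)
  symm
  apply huniq
  refine ⟨U, ⟨?_, ?_, ?_⟩, ?_⟩
  · rw [ab_eq hP hl hc hc1, mul_smul_comm]
  · rw [mul_assoc, hP.iso, mul_one]
  · intro x
    constructor
    · intro h
      have hx : x = 0 := U_inj hP (by rw [h, map_zero])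
      rw [hx, map_zero]
    · intro h
      have hx : x = 0 := V_inj hP hl hc hc1 (by rw [h, map_zero])
      rw [hx, map_zero]
  · rw [hf_eq hP hl hc hc1, smul_mul_assoc, hP.comm (c / 2) (by linarith) (by linarith),
      smul_mul_smul_comm, ← Complex.ofReal_mul, Real.mul_self_sqrt hl.le, mul_assoc,
      hP.add (a * (c / 2)) (c / 2) (by positivity) (by linarith) (by nlinarith)]
    congr 3
    ring

end

theorem itp (h1 : S_ALU) (h2 : S_BAS) : S_ITP := by
  intro H _ _ _ a l E U ha ha1 hl hP n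
  have hk : ∀ n : ℕ, 0 ≤ (1 - a) / 2 * ((1 + a) / 2) ^ n ∧
      (1 - a) / 2 * ((1 + a) / 2) ^ n < 1 := by
    intro n
    have h3 : (0 : ℝ) ≤ ((1 + a) / 2) ^ n := pow_nonneg (by linarith) n
    have h4 : ((1 + a) / 2) ^ n ≤ 1 := pow_le_one₀ (by linarith) (by linarith)
    constructor
    · exact mul_nonneg (by linarith) h3
    · nlinarith
  induction n with
  | zero =>
    show (l : ℂ) • (U * E ((1 - a) / 2)) = _
    rw [pow_zero, mul_one]
  | succ n ih =>
    unfold it at ih ⊢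
    rw [Function.iterate_succ_apply', ih, al_eq h1 ha ha1 hP hl (hk n).1 (hk n).2, pow_succ,
      mul_assoc]

end Pool.Agent.H922.AL
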