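import Pool.Agent.H308.AL.Stm

/-!
# Identities for `E c` and `R a` on kernel vectors (for helper308, AL)
-/

set_option autoImplicit false

open Filter Topology

noncomputable section

namespace Pool.Agent.H726.AL

open Pool.Agent.H308.AL

/-- kernel vectors, `w = 1 - 1 / v` -/
def kk (v : ℝ) : L2 := kv (1 - 1 / v)

theorem w_nonneg {v : ℝ} (hv : 1 ≤ v) : 0 ≤ 1 - 1 / v := by
  have : 1 / v ≤ 1 := by rw [div_le_one (by linarith)]; exact hv
  linarith

theorem w_lt {v : ℝ} (hv : 1 ≤ v) : 1 - 1 / v < 1 := by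
  have : 0 < 1 / v := by positivity
  linarith

theorem tot (h1 : S_TOT) {A B : L2 →L[ℂ] L2} (h : ∀ v : ℝ, 1 ≤ v → A (kk v) = B (kk v)) :
    A = B := by
  apply h1
  intro w hw hw1
  have hp : 0 < 1 - w := by linarith
  have h2 := h (1 / (1 - w)) (by rw [le_div_iff₀ hp]; linarith)
  unfold kk at h2
  rw [one_div_one_div, sub_sub_cancel] at h2
  exact h2

theorem R_kk (h2 : S_KV1) {a v : ℝ} (ha : 0 < a) (ha1 : a ≤ 1) (hv : 1 ≤ v) :
    R a (kk v) = (a : ℂ) • kk (v / a) := by
  unfold kk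
  rw [h2.2 a _ ha ha1 (w_nonneg hv) (w_lt hv)]
  have hv0 : v ≠ 0 := by linarith
  have e : a * (1 - 1 / v) + 1 - a = 1 - 1 / (v / a) := by
    field_simp
    ring
  rw [e]

theorem Rs_kk (h3 : S_KV2) {a v : ℝ} (ha : 0 < a) (ha1 : a ≤ 1) (hv : 1 ≤ v) :
    star (R a) (kk v) = ((a * v / (a * v + 1 - a) : ℝ) : ℂ) • kk (a * v + 1 - a) := by
  unfold kk
  rw [h3 a _ ha ha1 (w_nonneg hv) (w_lt hv)]
  have hv0 : 0 < v := by linarith
  have hp : 0 < a * v + 1 - a := by nlinarith
  have e1 : 1 - (1 - a) * (1 - 1 / v) = (a * v + 1 - a) / v := by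
    field_simp
    ring
  have e2 : a / ((a * v + 1 - a) / v) = a * v / (a * v + 1 - a) := by
    field_simp
  have e3 : a * (1 - 1 / v) / ((a * v + 1 - a) / v) = 1 - 1 / (a * v + 1 - a) := by
    field_simp
    ring
  rw [e1, e2, e3]

theorem E_kk (h2 : S_KV1) (h3 : S_KV2) {c v : ℝ} (hc : 0 ≤ c) (hc1 : c < 1) (hv : 1 ≤ v) :
    E c (kk v) = ((v / (v + c) : ℝ) : ℂ) • kk (v + c) := by
  have hp : 0 < 1 - c := by linarith
  have hv' : 1 ≤ v / (1 - c) := by rw [le_div_iff₀ hp]; linarith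
  have e1 : (1 - c) * (v / (1 - c)) = v := by field_simp
  unfold E
  show ((1 / (1 - c) : ℝ) : ℂ) • (star (R (1 - c)) (R (1 - c) (kk v))) = _
  rw [R_kk h2 hp (by linarith) hv, map_smul, Rs_kk h3 hp (by linarith) hv', e1, smul_smul,
    smul_smul, ← Complex.ofReal_mul, ← Complex.ofReal_mul]
  have e2 : v + 1 - (1 - c) = v + c := by ring
  rw [e2]
  congr 2
  field_simp

theorem ker (h1 : S_TOT) (h2 : S_KV1) (h3 : S_KV2) : S_KER := by
  refine ⟨?_, ?_, ?_⟩
  · intro c d hc hd hcd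
    apply tot h1
    intro v hv
    show E c (E d (kk v)) = E (c + d) (kk v)
    rw [E_kk h2 h3 hd (by linarith) hv, map_smul, E_kk h2 h3 hc (by linarith) (by linarith),
      E_kk h2 h3 (by linarith) hcd hv, smul_smul, ← Complex.ofReal_mul]
    have e1 : v + d + c = v + (c + d) := by ring
    have h4 : 0 < v + d := by linarith
    have h5 : 0 < v + (c + d) := by linarith
    rw [e1]
    congr 2
    field_simp
  · intro a c ha ha1 hc hc1
    have hac : a * c < 1 := by nlinarith
    have hac0 : 0 ≤ a * c := by positivity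
    apply tot h1
    intro v hv
    have hv' : 1 ≤ v / a := by rw [le_div_iff₀ ha]; linarith
    show E c (R a (kk v)) = R a (E (a * c) (kk v))
    rw [R_kk h2 ha ha1 hv, map_smul, E_kk h2 h3 hc hc1 hv', E_kk h2 h3 hac0 hac hv, map_smul,
      R_kk h2 ha ha1 (by linarith), smul_smul, smul_smul, ← Complex.ofReal_mul,
      ← Complex.ofReal_mul]
    have h5 : 0 < v + a * c := by linarith
    have e1 : v / a + c = (v + a * c) / a := by field_simp
    rw [e1]
    congr 2
    field_simp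
  · intro a ha ha1
    have ha0 : 0 < a := by linarith
    have hc0 : 0 ≤ (1 - a) / a := div_nonneg (by linarith) ha0.le
    have hc1 : (1 - a) / a < 1 := by rw [div_lt_one ha0]; linarith
    apply tot h1
    intro v hv
    have hp : 1 ≤ a * v + 1 - a := by nlinarith
    show R a (star (R a) (kk v)) = (a : ℂ) • E ((1 - a) / a) (kk v)
    rw [Rs_kk h3 ha0 ha1 hv, map_smul, R_kk h2 ha0 ha1 hp, E_kk h2 h3 hc0 hc1 hv, smul_smul,
      smul_smul, ← Complex.ofReal_mul, ← Complex.ofReal_mul]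
    have e1 : v + (1 - a) / a = (a * v + 1 - a) / a := by
      field_simp
      ring
    rw [e1]
    congr 2
    field_simp

end Pool.Agent.H726.AL
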