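import Pool.Agent.H308.AL.Stm

/-!
# Kernel vectors and the operators `R a`
-/

set_option autoImplicit false

open Filter Topology

noncomputable section

namespace Pool.Agent.H729.AL

open Pool.Agent.H308.AL

theorem kv_mem (w : ℝ) (h0 : 0 ≤ w) (h1 : w < 1) :
    Memℓp (fun k : ℕ => ((w ^ k : ℝ) : ℂ)) 2 := by
  rw [memℓp_gen_iff (by norm_num)]
  have h2 : (fun k : ℕ => ‖((w ^ k : ℝ) : ℂ)‖ ^ (2 : ENNReal).toReal) = fun k => (w ^ 2) ^ k := by
    funext k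
    rw [Complex.norm_real, Real.norm_of_nonneg (pow_nonneg h0 k)]
    have : (2 : ENNReal).toReal = ((2 : ℕ) : ℝ) := by norm_num
    rw [this, Real.rpow_natCast, ← pow_mul, ← pow_mul, mul_comm]
  rw [h2]
  exact summable_geometric_of_lt_one (by positivity) (by nlinarith)

theorem kv_coord (w : ℝ) (k : ℕ) (h0 : 0 ≤ w) (h1 : w < 1) :
    (kv w) k = ((w ^ k : ℝ) : ℂ) := by
  unfold kv
  rw [dif_pos (kv_mem w h0 h1)]

theorem kv1 (h1 : S_TWB) : S_KV1 := by
  refine ⟨kv_coord, ?_⟩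
  intro a w ha ha1 hw hw1
  obtain ⟨hmat, -, -⟩ := h1 a (fun _ => 1) ha ha1 (fun _ => one_pos) (fun _ _ _ => le_refl _)
  have hv0 : 0 ≤ a * w + 1 - a := by nlinarith
  have hv1 : a * w + 1 - a < 1 := by nlinarith
  ext j
  have h2 := hmat (kv w) j
  have h3 : (R a (kv w)) j = ∑ k ∈ Finset.range (j + 1), (tw a (fun _ => 1) j k : ℂ) * (kv w) k := h2
  rw [h3]
  have h4 : ((a : ℂ) • kv (a * w + 1 - a)) j = (a : ℂ) * (((a * w + 1 - a) ^ j : ℝ) : ℂ) := by
    rw [← kv_coord _ j hv0 hv1]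
    rfl
  rw [h4]
  have h5 : ∀ k ∈ Finset.range (j + 1), (tw a (fun _ => 1) j k : ℂ) * (kv w) k =
      ((a * ((a * w) ^ k * (1 - a) ^ (j - k) * (j.choose k)) : ℝ) : ℂ) := by
    intro k _
    rw [kv_coord _ k hw hw1]
    unfold tw t
    rw [← Complex.ofReal_mul]
    congr 1
    rw [mul_pow]
    ring
  rw [Finset.sum_congr rfl h5, ← Complex.ofReal_sum, ← Finset.mul_sum, ← Complex.ofReal_mul]
  congr 2
  rw [← add_pow]
  congr 1
  ring

end Pool.Agent.H729.AL
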