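import Pool.Agent.H308.AL.Stm

/-!
# The adjoint of `R a` on kernel vectors
-/

set_option autoImplicit false

open Filter Topology

noncomputable section

namespace Pool.Agent.H553.AL

open Pool.Agent.H308.AL

/-- the matrix entries of `R a` on the basis vectors -/
lemma R_single (h1 : S_TWB) (a : ℝ) (ha : 0 < a) (ha1 : a ≤ 1) (j k : ℕ) :
    (R a (lp.single 2 k (1 : ℂ) : L2)) j = ((t a j k : ℝ) : ℂ) := by
  have h := (h1 a (fun _ => 1) ha ha1 (fun _ => one_pos) (fun _ _ _ => le_refl _)).1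
  have h2 := h (lp.single 2 k (1 : ℂ) : L2) j
  show (T a (fun _ => 1) (lp.single 2 k (1 : ℂ) : L2)) j = _
  rw [h2]
  by_cases hk : k ≤ j
  · rw [Finset.sum_eq_single k]
    · rw [lp.single_apply_self]
      simp [tw]
    · intro i _ hik
      rw [lp.single_apply_ne _ _ _ hik]
      simp
    · intro hn
      exact absurd (Finset.mem_range.mpr (Nat.lt_succ_of_le hk)) hn
  · push Not at hk
    have ht : t a j k = 0 := by
      simp [t, Nat.choose_eq_zero_of_lt hk]
    rw [ht]
    rw [Finset.sum_eq_zero]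
    · simp
    · intro i hi
      have hi' := Finset.mem_range.mp hi
      rw [lp.single_apply_ne _ _ _ (by omega)]
      simp

/-- the sum of the column with the weights `w ^ j` -/
lemma col_sum (a w : ℝ) (ha : 0 < a) (ha1 : a ≤ 1) (hw : 0 ≤ w) (hw1 : w < 1) (k : ℕ) :
    HasSum (fun j : ℕ => t a j k * w ^ j)
      (a / (1 - (1 - a) * w) * (a * w / (1 - (1 - a) * w)) ^ k) := by
  have hr : ‖(1 - a) * w‖ < 1 := by
    rw [Real.norm_eq_abs, abs_of_nonneg (mul_nonneg (by linarith) hw)]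
    nlinarith
  have h := hasSum_choose_mul_geometric_of_norm_lt_one (𝕜 := ℝ) k hr
  have h2 := h.mul_left (a ^ (k + 1) * w ^ k)
  have hpos : 0 < 1 - (1 - a) * w := by
    rw [Real.norm_eq_abs] at hr
    have := lt_of_abs_lt hr
    linarith
  rw [← hasSum_nat_add_iff' k]
  have e0 : ∑ i ∈ Finset.range k, t a i k * w ^ i = 0 := by
    apply Finset.sum_eq_zero
    intro i hi
    have hi' := Finset.mem_range.mp hi
    simp [t, Nat.choose_eq_zero_of_lt hi']
  rw [e0, sub_zero]
  have e1 : a ^ (k + 1) * w ^ k * (1 / (1 - (1 - a) * w) ^ (k + 1)) =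
      a / (1 - (1 - a) * w) * (a * w / (1 - (1 - a) * w)) ^ k := by
    rw [div_pow, mul_pow]
    field_simp
    ring
  rw [← e1]
  refine h2.congr_fun ?_
  intro n
  simp only [t, Nat.add_sub_cancel]
  rw [mul_pow, pow_add w n k]
  ring

theorem kv2 (h1 : S_TWB) (h2 : S_KV1) : S_KV2 := by
  intro a w ha ha1 hw hw1
  have hpos : 0 < 1 - (1 - a) * w := by nlinarith
  have hw'0 : 0 ≤ a * w / (1 - (1 - a) * w) := by positivity
  have hw'1 : a * w / (1 - (1 - a) * w) < 1 := by
    rw [div_lt_one hpos]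
    nlinarith
  apply lp.ext
  funext k
  have hk : (star (R a) (kv w) : L2) k =
      inner ℂ (lp.single 2 k (1 : ℂ) : L2) (star (R a) (kv w)) := by
    rw [lp.inner_single_left]
    simp
  have hadj : inner ℂ (lp.single 2 k (1 : ℂ) : L2) (star (R a) (kv w)) =
      inner ℂ (R a (lp.single 2 k (1 : ℂ) : L2)) (kv w) := by
    rw [ContinuousLinearMap.star_eq_adjoint, ContinuousLinearMap.adjoint_inner_right]
  have hs := lp.hasSum_inner (𝕜 := ℂ) (R a (lp.single 2 k (1 : ℂ) : L2)) (kv w)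
  have hc := col_sum a w ha ha1 hw hw1 k
  have hc' := Complex.hasSum_ofReal.mpr hc
  have hfun : (fun j => inner ℂ ((R a (lp.single 2 k (1 : ℂ) : L2)) j) ((kv w) j)) =
      fun j : ℕ => ((t a j k * w ^ j : ℝ) : ℂ) := by
    funext j
    rw [R_single h1 a ha ha1 j k, h2.1 w j hw hw1]
    simp [mul_comm]
  rw [hfun] at hs
  rw [hk, hadj, hs.unique hc']
  show _ = ((((a / (1 - (1 - a) * w) : ℝ) : ℂ) • kv (a * w / (1 - (1 - a) * w)) : L2)) k
  rw [lp.coeFn_smul, Pi.smul_apply, h2.1 _ k hw'0 hw'1]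
  push_cast
  rfl

end Pool.Agent.H553.AL
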