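import Pool.Agent.H308.AL.Stm

/-!
# AL-LOW: lower bound for the iterated Aluthge transforms (statement `S_LOW` of helper308)
-/

set_option autoImplicit false

open Filter Topology

namespace Pool.Agent.H658.AL

open Pool.Agent.H308.AL

section aux

variable {H : Type} [NormedAddCommGroup H] [InnerProductSpace ℂ H]

theorem coe_smul' (c : ℝ) (A : H →L[ℂ] H) : (c : ℂ) • A = c • A := Complex.coe_smul c A

variable [CompleteSpace H]

theorem smul_le {c : ℝ} (hc : 0 ≤ c) {A B : H →L[ℂ] H} (h : A ≤ B) :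
    (c : ℂ) • A ≤ (c : ℂ) • B := by
  rw [coe_smul', coe_smul']
  exact smul_le_smul_of_nonneg_left h hc

theorem smul_rpow {c : ℝ} (hc : 0 ≤ c) {A : H →L[ℂ] H} (hA : 0 ≤ A) {y : ℝ} (hy : 0 ≤ y) :
    ((c : ℂ) • A) ^ y = ((c ^ y : ℝ) : ℂ) • A ^ y := by
  rw [coe_smul', coe_smul']
  have hcA : 0 ≤ c • A := smul_nonneg hc hA
  have hcont : Continuous fun x : ℝ => x ^ y := Real.continuous_rpow_const hy
  have e1 : (c • A) ^ y = cfc (fun x : ℝ => x ^ y) (c • A) := CFC.rpow_eq_cfc_real hcA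
  have e2 : A ^ y = cfc (fun x : ℝ => x ^ y) A := CFC.rpow_eq_cfc_real hA
  have e3 : cfc (fun x : ℝ => (c * x) ^ y) A = cfc (fun x : ℝ => x ^ y) (c • A) :=
    cfc_comp_const_mul c (fun x : ℝ => x ^ y) A hcont.continuousOn (IsSelfAdjoint.of_nonneg hA)
  have e4 : cfc (fun x : ℝ => c ^ y * x ^ y) A = c ^ y • cfc (fun x : ℝ => x ^ y) A :=
    cfc_const_mul (c ^ y) (fun x : ℝ => x ^ y) A hcont.continuousOn
  have e5 : cfc (fun x : ℝ => (c * x) ^ y) A = cfc (fun x : ℝ => c ^ y * x ^ y) A := by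
    apply cfc_congr
    intro x hx
    have h0 := spectrum_nonneg_of_nonneg hA hx
    exact Real.mul_rpow hc h0
  rw [e1, ← e3, e5, e4, ← e2]

end aux

theorem low (h1 : S_STEP) (h2 : S_PW0) (h3 : S_ALU) (h4 : S_BAS) : S_LOW := by
  intro H _ _ _ T q K hT hq0 hq1 hK hle
  -- the first inequality
  set M : ℝ := Real.sqrt K with hM
  have hM1 : 1 ≤ M := Real.one_le_sqrt.2 hK
  have hM0 : 0 ≤ M := by linarith
  have hTT : 0 ≤ T * star T := mul_star_self_nonneg T
  have hTT' : 0 ≤ star T * T := star_mul_self_nonneg T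
  have hstart : (ab (star T)) ^ q ≤ (M : ℂ) • ab T := by
    have a1 : CFC.sqrt ((T * star T) ^ q) ≤ CFC.sqrt ((K : ℂ) • (star T * T)) :=
      CFC.sqrt_le_sqrt _ _ hle
    have a2 : CFC.sqrt ((T * star T) ^ q) = (ab (star T)) ^ q := by
      unfold ab
      rw [star_star, CFC.sqrt_eq_rpow, CFC.sqrt_eq_rpow,
        CFC.rpow_rpow_of_exponent_nonneg (T * star T) q (1 / 2) hq0.le (by norm_num) hTT,
        CFC.rpow_rpow_of_exponent_nonneg (T * star T) (1 / 2) q (by norm_num) hq0.le hTT,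
        mul_comm]
    have a3 : CFC.sqrt ((K : ℂ) • (star T * T)) = (M : ℂ) • ab T := by
      unfold ab
      rw [CFC.sqrt_eq_rpow, CFC.sqrt_eq_rpow,
        smul_rpow (by linarith) hTT' (by norm_num : (0 : ℝ) ≤ 1 / 2), hM, Real.sqrt_eq_rpow]
    rw [a2, a3] at a1
    exact a1
  -- all iterates
  have hsucc : ∀ n, it T (n + 1) = al (it T n) := fun n => Function.iterate_succ_apply' al n T
  have hall : ∀ n, Function.Injective (it T n) ∧
      (ab (star (it T n))) ^ q ≤ (M : ℂ) • ab (it T n) := by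
    intro n
    induction n with
    | zero => exact ⟨hT, hstart⟩
    | succ n ih =>
      rw [hsucc]
      exact ⟨(h3 H (it T n) ih.1).2.2.1, (h1 H (it T n) q M ih.1 hq0 hq1 hM1 ih.2).1⟩
  set η : ℝ := (1 + q) / 2 with hη
  have hη0 : 0 < η := by rw [hη]; linarith
  have hη1 : η < 1 := by rw [hη]; linarith
  set m : ℝ := Real.sqrt M with hm
  have hm1 : 1 ≤ m := Real.one_le_sqrt.2 hM1
  have hm0 : 0 < m := by linarith
  have hstep : ∀ n, (ab (it T n)) ^ η ≤ (m : ℂ) • ab (it T (n + 1)) := by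
    intro n
    rw [hsucc]
    exact (h1 H (it T n) q M (hall n).1 hq0 hq1 hM1 (hall n).2).2
  have hpos : ∀ n, 0 ≤ ab (it T n) := fun n => (h4 H (it T n)).1
  have hB : 0 ≤ ab T := (h4 H T).1
  set c : ℝ := m ^ (-(1 / (1 - η))) with hc
  have hc0 : 0 < c := Real.rpow_pos_of_pos hm0 _
  have hc1 : c ≤ 1 := by
    apply Real.rpow_le_one_of_one_le_of_nonpos hm1
    have : 0 < 1 / (1 - η) := by apply div_pos one_pos; linarith
    linarith
  have hcη : c ^ η / m = c := by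
    have h5 : (1 - η) ≠ 0 := by
      intro h0; linarith
    have h6 : c ^ η / m = m ^ (-(1 / (1 - η)) * η - 1) := by
      rw [Real.rpow_sub hm0, Real.rpow_one, Real.rpow_mul hm0.le, ← hc]
    rw [h6, hc]
    congr 1
    field_simp
    ring
  have hlow : ∀ n : ℕ, (c : ℂ) • (ab T) ^ (η ^ n : ℝ) ≤ ab (it T n) := by
    intro n
    induction n with
    | zero =>
      rw [pow_zero, CFC.rpow_one (ab T) hB, coe_smul']
      have h5 : c • ab T ≤ (1 : ℝ) • ab T := smul_le_smul_of_nonneg_right hc1 hB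
      rw [one_smul] at h5
      exact h5
    | succ n ih =>
      have h5 : ((c : ℂ) • (ab T) ^ (η ^ n : ℝ)) ^ η ≤ (ab (it T n)) ^ η :=
        CFC.rpow_le_rpow ⟨hη0.le, hη1.le⟩ ih
      have h6 : ((c : ℂ) • (ab T) ^ (η ^ n : ℝ)) ^ η =
          ((c ^ η : ℝ) : ℂ) • (ab T) ^ (η ^ (n + 1) : ℝ) := by
        rw [smul_rpow hc0.le CFC.rpow_nonneg hη0.le,
          CFC.rpow_rpow_of_exponent_nonneg (ab T) (η ^ n) η (by positivity) hη0.le hB, pow_succ]
      rw [h6] at h5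
      have h7 := h5.trans (hstep n)
      have h8 := smul_le (c := m⁻¹) (by positivity) h7
      rw [smul_smul, smul_smul] at h8
      have h9 : ((m⁻¹ : ℝ) : ℂ) * ((c ^ η : ℝ) : ℂ) = (c : ℂ) := by
        rw [← Complex.ofReal_mul, mul_comm, ← div_eq_mul_inv, hcη]
      have h10 : ((m⁻¹ : ℝ) : ℂ) * (m : ℂ) = 1 := by
        rw [← Complex.ofReal_mul, inv_mul_cancel₀ hm0.ne', Complex.ofReal_one]
      rw [h9, h10, one_smul] at h8
      exact h8
  -- the conclusion
  refine ⟨c / 2, by positivity, fun x => ?_⟩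
  by_cases hx : x = 0
  · subst hx
    exact Eventually.of_forall fun n => by rw [norm_zero, mul_zero]; exact norm_nonneg _
  have hxn : 0 < ‖x‖ := norm_pos_iff.2 hx
  have hlim := h2 H (ab T) η hB ((h4 H T).2.2.2.2.2 hT).1 hη0 hη1 x
  have hinner : Tendsto (fun n : ℕ => RCLike.re (inner ℂ (((ab T) ^ (η ^ n : ℝ)) x) x)) atTop
      (𝓝 (‖x‖ ^ 2)) := by
    have h5 : Tendsto (fun n : ℕ => inner ℂ (((ab T) ^ (η ^ n : ℝ)) x) x) atTop
        (𝓝 (inner ℂ x x)) := hlim.inner tendsto_const_nhds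
    have h6 := (RCLike.continuous_re.tendsto (inner ℂ x x)).comp h5
    rw [inner_self_eq_norm_sq (𝕜 := ℂ) x] at h6
    exact h6
  have hev : ∀ᶠ n : ℕ in atTop, ‖x‖ ^ 2 / 2 < RCLike.re (inner ℂ (((ab T) ^ (η ^ n : ℝ)) x) x) :=
    hinner.eventually (lt_mem_nhds (by have : 0 < ‖x‖ ^ 2 := by positivity
                                       linarith))
  filter_upwards [hev] with n hn
  have h5 := (ContinuousLinearMap.le_def _ _).1 (hlow n)
  have h6 := h5.re_inner_nonneg_left x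
  rw [ContinuousLinearMap.sub_apply, inner_sub_left, map_sub, ContinuousLinearMap.smul_apply,
    inner_smul_left, Complex.conj_ofReal] at h6
  have h7 : RCLike.re ((c : ℂ) * inner ℂ (((ab T) ^ (η ^ n : ℝ)) x) x) =
      c * RCLike.re (inner ℂ (((ab T) ^ (η ^ n : ℝ)) x) x) := by
    exact Complex.re_ofReal_mul c _
  rw [h7] at h6
  have h8 : RCLike.re (inner ℂ ((ab (it T n)) x) x) ≤ ‖it T n x‖ * ‖x‖ := by
    refine (RCLike.re_le_norm _).trans ?_
    refine (norm_inner_le_norm _ _).trans ?_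
    rw [(h4 H (it T n)).2.2.2.2.1 x]
  have h9 : c / 2 * ‖x‖ * ‖x‖ ≤ ‖it T n x‖ * ‖x‖ := by
    have h10 : c * (‖x‖ ^ 2 / 2) ≤ c * RCLike.re (inner ℂ (((ab T) ^ (η ^ n : ℝ)) x) x) :=
      mul_le_mul_of_nonneg_left hn.le hc0.le
    nlinarith
  exact le_of_mul_le_mul_right h9 hxn

end Pool.Agent.H658.AL
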