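import Pool.Agent.H308.AL.Stm

/-!
# The pure model (subtask AL-MOD, helper828)
-/

set_option autoImplicit false

open Filter Topology

noncomputable section

namespace Pool.Agent.H828.AL

open Pool.Agent.H308.AL

/-- facts on `R p` -/
theorem R_norm (h2 : S_TWB) (p : ℝ) (hp : 0 < p) (hp1 : p ≤ 1) : ‖R p‖ ≤ Real.sqrt p :=
  (h2 p (fun _ => 1) hp hp1 (fun _ => one_pos) (fun _ _ _ => le_refl _)).2.1

theorem R_inj (h2 : S_TWB) (p : ℝ) (hp : 0 < p) (hp1 : p ≤ 1) : Function.Injective (R p) :=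
  (h2 p (fun _ => 1) hp hp1 (fun _ => one_pos) (fun _ _ _ => le_refl _)).2.2

theorem R_one (h3 : S_TSG) : R 1 = 1 :=
  (h3 1 1 (fun _ => 1) one_pos le_rfl one_pos le_rfl (fun _ => one_pos)
    (fun _ _ _ => le_refl _)).2

theorem E_sa (c : ℝ) : star (E c) = E c := by
  unfold E
  rw [star_smul, star_mul, star_star]
  congr 1
  exact Complex.conj_ofReal _

theorem E_zero (h3 : S_TSG) : E 0 = 1 := by
  unfold E
  rw [sub_zero, R_one h3, star_one, mul_one]
  simp

theorem E_norm (h2 : S_TWB) (c : ℝ) (hc : 0 ≤ c) (hc1 : c < 1) : ‖E c‖ ≤ 1 := by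
  have hp : 0 < 1 - c := by linarith
  have hR := R_norm h2 (1 - c) hp (by linarith)
  unfold E
  rw [norm_smul, Complex.norm_real, Real.norm_eq_abs, abs_of_pos (by positivity)]
  have hst : ‖star (R (1 - c))‖ = ‖R (1 - c)‖ := by
    rw [ContinuousLinearMap.star_eq_adjoint]
    exact LinearIsometryEquiv.norm_map _ _
  have h1 : ‖star (R (1 - c)) * R (1 - c)‖ ≤ 1 - c := by
    calc ‖star (R (1 - c)) * R (1 - c)‖ ≤ ‖star (R (1 - c))‖ * ‖R (1 - c)‖ := norm_mul_le _ _
      _ = ‖R (1 - c)‖ * ‖R (1 - c)‖ := by rw [hst]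
      _ ≤ Real.sqrt (1 - c) * Real.sqrt (1 - c) :=
        mul_le_mul hR hR (norm_nonneg _) (Real.sqrt_nonneg _)
      _ = 1 - c := Real.mul_self_sqrt hp.le
  calc 1 / (1 - c) * ‖star (R (1 - c)) * R (1 - c)‖ ≤ 1 / (1 - c) * (1 - c) :=
        mul_le_mul_of_nonneg_left h1 (by positivity)
    _ = 1 := by field_simp

theorem star_mul_self_inner (A : L2 →L[ℂ] L2) (x : L2) :
    inner ℂ ((star A * A) x) x = (‖A x‖ : ℂ) ^ 2 := by
  have h : (star A * A) x = ContinuousLinearMap.adjoint A (A x) := rfl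
  rw [h, ContinuousLinearMap.adjoint_inner_left, inner_self_eq_norm_sq_to_K]
  rfl

theorem inj_of_star_mul (A : L2 →L[ℂ] L2) (hA : Function.Injective A) :
    Function.Injective (star A * A) := by
  rw [injective_iff_map_eq_zero]
  intro x hx
  have h := star_mul_self_inner A x
  rw [hx, inner_zero_left] at h
  have h2 : ‖A x‖ = 0 := by
    have : ((‖A x‖ : ℂ)) = 0 := by
      exact pow_eq_zero_iff (two_ne_zero) |>.1 h.symm
    exact_mod_cast this
  have h3 : A x = 0 := norm_eq_zero.1 h2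
  exact hA (by rw [h3, map_zero])

theorem E_inj (h2 : S_TWB) (c : ℝ) (hc : 0 ≤ c) (hc1 : c < 1) : Function.Injective (E c) := by
  have hp : 0 < 1 - c := by linarith
  have h := inj_of_star_mul (R (1 - c)) (R_inj h2 (1 - c) hp (by linarith))
  have hne : ((1 / (1 - c) : ℝ) : ℂ) ≠ 0 := by
    rw [Complex.ofReal_ne_zero]
    positivity
  intro x y hxy
  have h1 : ((1 / (1 - c) : ℝ) : ℂ) • ((star (R (1 - c)) * R (1 - c)) x) =
    ((1 / (1 - c) : ℝ) : ℂ) • ((star (R (1 - c)) * R (1 - c)) y) := hxy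
  exact h (smul_right_injective L2 hne h1)

/-- injective self-adjoint operators have dense range -/
theorem dense_of_sa (A : L2 →L[ℂ] L2) (hs : star A = A) (hA : Function.Injective A) :
    DenseRange A := by
  have h1 : (LinearMap.range (A : L2 →ₗ[ℂ] L2))ᗮ = ⊥ := by
    rw [ContinuousLinearMap.orthogonal_range]
    have : ContinuousLinearMap.adjoint A = A := hs
    rw [this]
    exact LinearMap.ker_eq_bot.2 hA
  have h2 : (LinearMap.range (A : L2 →ₗ[ℂ] L2)).topologicalClosure = ⊤ :=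
    Submodule.topologicalClosure_eq_top_iff.2 h1
  have h3 : Dense ((LinearMap.range (A : L2 →ₗ[ℂ] L2) : Submodule ℂ L2) : Set L2) :=
    (Submodule.dense_iff_topologicalClosure_eq_top).2 h2
  intro x
  have := h3 x
  have e : ((LinearMap.range (A : L2 →ₗ[ℂ] L2) : Submodule ℂ L2) : Set L2) = Set.range A := by
    ext y
    rfl
  rwa [e] at this

theorem mod (h1 : S_KER) (h2 : S_TWB) (h3 : S_TSG) (h4 : S_DGL) : S_MOD := by
  intro a ha ha1
  obtain ⟨kadd, kcomm, -⟩ := h1
  have hE0 : 0 ≤ (1 - a) / 2 := by linarith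
  have hE1 : (1 - a) / 2 < 1 := by linarith
  set B : L2 →L[ℂ] L2 := R a with hB
  set c₀ : ℝ := (1 - a) / 2 with hc₀
  set A : L2 →L[ℂ] L2 := ((Real.sqrt a : ℝ) : ℂ) • E c₀ with hAdef
  have hsq : Real.sqrt a * Real.sqrt a = a := Real.mul_self_sqrt ha.le
  have hspos : 0 < Real.sqrt a := Real.sqrt_pos.2 ha
  have hsne : ((Real.sqrt a : ℝ) : ℂ) ≠ 0 := by
    rw [Complex.ofReal_ne_zero]
    exact hspos.ne'
  have hAsa : star A = A := by
    rw [hAdef, star_smul, E_sa]
    congr 1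
    exact Complex.conj_ofReal _
  have hAinj : Function.Injective A := by
    intro x y hxy
    have h5 : ((Real.sqrt a : ℝ) : ℂ) • (E c₀ x) = ((Real.sqrt a : ℝ) : ℂ) • (E c₀ y) := hxy
    exact E_inj h2 c₀ hE0 hE1 (smul_right_injective L2 hsne h5)
  have hAd : DenseRange A := dense_of_sa A hAsa hAinj
  -- `A* A = B* B`
  have hAB : star A * A = star B * B := by
    have e1 : star A * A = ((Real.sqrt a : ℝ) : ℂ) • ((Real.sqrt a : ℝ) : ℂ) • (E c₀ * E c₀) := by
      rw [hAsa, hAdef, smul_mul_assoc, mul_smul_comm]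
    have e2 : E c₀ * E c₀ = E (1 - a) := by
      rw [kadd c₀ c₀ hE0 hE0 (by rw [hc₀]; linarith)]
      congr 1
      rw [hc₀]
      ring
    have e3 : E (1 - a) = ((1 / a : ℝ) : ℂ) • (star B * B) := by
      unfold E
      rw [sub_sub_cancel]
    rw [e1, e2, e3, smul_smul, smul_smul, ← Complex.ofReal_mul, ← Complex.ofReal_mul]
    have e4 : Real.sqrt a * (Real.sqrt a * (1 / a)) = 1 := by
      rw [← mul_assoc, hsq]
      field_simp
    rw [← mul_assoc] at e4
    rw [e4]
    simp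
  have hnorm : ∀ h : L2, ‖B h‖ = ‖A h‖ := by
    intro h
    have e5 := star_mul_self_inner A h
    have e6 := star_mul_self_inner B h
    rw [hAB, e6] at e5
    have e7 : ‖B h‖ ^ 2 = ‖A h‖ ^ 2 := by exact_mod_cast e5
    exact (pow_left_inj₀ (norm_nonneg _) (norm_nonneg _) two_ne_zero).1 e7
  obtain ⟨U, hU, -⟩ := h4 L2 A B 1 zero_le_one hAd (fun h => by rw [one_mul, hnorm])
  have hUA : ∀ h, U (A h) = B h := fun h => by
    rw [← hU]
    rfl
  have hUiso : ∀ y, ‖U y‖ = ‖y‖ := by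
    intro y
    refine hAd.induction_on (p := fun y => ‖U y‖ = ‖y‖) y ?_ ?_
    · exact isClosed_eq (U.continuous.norm) continuous_norm
    · intro h
      show ‖U (A h)‖ = ‖A h‖
      rw [hUA, hnorm]
  have hRU : B = ((Real.sqrt a : ℝ) : ℂ) • (U * E c₀) := by
    rw [← hU, hAdef, mul_smul_comm]
  refine ⟨U, ⟨?_, fun c _ _ => E_sa c, E_zero h3, kadd, E_norm h2, E_inj h2, ?_⟩, hRU⟩
  · exact (ContinuousLinearMap.norm_map_iff_adjoint_comp_self U).1 hUiso
  · intro c hc hc1
    have hac : 0 ≤ a * c := mul_nonneg ha.le hc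
    have hac1 : a * c < a := by nlinarith
    have hcomm : E (a * c) * E c₀ = E c₀ * E (a * c) := by
      rw [kadd (a * c) c₀ hac hE0 (by rw [hc₀]; linarith),
        kadd c₀ (a * c) hE0 hac (by rw [hc₀]; linarith), add_comm]
    have hk := kcomm a c ha ha1.le hc hc1
    have key : (E c * U) * A = (U * E (a * c)) * A := by
      have e8 : (E c * U) * A = E c * B := by rw [mul_assoc, hU]
      have e9 : (U * E (a * c)) * A = B * E (a * c) := by
        rw [mul_assoc]
        have : E (a * c) * A = A * E (a * c) := by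
          rw [hAdef, mul_smul_comm, hcomm, smul_mul_assoc]
        rw [this, ← mul_assoc, hU]
      rw [e8, e9]
      exact hk
    ext1 y
    refine hAd.induction_on (p := fun y => (E c * U) y = (U * E (a * c)) y) y ?_ ?_
    · exact isClosed_eq (E c * U).continuous (U * E (a * c)).continuous
    · intro h
      exact DFunLike.congr_fun key h

end Pool.Agent.H828.AL
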