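import Pool.Agent.H308.AL.Stm

/-!
# PHI for helper308's project AL (MP_943409_an)
-/

set_option autoImplicit false

open Filter Topology

noncomputable section

namespace Pool.Agent.H921.AL

open Pool.Agent.H308.AL

namespace PHIaux

/-- the matrix -/
def mm (a : ℝ) (b : ℕ → ℝ) (n k : ℕ) : ℝ :=
  (n.choose k) * a ^ k * (1 - a) ^ (n - k) * (bet b k / bet b n)

theorem bet_pos {b : ℕ → ℝ} (h : ∀ k, 0 < b k) (n : ℕ) : 0 < bet b n := by
  cases n with
  | zero => exact one_pos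
  | succ n => exact h n

theorem bet_low {b : ℕ → ℝ} (h0 : b 0 = 1)
    (h : ∀ j k : ℕ, k ≤ j → (((k : ℝ) + 1) / ((j : ℝ) + 1)) ^ 2 * b k ≤ b j) (n : ℕ) :
    1 / ((n : ℝ) + 1) ^ 2 ≤ bet b n := by
  cases n with
  | zero => simp [bet]
  | succ n =>
    have h1 := h n 0 (Nat.zero_le _)
    rw [h0] at h1
    have h2 : bet b (n + 1) = b n := rfl
    rw [h2]
    refine le_trans ?_ h1
    simp only [Nat.cast_zero, zero_add, mul_one, one_div, inv_pow]
    apply inv_anti₀ (by positivity)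
    apply pow_le_pow_left₀ (by positivity)
    push_cast
    linarith

theorem bet_ratio {b : ℕ → ℝ} (hb : ∀ k, 0 < b k) (h0 : b 0 = 1)
    (h : ∀ j k : ℕ, k ≤ j → (((k : ℝ) + 1) / ((j : ℝ) + 1)) ^ 2 * b k ≤ b j) {n k : ℕ} (hk : k ≤ n) :
    bet b k * (((k : ℝ) + 1) * (k + 2)) ≤ 8 * (((n : ℝ) + 1) * (n + 2)) * bet b n := by
  have hn0 : (0 : ℝ) ≤ n := Nat.cast_nonneg n
  have hk0 : (0 : ℝ) ≤ k := Nat.cast_nonneg k
  have hbn := bet_pos hb n
  cases k with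
  | zero =>
    have h1 := bet_low h0 h n
    rw [div_le_iff₀ (by positivity)] at h1
    have h2 : bet b 0 = 1 := rfl
    rw [h2]
    simp only [Nat.cast_zero]
    have h3 : bet b n * ((n : ℝ) + 1) ^ 2 ≤ bet b n * (((n : ℝ) + 1) * (n + 2)) := by
      apply mul_le_mul_of_nonneg_left _ hbn.le
      nlinarith
    nlinarith
  | succ k =>
    cases n with
    | zero => omega
    | succ n =>
      have h1 := h n k (by omega)
      have h2 : bet b (k + 1) = b k := rfl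
      have h3 : bet b (n + 1) = b n := rfl
      rw [h2, h3]
      rw [div_pow, div_mul_eq_mul_div, div_le_iff₀ (by positivity)] at h1
      have hbk := hb k
      have hbn' := hb n
      push_cast at hk0 hn0 ⊢
      have hk1 : (0 : ℝ) ≤ k := Nat.cast_nonneg k
      have hn1 : (0 : ℝ) ≤ n := Nat.cast_nonneg n
      have e1 : ((k : ℝ) + 1 + 1) * (k + 1 + 2) ≤ 6 * ((k : ℝ) + 1) ^ 2 := by nlinarith
      have e2 : ((n : ℝ) + 1) ^ 2 ≤ ((n : ℝ) + 1 + 1) * (n + 1 + 2) := by nlinarith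
      have e3 := mul_le_mul_of_nonneg_left e1 hbk.le
      have e4 := mul_le_mul_of_nonneg_left e2 hbn'.le
      nlinarith

theorem choose_id (n k : ℕ) :
    (n.choose k : ℝ) * (((n : ℝ) + 1) * (n + 2)) =
      ((n + 2).choose (k + 2) : ℝ) * (((k : ℝ) + 1) * (k + 2)) := by
  have h1 := Nat.add_one_mul_choose_eq n k
  have h2 := Nat.add_one_mul_choose_eq (n + 1) (k + 1)
  have h1' : ((n : ℝ) + 1) * n.choose k = ((n + 1).choose (k + 1) : ℝ) * (k + 1) := by exact_mod_cast h1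
  have h2' : ((n : ℝ) + 1 + 1) * (n + 1).choose (k + 1) = ((n + 2).choose (k + 2) : ℝ) * (k + 1 + 1) := by
    exact_mod_cast h2
  have e : (n.choose k : ℝ) * (((n : ℝ) + 1) * (n + 2)) =
      (((n : ℝ) + 1) * n.choose k) * (n + 2) := by ring
  rw [e, h1']
  have e2 : ((n + 1).choose (k + 1) : ℝ) * (k + 1) * (n + 2) =
      (((n : ℝ) + 1 + 1) * (n + 1).choose (k + 1)) * (k + 1) := by ring
  rw [e2, h2']
  ring

theorem mm_le {a : ℝ} {b : ℕ → ℝ} (ha : 0 < a) (ha1 : a < 1) (hb : ∀ k, 0 < b k) (h0 : b 0 = 1)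
    (h : ∀ j k : ℕ, k ≤ j → (((k : ℝ) + 1) / ((j : ℝ) + 1)) ^ 2 * b k ≤ b j) {n k : ℕ} (hk : k ≤ n) :
    mm a b n k ≤ 8 * (((n + 2).choose (k + 2) : ℝ) * a ^ k * (1 - a) ^ (n - k)) := by
  have hr := bet_ratio hb h0 h hk
  have hbn := bet_pos hb n
  have hkk : 0 < ((k : ℝ) + 1) * (k + 2) := by positivity
  have h1 : bet b k / bet b n ≤ 8 * (((n : ℝ) + 1) * (n + 2)) / (((k : ℝ) + 1) * (k + 2)) := by
    rw [div_le_div_iff₀ hbn hkk]
    exact hr
  have h2 : 0 ≤ (n.choose k : ℝ) * a ^ k * (1 - a) ^ (n - k) := by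
    have : 0 ≤ 1 - a := by linarith
    positivity
  unfold mm
  refine (mul_le_mul_of_nonneg_left h1 h2).trans (le_of_eq ?_)
  have h3 := choose_id n k
  have h4 : (n.choose k : ℝ) * (8 * (((n : ℝ) + 1) * (n + 2)) / (((k : ℝ) + 1) * (k + 2))) =
      8 * ((n + 2).choose (k + 2) : ℝ) := by
    rw [← mul_div_assoc, div_eq_iff hkk.ne']
    linarith
  calc (n.choose k : ℝ) * a ^ k * (1 - a) ^ (n - k) *
        (8 * (((n : ℝ) + 1) * (n + 2)) / (((k : ℝ) + 1) * (k + 2)))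
      = ((n.choose k : ℝ) * (8 * (((n : ℝ) + 1) * (n + 2)) / (((k : ℝ) + 1) * (k + 2)))) *
        (a ^ k * (1 - a) ^ (n - k)) := by ring
    _ = _ := by rw [h4]; ring

theorem row {a : ℝ} (ha : 0 < a) (ha1 : a < 1) (n : ℕ) :
    ∑ k ∈ Finset.range (n + 1), ((n + 2).choose (k + 2) : ℝ) * a ^ k * (1 - a) ^ (n - k) ≤ 1 / a ^ 2 := by
  rw [le_div_iff₀ (by positivity), Finset.sum_mul]
  have h1 : 0 ≤ 1 - a := by linarith
  have h2 := add_pow a (1 - a) (n + 2)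
  have h3 : a + (1 - a) = 1 := by ring
  rw [h3, one_pow, Finset.sum_range_succ', Finset.sum_range_succ'] at h2
  have h4 : ∑ k ∈ Finset.range (n + 1), ((n + 2).choose (k + 2) : ℝ) * a ^ k * (1 - a) ^ (n - k) * a ^ 2 =
      ∑ k ∈ Finset.range (n + 1), a ^ (k + 1 + 1) * (1 - a) ^ (n + 2 - (k + 1 + 1)) *
        ((n + 2).choose (k + 1 + 1) : ℝ) := by
    apply Finset.sum_congr rfl
    intro k _
    have : n + 2 - (k + 1 + 1) = n - k := by omega
    rw [this]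
    ring
  rw [h4]
  have h5 : 0 ≤ a ^ (0 + 1) * (1 - a) ^ (n + 2 - (0 + 1)) * ((n + 2).choose (0 + 1) : ℝ) := by positivity
  have h6 : 0 ≤ a ^ 0 * (1 - a) ^ (n + 2 - 0) * ((n + 2).choose 0 : ℝ) := by positivity
  linarith

theorem col {a : ℝ} (ha : 0 < a) (ha1 : a < 1) (k N : ℕ) :
    ∑ n ∈ Finset.Ico k N, ((n + 2).choose (k + 2) : ℝ) * a ^ k * (1 - a) ^ (n - k) ≤ 1 / a ^ 3 := by
  have h1 : 0 ≤ 1 - a := by linarith
  have hr : ‖(1 - a : ℝ)‖ < 1 := by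
    rw [Real.norm_eq_abs, abs_of_nonneg h1]
    linarith
  rw [Finset.sum_Ico_eq_sum_range]
  have h2 : ∑ i ∈ Finset.range (N - k), ((k + i + 2).choose (k + 2) : ℝ) * a ^ k * (1 - a) ^ (k + i - k) =
      a ^ k * ∑ i ∈ Finset.range (N - k), ((i + (k + 2)).choose (k + 2) : ℝ) * (1 - a) ^ i := by
    rw [Finset.mul_sum]
    apply Finset.sum_congr rfl
    intro i _
    have e1 : k + i + 2 = i + (k + 2) := by ring
    have e2 : k + i - k = i := by omega
    rw [e1, e2]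
    ring
  rw [h2]
  have hs := summable_choose_mul_geometric_of_norm_lt_one (k + 2) hr
  have ht := tsum_choose_mul_geometric_of_norm_lt_one (k + 2) hr
  have h3 : ∑ i ∈ Finset.range (N - k), ((i + (k + 2)).choose (k + 2) : ℝ) * (1 - a) ^ i ≤
      1 / a ^ (k + 3) := by
    have h4 := hs.sum_le_tsum (Finset.range (N - k)) (fun i _ => by positivity)
    rw [ht] at h4
    have e : 1 - (1 - a) = a := by ring
    rw [e] at h4
    exact h4
  refine (mul_le_mul_of_nonneg_left h3 (by positivity)).trans (le_of_eq ?_)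
  rw [pow_add]
  field_simp

/-- the vectors `k_z` -/
theorem mem_kz {b : ℕ → ℝ} (hb : ∀ k, 0 < b k) (h0 : b 0 = 1)
    (h : ∀ j k : ℕ, k ≤ j → (((k : ℝ) + 1) / ((j : ℝ) + 1)) ^ 2 * b k ≤ b j) {z : ℂ} (hz : ‖z‖ < 1) :
    Memℓp (fun j : ℕ => (starRingEnd ℂ z) ^ j / (bet b j : ℂ)) 2 := by
  apply memℓp_gen
  have h2 : (2 : ENNReal).toReal = ((2 : ℕ) : ℝ) := by norm_num
  rw [h2]
  simp only [Real.rpow_natCast]
  have hs1 := summable_pow_mul_geometric_of_norm_lt_one 4 (r := ‖z‖) (by simpa using hz)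
  have hs2 := summable_geometric_of_lt_one (norm_nonneg z) hz
  refine Summable.of_nonneg_of_le (fun j => by positivity) (fun j => ?_)
    ((hs1.add hs2).mul_left 16)
  have hp := bet_pos hb j
  have hl := bet_low h0 h j
  have e1 : ‖(starRingEnd ℂ z) ^ j / (bet b j : ℂ)‖ = ‖z‖ ^ j / bet b j := by
    rw [norm_div, norm_pow, Complex.norm_conj, Complex.norm_real, Real.norm_eq_abs, abs_of_pos hp]
  rw [e1]
  have e2 : ‖z‖ ^ j / bet b j ≤ ‖z‖ ^ j * ((j : ℝ) + 1) ^ 2 := by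
    rw [div_le_iff₀ hp]
    rw [div_le_iff₀ (by positivity)] at hl
    have := pow_nonneg (norm_nonneg z) j
    nlinarith
  have e3 : (‖z‖ ^ j / bet b j) ^ 2 ≤ (‖z‖ ^ j * ((j : ℝ) + 1) ^ 2) ^ 2 :=
    pow_le_pow_left₀ (by positivity) e2 2
  refine e3.trans ?_
  have e4 : (‖z‖ ^ j * ((j : ℝ) + 1) ^ 2) ^ 2 = ‖z‖ ^ j * ‖z‖ ^ j * ((j : ℝ) + 1) ^ 4 := by ring
  rw [e4]
  have e5 : ((j : ℝ) + 1) ^ 4 ≤ 16 * ((j : ℝ) ^ 4 + 1) := by
    rcases Nat.eq_zero_or_pos j with hj | hj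
    · rw [hj]
      norm_num
    · have hj1 : (1 : ℝ) ≤ j := by exact_mod_cast hj
      have : ((j : ℝ) + 1) ^ 4 ≤ (2 * j) ^ 4 := pow_le_pow_left₀ (by positivity) (by linarith) 4
      nlinarith
  have e6 : ‖z‖ ^ j ≤ 1 := pow_le_one₀ (norm_nonneg z) hz.le
  have e7 : 0 ≤ ‖z‖ ^ j := by positivity
  calc ‖z‖ ^ j * ‖z‖ ^ j * ((j : ℝ) + 1) ^ 4 ≤ 1 * ‖z‖ ^ j * (16 * ((j : ℝ) ^ 4 + 1)) := by gcongr
    _ = 16 * ((j : ℝ) ^ 4 * ‖z‖ ^ j + ‖z‖ ^ j) := by ring

theorem eval_eq {b : ℕ → ℝ} {z : ℂ}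
    (hm : Memℓp (fun j : ℕ => (starRingEnd ℂ z) ^ j / (bet b j : ℂ)) 2) (x : L2) :
    evalH (bet b) x z = inner ℂ (⟨_, hm⟩ : L2) x := by
  rw [lp.inner_eq_tsum]
  unfold evalH
  apply tsum_congr
  intro j
  rw [RCLike.inner_apply]
  show x j / (bet b j : ℂ) * z ^ j = x j * (starRingEnd ℂ) ((starRingEnd ℂ z) ^ j / (bet b j : ℂ))
  rw [map_div₀, map_pow, Complex.conj_conj, Complex.conj_ofReal]
  ring

end PHIaux

open PHIaux in
theorem phi (h1 : S_SCH) (_h2 : S_EVL) : S_PHI := by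
  intro a b ha ha1 hb h0 _ hlow
  have h1a : 0 ≤ 1 - a := by linarith
  obtain ⟨hM, -, -⟩ := h1 (mm a b) (8 * (1 / a ^ 2)) (8 * (1 / a ^ 3))
    (fun j k => by
      unfold mm
      have := bet_pos hb j
      have := bet_pos hb k
      positivity)
    (fun j => by
      refine (Finset.sum_le_sum (fun k hk => mm_le ha ha1 hb h0 hlow
        (by have := Finset.mem_range.1 hk; omega : k ≤ j))).trans ?_
      rw [← Finset.mul_sum]
      exact mul_le_mul_of_nonneg_left (row ha ha1 j) (by norm_num))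
    (fun k N => by
      refine (Finset.sum_le_sum (fun n hn => mm_le ha ha1 hb h0 hlow
        (Finset.mem_Ico.1 hn).1)).trans ?_
      rw [← Finset.mul_sum]
      exact mul_le_mul_of_nonneg_left (col ha ha1 k N) (by norm_num))
  refine ⟨star (mat (mm a b)), ?_⟩
  intro x z hz
  have hz' : ‖(a : ℂ) * z + (1 - a)‖ < 1 := by
    have e1 : ‖(a : ℂ) * z‖ = a * ‖z‖ := by
      rw [norm_mul, Complex.norm_real, Real.norm_eq_abs, abs_of_pos ha]
    have e2 : ‖(1 - a : ℂ)‖ = 1 - a := by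
      have : (1 - a : ℂ) = ((1 - a : ℝ) : ℂ) := by push_cast; rfl
      rw [this, Complex.norm_real, Real.norm_eq_abs, abs_of_nonneg h1a]
    have e3 := norm_add_le ((a : ℂ) * z) (1 - a)
    have e4 : a * ‖z‖ < a * 1 := mul_lt_mul_of_pos_left hz ha
    linarith
  have hm := mem_kz hb h0 hlow hz
  have hm' := mem_kz hb h0 hlow hz'
  rw [eval_eq hm, eval_eq hm', ContinuousLinearMap.star_eq_adjoint,
    ContinuousLinearMap.adjoint_inner_right]
  have key : mat (mm a b) (⟨_, hm⟩ : L2) = (⟨_, hm'⟩ : L2) := by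
    apply lp.ext
    funext n
    rw [hM]
    show ∑ k ∈ Finset.range (n + 1), (mm a b n k : ℂ) * ((starRingEnd ℂ z) ^ k / (bet b k : ℂ)) =
      (starRingEnd ℂ ((a : ℂ) * z + (1 - a))) ^ n / (bet b n : ℂ)
    have hbn : (bet b n : ℂ) ≠ 0 := by exact_mod_cast (bet_pos hb n).ne'
    rw [eq_div_iff hbn, Finset.sum_mul]
    have e1 : starRingEnd ℂ ((a : ℂ) * z + (1 - a)) = (a : ℂ) * starRingEnd ℂ z + (1 - a) := by
      simp
    rw [e1, add_pow]
    apply Finset.sum_congr rfl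
    intro k _
    have hbk : (bet b k : ℂ) ≠ 0 := by exact_mod_cast (bet_pos hb k).ne'
    unfold mm
    push_cast
    rw [mul_pow]
    field_simp
  rw [key]

end Pool.Agent.H921.AL
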