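import Pool.Agent.H308.AL.Stm

/-!
# The log-convexity estimate in the pure model
-/

set_option autoImplicit false

open Filter Topology

noncomputable section

namespace Pool.Agent.H261.AL

open Pool.Agent.H308.AL

theorem logconv (f : ℕ → ℝ) (hf : ∀ j, 0 ≤ f j) (r : ℕ)
    (hc : ∀ j, j + 2 ≤ r → f (j + 1) ^ 2 ≤ f j * f (j + 2)) :
    ∀ j, 1 ≤ j → j ≤ r → f 1 ^ j ≤ f j * f 0 ^ (j - 1) := by
  have hA : ∀ j, j + 1 ≤ r → f 1 * f j ≤ f 0 * f (j + 1) := by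
    intro j
    induction j with
    | zero => intro _; rw [mul_comm]
    | succ j ih =>
      intro hj
      have h1 := ih (by omega)
      have h2 := hc j (by omega)
      rcases (hf j).eq_or_lt with h0 | h0
      · rw [← h0, zero_mul] at h2
        have h3 : f (j + 1) = 0 := by
          have h4 : f (j + 1) ^ 2 = 0 := le_antisymm h2 (sq_nonneg _)
          exact pow_eq_zero_iff (two_ne_zero) |>.1 h4
        rw [h3, mul_zero]
        exact mul_nonneg (hf _) (hf _)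
      · have h3 : f j * (f 1 * f (j + 1)) ≤ f j * (f 0 * f (j + 1 + 1)) := by
          calc f j * (f 1 * f (j + 1)) = (f 1 * f j) * f (j + 1) := by ring
            _ ≤ (f 0 * f (j + 1)) * f (j + 1) := mul_le_mul_of_nonneg_right h1 (hf _)
            _ = f 0 * f (j + 1) ^ 2 := by ring
            _ ≤ f 0 * (f j * f (j + 2)) := mul_le_mul_of_nonneg_left h2 (hf _)
            _ = f j * (f 0 * f (j + 1 + 1)) := by ring
        exact le_of_mul_le_mul_left h3 h0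
  intro j
  induction j with
  | zero => intro h; omega
  | succ j ih =>
    intro _ hj
    rcases Nat.eq_zero_or_pos j with h0 | h0
    · subst h0
      simp
    · have h1 := ih h0 (by omega)
      have h2 := hA j hj
      obtain ⟨i, rfl⟩ : ∃ i, j = i + 1 := ⟨j - 1, by omega⟩
      simp only [Nat.add_sub_cancel] at h1 ⊢
      calc f 1 ^ (i + 1 + 1) = f 1 ^ (i + 1) * f 1 := pow_succ _ _
        _ ≤ (f (i + 1) * f 0 ^ i) * f 1 := mul_le_mul_of_nonneg_right h1 (hf _)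
        _ = (f 1 * f (i + 1)) * f 0 ^ i := by ring
        _ ≤ (f 0 * f (i + 1 + 1)) * f 0 ^ i :=
            mul_le_mul_of_nonneg_right h2 (pow_nonneg (hf _) _)
        _ = f (i + 1 + 1) * f 0 ^ (i + 1) := by ring

section

variable {H : Type} [NormedAddCommGroup H] [InnerProductSpace ℂ H] [CompleteSpace H]
  {a l : ℝ} {E : ℝ → H →L[ℂ] H} {U : H →L[ℂ] H}

theorem norm_U (hP : Pure a E U) (x : H) : ‖U x‖ = ‖x‖ := by
  have h := hP.iso
  rw [ContinuousLinearMap.star_eq_adjoint] at h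
  exact (ContinuousLinearMap.norm_map_iff_adjoint_comp_self U).2 h x

theorem norm_U_pow (hP : Pure a E U) (k : ℕ) (x : H) : ‖(U ^ k) x‖ = ‖x‖ := by
  induction k generalizing x with
  | zero => simp
  | succ k ih =>
    rw [pow_succ, mul_apply_eq_comp, ih, norm_U hP]

theorem norm_E (hP : Pure a E U) {c : ℝ} (h0 : 0 ≤ c) (h1 : c < 1) (x : H) :
    ‖E c x‖ ≤ ‖x‖ := by
  refine ((E c).le_opNorm x).trans ?_
  have h2 := mul_le_mul_of_nonneg_right (hP.le_one c h0 h1) (norm_nonneg x)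
  rwa [one_mul] at h2

theorem pow_V (hP : Pure a E U) (ha0 : 0 < a) (ha1 : a < 1) {κ : ℝ} (h0 : 0 ≤ κ)
    (h1 : κ ≤ (1 - a) / 2) (k : ℕ) :
    ∃ s : ℝ, 0 ≤ s ∧ s * (1 - a) ≤ κ ∧
      ((l : ℂ) • (U * E κ)) ^ k = ((l : ℂ) ^ k) • (U ^ k * E s) := by
  induction k with
  | zero =>
    refine ⟨0, le_rfl, by linarith, ?_⟩
    rw [pow_zero, pow_zero, pow_zero, hP.zero, one_smul, one_mul]
  | succ k ih =>
    obtain ⟨s, hs0, hs1, hs⟩ := ih
    have ha : 0 < 1 - a := by linarith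
    have e1 : (a * s + κ) * (1 - a) ≤ κ := by nlinarith
    have e2 : a * s + κ < 1 := by nlinarith
    have e3 : s < 1 := by nlinarith
    have e4 : 0 ≤ a * s := mul_nonneg ha0.le hs0
    refine ⟨a * s + κ, by linarith, e1, ?_⟩
    rw [pow_succ, hs, smul_mul_smul_comm, ← pow_succ]
    congr 1
    rw [← hP.add (a * s) κ e4 h0 e2]
    calc U ^ k * E s * (U * E κ) = U ^ k * (E s * U) * E κ := by
          simp only [mul_assoc]
      _ = U ^ k * (U * E (a * s)) * E κ := by rw [hP.comm s hs0 e3]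
      _ = U ^ (k + 1) * (E (a * s) * E κ) := by
          rw [pow_succ]; simp only [mul_assoc]

theorem conv_E (hP : Pure a E U) {κ : ℝ} (h0 : 0 ≤ κ) (j : ℕ) (h1 : ((j : ℝ) + 2) * κ < 1)
    (y : H) : ‖E (((j + 1 : ℕ) : ℝ) * κ) y‖ ^ 2 ≤
      ‖E ((j : ℝ) * κ) y‖ * ‖E (((j + 2 : ℕ) : ℝ) * κ) y‖ := by
  have hj : (0 : ℝ) ≤ j := Nat.cast_nonneg j
  have hk1 : κ < 1 := by nlinarith
  have e1 : E κ * E ((j : ℝ) * κ) = E (((j + 1 : ℕ) : ℝ) * κ) := by
    rw [hP.add κ ((j : ℝ) * κ) h0 (by positivity) (by nlinarith)]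
    congr 1
    push_cast
    ring
  have e2 : E κ * E (((j + 1 : ℕ) : ℝ) * κ) = E (((j + 2 : ℕ) : ℝ) * κ) := by
    rw [hP.add κ (((j + 1 : ℕ) : ℝ) * κ) h0 (by positivity) (by push_cast; nlinarith)]
    congr 1
    push_cast
    ring
  have e3 : ContinuousLinearMap.adjoint (E κ) = E κ := by
    rw [← ContinuousLinearMap.star_eq_adjoint]
    exact hP.sa κ h0 hk1
  have e4 : inner ℂ (E (((j + 1 : ℕ) : ℝ) * κ) y) (E (((j + 1 : ℕ) : ℝ) * κ) y) =
      inner ℂ (E ((j : ℝ) * κ) y) (E (((j + 2 : ℕ) : ℝ) * κ) y) := by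
    have e5 : E (((j + 1 : ℕ) : ℝ) * κ) y = E κ (E ((j : ℝ) * κ) y) := by
      rw [← e1]; rfl
    have e6 : E (((j + 2 : ℕ) : ℝ) * κ) y = E κ (E (((j + 1 : ℕ) : ℝ) * κ) y) := by
      rw [← e2]; rfl
    rw [e6]
    conv_lhs => rw [e5]
    rw [← e5]
    conv_rhs => rw [← e3]
    rw [ContinuousLinearMap.adjoint_inner_right, ← e5]
  have e7 : ‖E (((j + 1 : ℕ) : ℝ) * κ) y‖ ^ 2 =
      RCLike.re (inner ℂ (E (((j + 1 : ℕ) : ℝ) * κ) y) (E (((j + 1 : ℕ) : ℝ) * κ) y)) := by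
    rw [inner_self_eq_norm_sq]
  rw [e7, e4]
  exact re_inner_le_norm _ _

end

theorem pur (h1 : S_ITP) : S_PUR := by
  intro H _ _ _ a l E U ha0 ha1 hl hP
  have h1a : 0 < 1 - a := by linarith
  have hr1 : 1 ≤ ⌈1 / (1 - a)⌉₊ := Nat.one_le_ceil_iff.2 (by positivity)
  refine ⟨⌈1 / (1 - a)⌉₊, hr1, fun n k y => ?_⟩
  rw [h1 H a l E U ha0 ha1 hl hP n]
  set κ : ℝ := (1 - a) / 2 * ((1 + a) / 2) ^ n with hκ
  set r : ℕ := ⌈1 / (1 - a)⌉₊ with hr
  have hκ0 : 0 ≤ κ := by positivity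
  have hκ1 : κ ≤ (1 - a) / 2 := by
    have h2 : ((1 + a) / 2) ^ n ≤ 1 := pow_le_one₀ (by linarith) (by linarith)
    have h3 := mul_le_mul_of_nonneg_left h2 (show 0 ≤ (1 - a) / 2 by linarith)
    rw [mul_one] at h3
    exact h3
  have hr2 : 1 ≤ (r : ℝ) * (1 - a) := by
    have h2 : 1 / (1 - a) ≤ (r : ℝ) := Nat.le_ceil _
    rwa [div_le_iff₀ h1a] at h2
  have hr3 : (r : ℝ) * κ < 1 := by
    have h2 : (r : ℝ) < 1 / (1 - a) + 1 := Nat.ceil_lt_add_one (by positivity)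
    have h3 : (r : ℝ) * κ ≤ r * ((1 - a) / 2) := mul_le_mul_of_nonneg_left hκ1 (Nat.cast_nonneg _)
    have h4 : (r : ℝ) * (1 - a) < (1 / (1 - a) + 1) * (1 - a) := mul_lt_mul_of_pos_right h2 h1a
    have h5 : (1 / (1 - a) + 1) * (1 - a) = 2 - a := by
      field_simp
      ring
    rw [h5] at h4
    linarith
  obtain ⟨s, hs0, hs1, hs⟩ := pow_V (l := l) hP ha0 ha1 hκ0 hκ1 k
  have hrk0 : 0 ≤ (r : ℝ) * κ := mul_nonneg (Nat.cast_nonneg _) hκ0
  have hsr : s ≤ (r : ℝ) * κ := by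
    have h2 : (s * (1 - a)) * r ≤ κ * r := mul_le_mul_of_nonneg_right hs1 (Nat.cast_nonneg _)
    nlinarith
  -- the comparison of `E (r κ)` and `E s`
  have hcmp : ‖E ((r : ℝ) * κ) y‖ ≤ ‖E s y‖ := by
    have h2 : E ((r : ℝ) * κ - s) * E s = E ((r : ℝ) * κ) := by
      rw [hP.add _ _ (by linarith) hs0 (by linarith), sub_add_cancel]
    rw [← h2]
    exact norm_E hP (by linarith) (by linarith) _
  have hlog := logconv (fun j => ‖E ((j : ℝ) * κ) y‖) (fun j => norm_nonneg _) r (by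
    intro j hj
    refine conv_E hP hκ0 j (lt_of_le_of_lt ?_ hr3) y
    have h2 : ((j : ℝ) + 2) ≤ r := by exact_mod_cast hj
    exact mul_le_mul_of_nonneg_right h2 hκ0) r hr1 le_rfl
  simp only [Nat.cast_one, one_mul, Nat.cast_zero, zero_mul, hP.zero,
    one_apply_eq_self] at hlog
  rw [hs]
  have hn1 : ‖((l : ℂ) • (U * E κ)) y‖ = l * ‖E κ y‖ := by
    rw [smul_apply, norm_smul, mul_apply_eq_comp, norm_U hP,
      Complex.norm_real, Real.norm_of_nonneg hl.le]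
  have hn2 : ‖(((l : ℂ) ^ k) • (U ^ k * E s)) y‖ = l ^ k * ‖E s y‖ := by
    rw [smul_apply, norm_smul, mul_apply_eq_comp, norm_U_pow hP,
      norm_pow, Complex.norm_real, Real.norm_of_nonneg hl.le]
  rw [hn1, hn2, mul_pow]
  calc l ^ r * ‖E κ y‖ ^ r * l ^ k = (l ^ r * l ^ k) * ‖E κ y‖ ^ r := by ring
    _ ≤ (l ^ r * l ^ k) * (‖E ((r : ℝ) * κ) y‖ * ‖y‖ ^ (r - 1)) :=
        mul_le_mul_of_nonneg_left hlog (by positivity)
    _ ≤ (l ^ r * l ^ k) * (‖E s y‖ * ‖y‖ ^ (r - 1)) := by gcongr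
    _ = l ^ r * (l ^ k * ‖E s y‖) * ‖y‖ ^ (r - 1) := by ring

end Pool.Agent.H261.AL
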