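import Pool.Agent.H308.AL.Stm

set_option autoImplicit false

open Filter Topology

namespace Pool.Agent.H404.AL

open Pool.Agent.H308.AL

theorem upper {t ε : ℝ} (ht : 0 ≤ t) (h0 : 0 ≤ ε) (h1 : ε ≤ 1) : t ^ ε ≤ 1 + ε * (t - 1) := by
  have h := rpow_one_add_le_one_add_mul_self (s := t - 1) (by linarith) h0 h1
  rwa [add_sub_cancel] at h

theorem scalar_bound {t ε M : ℝ} (ht : 0 ≤ t) (htM : t ≤ M) (h0 : 0 ≤ ε) (h1 : ε ≤ 1) :
    |t ^ ε * t - t| ≤ ε * (1 + M ^ 2) := by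
  rcases ht.eq_or_lt with rfl | ht'
  · simp only [mul_zero, sub_zero, abs_zero]
    positivity
  have hu := upper ht h0 h1
  have hl := upper (t := t⁻¹) (by positivity) h0 h1
  have ha : 0 < t ^ ε := Real.rpow_pos_of_pos ht' ε
  have hb : 0 < t⁻¹ ^ ε := Real.rpow_pos_of_pos (by positivity) ε
  have hab : t ^ ε * t⁻¹ ^ ε = 1 := by
    rw [← Real.mul_rpow ht (by positivity), mul_inv_cancel₀ ht'.ne', Real.one_rpow]
  set a := t ^ ε
  set b := t⁻¹ ^ ε
  set y := ε * (t⁻¹ - 1) with hy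
  have hy1 : 0 < 1 + y := lt_of_lt_of_le hb hl
  have h2 : 1 ≤ a * (1 + y) := by
    calc (1 : ℝ) = a * b := hab.symm
      _ ≤ a * (1 + y) := mul_le_mul_of_nonneg_left hl ha.le
  have h3 : 1 - y ≤ a := by
    by_contra hcon
    push Not at hcon
    have : a * (1 + y) < (1 - y) * (1 + y) := mul_lt_mul_of_pos_right hcon hy1
    nlinarith [sq_nonneg y]
  have hty : t * y = ε * (1 - t) := by
    rw [hy]
    field_simp
  rw [abs_le]
  constructor
  · have : t * (1 - y) ≤ t * a := mul_le_mul_of_nonneg_left h3 ht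
    have h4 : t * (1 - y) = t - ε * (1 - t) := by rw [mul_sub, mul_one, hty]
    have h5 : 0 ≤ ε * t := by positivity
    have h6 : 0 ≤ ε * M ^ 2 := by positivity
    nlinarith
  · have h7 : a * t ≤ (1 + ε * (t - 1)) * t := mul_le_mul_of_nonneg_right hu ht
    have h8 : t ^ 2 ≤ M ^ 2 := by nlinarith
    have h9 : ε * t ^ 2 ≤ ε * M ^ 2 := mul_le_mul_of_nonneg_left h8 h0
    have h10 : 0 ≤ ε * t := by positivity
    nlinarith

/-- `S_PW0`. -/
theorem pw0 : S_PW0 := by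
  intro H _ _ _ B η hB hinj h0 h1 x
  set M : ℝ := ‖B‖ * ‖(1 : H →L[ℂ] H)‖ with hM
  have hM0 : 0 ≤ M := by positivity
  have hspec : ∀ t ∈ spectrum ℝ B, 0 ≤ t ∧ t ≤ M := by
    intro t ht
    refine ⟨spectrum_nonneg_of_nonneg hB ht, ?_⟩
    have h2 := spectrum.norm_le_norm_mul_of_mem ht
    rw [Real.norm_eq_abs] at h2
    exact (le_abs_self t).trans h2
  have hsa : IsSelfAdjoint B := IsSelfAdjoint.of_nonneg hB
  have hε0 : ∀ n : ℕ, 0 ≤ η ^ n := fun n => by positivity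
  have hε1 : ∀ n : ℕ, η ^ n ≤ 1 := fun n => pow_le_one₀ h0.le h1.le
  have hcont : ∀ n : ℕ, Continuous fun t : ℝ => t ^ (η ^ n) := fun n =>
    Real.continuous_rpow_const (hε0 n)
  have hpw : ∀ n : ℕ, B ^ (η ^ n : ℝ) = cfc (fun t : ℝ => t ^ (η ^ n)) B := fun n =>
    CFC.rpow_eq_cfc_real hB
  -- norm bound
  have hnorm : ∀ n : ℕ, ‖B ^ (η ^ n : ℝ)‖ ≤ 1 + M := by
    intro n
    rw [hpw n]
    refine norm_cfc_le (by positivity) fun t ht => ?_
    obtain ⟨ht0, htM⟩ := hspec t ht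
    rw [Real.norm_of_nonneg (Real.rpow_nonneg ht0 _)]
    have h2 := upper ht0 (hε0 n) (hε1 n)
    have h3 : η ^ n * (t - 1) ≤ t := by nlinarith [hε0 n, hε1 n]
    linarith
  -- convergence on the range
  have hran : ∀ n : ℕ, ‖B ^ (η ^ n : ℝ) * B - B‖ ≤ η ^ n * (1 + M ^ 2) := by
    intro n
    have h2 : B ^ (η ^ n : ℝ) * B - B = cfc (fun t : ℝ => t ^ (η ^ n) * t - t) B := by
      rw [hpw n, cfc_sub (fun t : ℝ => t ^ (η ^ n) * t) (fun t => t) B
        (((hcont n).mul continuous_id).continuousOn) continuousOn_id,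
        cfc_mul (fun t : ℝ => t ^ (η ^ n)) (fun t => t) B (hcont n).continuousOn continuousOn_id,
        cfc_id' ℝ B]
    rw [h2]
    have hεn := hε0 n
    refine norm_cfc_le (by positivity) fun t ht => ?_
    obtain ⟨ht0, htM⟩ := hspec t ht
    rw [Real.norm_eq_abs]
    exact scalar_bound ht0 htM (hε0 n) (hε1 n)
  -- density of the range
  have hdense : DenseRange B := by
    have h2 : B.rangeᗮ = ⊥ := by
      rw [ContinuousLinearMap.orthogonal_range]
      have h3 : ContinuousLinearMap.adjoint B = B := by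
        rw [← ContinuousLinearMap.star_eq_adjoint]
        exact hsa
      rw [h3]
      exact LinearMap.ker_eq_bot.2 hinj
    have h4 := (Submodule.topologicalClosure_eq_top_iff
      (K := B.range)).2 h2
    intro y
    have h5 : y ∈ B.range.topologicalClosure := by
      rw [h4]
      trivial
    exact h5
  have hη : Tendsto (fun n : ℕ => η ^ n) atTop (𝓝 0) :=
    tendsto_pow_atTop_nhds_zero_of_lt_one h0.le h1
  rw [Metric.tendsto_atTop]
  intro δ hδ
  obtain ⟨_, ⟨z, rfl⟩, hz⟩ := Metric.mem_closure_iff.1 (hdense x) (δ / (2 * (2 + M)))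
    (by positivity)
  rw [dist_eq_norm] at hz
  have h2 : Tendsto (fun n : ℕ => η ^ n * ((1 + M ^ 2) * ‖z‖)) atTop (𝓝 0) := by
    simpa using hη.mul_const ((1 + M ^ 2) * ‖z‖)
  obtain ⟨N, hN⟩ := (Metric.tendsto_atTop.1 h2) (δ / 2) (by positivity)
  refine ⟨N, fun n hn => ?_⟩
  have h3 := hN n hn
  rw [dist_zero_right, Real.norm_eq_abs] at h3
  have h3' := lt_of_le_of_lt (le_abs_self _) h3
  rw [dist_eq_norm]
  have h4 : (B ^ (η ^ n : ℝ)) x - x = (B ^ (η ^ n : ℝ)) (x - B z)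
      + (B ^ (η ^ n : ℝ) * B - B) z - (x - B z) := by
    rw [map_sub]
    simp only [sub_apply, mul_apply_eq_comp]
    abel
  rw [h4]
  have h5 : ‖(B ^ (η ^ n : ℝ)) (x - B z)‖ ≤ (1 + M) * ‖x - B z‖ :=
    (ContinuousLinearMap.le_opNorm _ _).trans
      (mul_le_mul_of_nonneg_right (hnorm n) (norm_nonneg _))
  have h6 : ‖(B ^ (η ^ n : ℝ) * B - B) z‖ ≤ η ^ n * (1 + M ^ 2) * ‖z‖ :=
    (ContinuousLinearMap.le_opNorm _ _).trans
      (mul_le_mul_of_nonneg_right (hran n) (norm_nonneg _))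
  have h7 : (2 + M) * ‖x - B z‖ < δ / 2 := by
    have : (2 + M) * ‖x - B z‖ < (2 + M) * (δ / (2 * (2 + M))) :=
      mul_lt_mul_of_pos_left hz (by positivity)
    refine this.trans_le (le_of_eq ?_)
    field_simp
  calc ‖(B ^ (η ^ n : ℝ)) (x - B z) + (B ^ (η ^ n : ℝ) * B - B) z - (x - B z)‖
      ≤ ‖(B ^ (η ^ n : ℝ)) (x - B z)‖ + ‖(B ^ (η ^ n : ℝ) * B - B) z‖ + ‖x - B z‖ :=
        (norm_sub_le _ _).trans (add_le_add_left (norm_add_le _ _) _)
    _ < δ := by nlinarith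

end Pool.Agent.H404.AL
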