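import Pool.Agent.H308.AL.Stm

/-!
# Project AL (helper308), job AL-RED: Aluthge transforms and reducing subspaces
-/

set_option autoImplicit false

namespace Pool.Agent.H549.AL

open Pool.Agent.H308.AL

theorem red (h1 : S_INT2) (h2 : S_ALU) (h3 : S_BAS) : S_RED := by
  intro H _ _ _ S T J hS hT _ hST hST'
  obtain ⟨-, -, -, -, US, -, hUS, hal⟩ := h2 H S hS
  obtain ⟨-, -, -, -, UT, -, hUT, hal'⟩ := h2 H T hT
  obtain ⟨hS1, hS2, -, -, -, hS3⟩ := h3 H S
  obtain ⟨hT1, hT2, -, -, -, hT3⟩ := h3 H T
  obtain ⟨hS4, -, -, -⟩ := hS3 hS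
  obtain ⟨-, -, hT4, -⟩ := hT3 hT
  have hSa : star (ab S) = ab S := (IsSelfAdjoint.of_nonneg hS1).star_eq
  have hTa : star (ab T) = ab T := (IsSelfAdjoint.of_nonneg hT1).star_eq
  have hSh : star (hf S) = hf S := (IsSelfAdjoint.of_nonneg hS2).star_eq
  have hTh : star (hf T) = hf T := (IsSelfAdjoint.of_nonneg hT2).star_eq
  -- the absolute values
  have e1 : (star S * S) * J = J * (star T * T) := by
    rw [mul_assoc, hST, ← mul_assoc, hST', mul_assoc]
  have e2 : ab S * J = J * ab T :=
    (h1 H (star S * S) (star T * T) J (star_mul_self_nonneg S) (star_mul_self_nonneg T) e1).1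
  have e3 : hf S * J = J * hf T := (h1 H (ab S) (ab T) J hS1 hT1 e2).1
  -- the polar parts
  have e4 : US * J = J * UT := by
    have h5 : (US * J) * ab T = (J * UT) * ab T := by
      rw [mul_assoc, ← e2, ← mul_assoc, hUS, hST, mul_assoc, hUT]
    have h6 : (fun x => (US * J) x) = fun x => (J * UT) x := by
      refine DenseRange.equalizer hT4 (US * J).continuous (J * UT).continuous ?_
      funext x
      have h7 := congrArg (fun A : H →L[ℂ] H => A x) h5
      exact h7
    ext x
    exact congrFun h6 x
  have e5 : star US * J = J * star UT := by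
    have h5 : ab S * (star US * J) = ab S * (J * star UT) := by
      have h6 : ab S * star US = star S := by
        rw [← hSa, ← star_mul, hUS]
      have h7 : ab T * star UT = star T := by
        rw [← hTa, ← star_mul, hUT]
      rw [← mul_assoc, h6, hST', ← mul_assoc, e2, mul_assoc, h7]
    ext x
    apply hS4
    exact congrArg (fun A : H →L[ℂ] H => A x) h5
  constructor
  · calc al S * J = hf S * (US * (hf S * J)) := by rw [hal]; noncomm_ring
      _ = hf S * ((US * J) * hf T) := by rw [e3]; noncomm_ring
      _ = (hf S * J) * (UT * hf T) := by rw [e4]; noncomm_ring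
      _ = J * al T := by rw [e3, hal']; noncomm_ring
  · calc star (al S) * J = hf S * (star US * (hf S * J)) := by
          rw [hal, star_mul, star_mul, hSh]; noncomm_ring
      _ = hf S * ((star US * J) * hf T) := by rw [e3]; noncomm_ring
      _ = (hf S * J) * (star UT * hf T) := by rw [e5]; noncomm_ring
      _ = J * star (al T) := by rw [e3, hal', star_mul, star_mul, hTh]; noncomm_ring

end Pool.Agent.H549.AL
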