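import Pool.Agent.H308.AL.Stm

/-!
# Row and column sums
-/

set_option autoImplicit false

open Filter Topology

noncomputable section

namespace Pool.Agent.H603.AL

open Pool.Agent.H308.AL

theorem row : S_ROW := by
  intro a ha ha1
  have hb : 0 ≤ 1 - a := by linarith
  have hnn : ∀ j k, 0 ≤ t a j k := by
    intro j k
    rw [t]
    positivity
  refine ⟨hnn, ?_, ?_⟩
  · intro j
    have h1 := add_pow a (1 - a) j
    rw [add_sub_cancel, one_pow] at h1
    have h2 : ∑ k ∈ Finset.range (j + 1), t a j k =
        a * ∑ k ∈ Finset.range (j + 1), a ^ k * (1 - a) ^ (j - k) * (j.choose k) := by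
      rw [Finset.mul_sum]
      refine Finset.sum_congr rfl fun k _ => ?_
      rw [t]; ring
    rw [h2, ← h1, mul_one]
  · intro k N
    have hr : ‖1 - a‖ < 1 := by
      rw [Real.norm_eq_abs, abs_of_nonneg hb]; linarith
    have h1 := tsum_choose_mul_geometric_of_norm_lt_one k hr
    have h2 := summable_choose_mul_geometric_of_norm_lt_one k hr
    rw [Finset.sum_Ico_eq_sum_range]
    have h3 : ∑ i ∈ Finset.range (N - k), t a (k + i) k =
        a ^ (k + 1) * ∑ i ∈ Finset.range (N - k), ((i + k).choose k : ℝ) * (1 - a) ^ i := by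
      rw [Finset.mul_sum]
      refine Finset.sum_congr rfl fun i _ => ?_
      rw [t, Nat.add_sub_cancel_left, add_comm k i]; ring
    rw [h3]
    have h4 : ∑ i ∈ Finset.range (N - k), ((i + k).choose k : ℝ) * (1 - a) ^ i ≤
        1 / (1 - (1 - a)) ^ (k + 1) := by
      rw [← h1]
      exact h2.sum_le_tsum _ fun i _ => by positivity
    rw [sub_sub_cancel] at h4
    calc a ^ (k + 1) * ∑ i ∈ Finset.range (N - k), ((i + k).choose k : ℝ) * (1 - a) ^ i
        ≤ a ^ (k + 1) * (1 / a ^ (k + 1)) := by gcongr
      _ = 1 := by field_simp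

end Pool.Agent.H603.AL
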