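import Pool.Agent.H308.AL.Stm

set_option autoImplicit false

/-!
# MP_943409_an: *-strong continuity of the functional calculus
-/

open Filter Topology Polynomial

noncomputable section

namespace Pool.Agent.H187.AL

open Pool.Agent.H308.AL

variable {H : Type} [NormedAddCommGroup H] [InnerProductSpace ℂ H] [CompleteSpace H]
variable {X : Type} [TopologicalSpace X]

theorem starCont_const (B : H →L[ℂ] H) : StarCont fun _ : X => B where
  bdd := ⟨‖B‖, fun _ => le_rfl⟩
  cont _ := continuous_const
  cont' _ := continuous_const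

theorem StarCont_add {A B : X → H →L[ℂ] H} (hA : StarCont A) (hB : StarCont B) :
    StarCont fun s => A s + B s where
  bdd := by
    obtain ⟨M, hM⟩ := hA.bdd
    obtain ⟨N, hN⟩ := hB.bdd
    exact ⟨M + N, fun s => (norm_add_le _ _).trans (add_le_add (hM s) (hN s))⟩
  cont x := by
    have h := (hA.cont x).add (hB.cont x)
    exact h
  cont' x := by
    have h := (hA.cont' x).add (hB.cont' x)
    have e : (fun s => star (A s + B s) x) = fun s => star (A s) x + star (B s) x := by
      funext s
      rw [star_add, ContinuousLinearMap.add_apply]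
    rw [e]
    exact h

theorem StarCont_pow (h2 : S_SC2) {A : X → H →L[ℂ] H} (hA : StarCont A) :
    ∀ n : ℕ, StarCont fun s => A s ^ n
  | 0 => by
    simp only [pow_zero]
    exact starCont_const 1
  | n + 1 => by
    simp only [pow_succ]
    exact (h2 H X (fun s => A s ^ n) A).1 (StarCont_pow h2 hA n) hA

theorem StarCont_aeval (h2 : S_SC2) {A : X → H →L[ℂ] H} (hA : StarCont A) (q : ℝ[X]) :
    StarCont fun s => aeval (A s) q := by
  induction q using Polynomial.induction_on' with
  | add p q hp hq =>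
    simp only [map_add]
    exact StarCont_add hp hq
  | monomial n a =>
    simp only [aeval_monomial]
    exact (h2 H X (fun _ => algebraMap ℝ (H →L[ℂ] H) a) (fun s => A s ^ n)).1
      (starCont_const _) (StarCont_pow h2 hA n)

theorem sc1 (h2 : S_SC2) : S_SC1 := by
  intro H _ _ _ X _ A f hf hsa hA
  obtain ⟨M, hM⟩ := hA.bdd
  refine (h2 H X (fun s => cfc f (A s)) (fun s => cfc f (A s))).2.2 fun ε hε => ?_
  obtain ⟨q, hq⟩ := exists_polynomial_near_of_continuousOn (-M) M f hf.continuousOn ε hε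
  refine ⟨fun s => aeval (A s) q, StarCont_aeval h2 hA q, fun s => ?_⟩
  show ‖cfc f (A s) - aeval (A s) q‖ ≤ ε
  rw [← cfc_polynomial q (A s) (hsa s), ← cfc_sub f (fun x => q.eval x) (A s) hf.continuousOn
    q.continuous.continuousOn]
  refine norm_cfc_le hε.le fun x hx => ?_
  have h1 : ‖x‖ ≤ ‖A s‖ * ‖(1 : H →L[ℂ] H)‖ := spectrum.norm_le_norm_mul_of_mem hx
  have h3 : ‖(1 : H →L[ℂ] H)‖ ≤ 1 := ContinuousLinearMap.norm_id_le
  have h4 : ‖x‖ ≤ M := by
    refine h1.trans ?_
    calc ‖A s‖ * ‖(1 : H →L[ℂ] H)‖ ≤ ‖A s‖ * 1 := mul_le_mul_of_nonneg_left h3 (norm_nonneg _)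
      _ = ‖A s‖ := mul_one _
      _ ≤ M := hM s
  rw [Real.norm_eq_abs, abs_le] at h4
  have h5 := hq x h4
  rw [Real.norm_eq_abs, abs_sub_comm]
  exact h5.le

end Pool.Agent.H187.AL
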