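import Pool.Agent.H308.AL.Stm

set_option autoImplicit false

open Filter Topology

namespace Pool.Agent.H127.AL

open Pool.Agent.H308.AL

section

variable {m : ℕ → ℕ → ℝ} {α α' : ℝ}

theorem two_toReal : (2 : ENNReal).toReal = 2 := by norm_num

theorem sum_le_norm (x : L2) (s : Finset ℕ) : ∑ k ∈ s, ‖x k‖ ^ 2 ≤ ‖x‖ ^ 2 := by
  have h := lp.sum_rpow_le_norm_rpow (p := 2) (by norm_num) x s
  rw [two_toReal] at h
  simpa only [Real.rpow_two] using h

/-- the Schur estimate -/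
theorem schur (hm : ∀ j k, 0 ≤ m j k) (hr : ∀ j, ∑ k ∈ Finset.range (j + 1), m j k ≤ α)
    (hc : ∀ k N, ∑ j ∈ Finset.Ico k N, m j k ≤ α') (x : L2) (N : ℕ) :
    ∑ j ∈ Finset.range N, ‖∑ k ∈ Finset.range (j + 1), (m j k : ℂ) * x k‖ ^ 2 ≤
      α * α' * ‖x‖ ^ 2 := by
  have hα : 0 ≤ α := (Finset.sum_nonneg fun k _ => hm 0 k).trans (hr 0)
  have hα' : 0 ≤ α' := by simpa using hc 0 0
  have h1 : ∀ j, ‖∑ k ∈ Finset.range (j + 1), (m j k : ℂ) * x k‖ ^ 2 ≤
      α * ∑ k ∈ Finset.range (j + 1), m j k * ‖x k‖ ^ 2 := by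
    intro j
    have e1 : ‖∑ k ∈ Finset.range (j + 1), (m j k : ℂ) * x k‖ ≤
        ∑ k ∈ Finset.range (j + 1), m j k * ‖x k‖ := by
      refine (norm_sum_le _ _).trans (Finset.sum_le_sum fun k _ => ?_)
      rw [norm_mul, Complex.norm_real, Real.norm_of_nonneg (hm j k)]
    have e2 : (∑ k ∈ Finset.range (j + 1), m j k * ‖x k‖) ^ 2 ≤
        (∑ k ∈ Finset.range (j + 1), m j k) * ∑ k ∈ Finset.range (j + 1), m j k * ‖x k‖ ^ 2 :=
      Finset.sum_sq_le_sum_mul_sum_of_sq_le_mul _ (fun k _ => hm j k)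
        (fun k _ => mul_nonneg (hm j k) (by positivity)) (fun k _ => le_of_eq (by ring))
    calc ‖∑ k ∈ Finset.range (j + 1), (m j k : ℂ) * x k‖ ^ 2
        ≤ (∑ k ∈ Finset.range (j + 1), m j k * ‖x k‖) ^ 2 :=
          pow_le_pow_left₀ (norm_nonneg _) e1 2
      _ ≤ _ := e2
      _ ≤ _ := mul_le_mul_of_nonneg_right (hr j)
          (Finset.sum_nonneg fun k _ => mul_nonneg (hm j k) (by positivity))
  calc ∑ j ∈ Finset.range N, ‖∑ k ∈ Finset.range (j + 1), (m j k : ℂ) * x k‖ ^ 2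
      ≤ ∑ j ∈ Finset.range N, α * ∑ k ∈ Finset.range (j + 1), m j k * ‖x k‖ ^ 2 :=
        Finset.sum_le_sum fun j _ => h1 j
    _ = α * ∑ k ∈ Finset.range N, ∑ j ∈ Finset.Ico k N, m j k * ‖x k‖ ^ 2 := by
        rw [← Finset.mul_sum]
        congr 1
        refine Finset.sum_comm' fun j k => ?_
        simp only [Finset.mem_range, Finset.mem_Ico]
        omega
    _ ≤ α * ∑ k ∈ Finset.range N, α' * ‖x k‖ ^ 2 := by
        refine mul_le_mul_of_nonneg_left (Finset.sum_le_sum fun k _ => ?_) hα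
        rw [← Finset.sum_mul]
        exact mul_le_mul_of_nonneg_right (hc k N) (by positivity)
    _ ≤ α * (α' * ‖x‖ ^ 2) := by
        rw [← Finset.mul_sum]
        exact mul_le_mul_of_nonneg_left (mul_le_mul_of_nonneg_left (sum_le_norm x _) hα') hα
    _ = α * α' * ‖x‖ ^ 2 := by ring

theorem schur_fin (hm : ∀ j k, 0 ≤ m j k) (hr : ∀ j, ∑ k ∈ Finset.range (j + 1), m j k ≤ α)
    (hc : ∀ k N, ∑ j ∈ Finset.Ico k N, m j k ≤ α') (x : L2) (s : Finset ℕ) :
    ∑ j ∈ s, ‖∑ k ∈ Finset.range (j + 1), (m j k : ℂ) * x k‖ ^ (2 : ENNReal).toReal ≤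
      (Real.sqrt (α * α') * ‖x‖) ^ (2 : ENNReal).toReal := by
  have hα : 0 ≤ α := (Finset.sum_nonneg fun k _ => hm 0 k).trans (hr 0)
  have hα' : 0 ≤ α' := by simpa using hc 0 0
  rw [two_toReal]
  simp only [Real.rpow_two]
  rw [mul_pow, Real.sq_sqrt (mul_nonneg hα hα')]
  refine le_trans ?_ (schur hm hr hc x (s.sup id + 1))
  refine Finset.sum_le_sum_of_subset_of_nonneg ?_ fun _ _ _ => by positivity
  intro j hj
  rw [Finset.mem_range]
  exact Nat.lt_succ_of_le (Finset.le_sup (f := id) hj)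

/-- the operator -/
noncomputable def op (hm : ∀ j k, 0 ≤ m j k) (hr : ∀ j, ∑ k ∈ Finset.range (j + 1), m j k ≤ α)
    (hc : ∀ k N, ∑ j ∈ Finset.Ico k N, m j k ≤ α') : L2 →ₗ[ℂ] L2 where
  toFun x := ⟨fun j => ∑ k ∈ Finset.range (j + 1), (m j k : ℂ) * x k,
    memℓp_gen' fun s => schur_fin hm hr hc x s⟩
  map_add' x y := by
    refine Subtype.ext (funext fun j => ?_)
    change ∑ k ∈ Finset.range (j + 1), (m j k : ℂ) * (x + y) k =
      ∑ k ∈ Finset.range (j + 1), (m j k : ℂ) * x k + ∑ k ∈ Finset.range (j + 1), (m j k : ℂ) * y k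
    rw [← Finset.sum_add_distrib]
    refine Finset.sum_congr rfl fun k _ => ?_
    rw [← mul_add]
    rfl
  map_smul' c x := by
    refine Subtype.ext (funext fun j => ?_)
    change ∑ k ∈ Finset.range (j + 1), (m j k : ℂ) * (c • x) k =
      c * ∑ k ∈ Finset.range (j + 1), (m j k : ℂ) * x k
    rw [Finset.mul_sum]
    refine Finset.sum_congr rfl fun k _ => ?_
    change (m j k : ℂ) * (c * x k) = c * ((m j k : ℂ) * x k)
    ring

theorem op_norm (hm : ∀ j k, 0 ≤ m j k) (hr : ∀ j, ∑ k ∈ Finset.range (j + 1), m j k ≤ α)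
    (hc : ∀ k N, ∑ j ∈ Finset.Ico k N, m j k ≤ α') (x : L2) :
    ‖op hm hr hc x‖ ≤ Real.sqrt (α * α') * ‖x‖ :=
  lp.norm_le_of_forall_sum_le (by norm_num) (by positivity) fun s => schur_fin hm hr hc x s

end

theorem unique {m : ℕ → ℕ → ℝ} {M M' : L2 →L[ℂ] L2} (h : IsMat m M) (h' : IsMat m M') : M = M' := by
  refine ContinuousLinearMap.ext fun x => ?_
  refine lp.ext (funext fun j => ?_)
  rw [h x j, h' x j]

theorem sch : S_SCH := by
  intro m α α' hm hr hc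
  have h1 : IsMat m ((op hm hr hc).mkContinuous _ (op_norm hm hr hc)) := fun x j => rfl
  have hex : ∃ M, IsMat m M := ⟨_, h1⟩
  have h2 : IsMat m (mat m) := by
    unfold mat
    rw [dif_pos hex]
    exact hex.choose_spec
  refine ⟨h2, ?_, fun M hM => unique hM h2⟩
  rw [unique h2 h1]
  exact LinearMap.mkContinuous_norm_le _ (Real.sqrt_nonneg _) _

end Pool.Agent.H127.AL
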