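import Pool.Agent.H308.AL.Stm

/-! `S_SIG`: the composition operator `C_σ` on `H²(β)`. -/

set_option autoImplicit false

open Filter Topology

noncomputable section

namespace Pool.Agent.H106.AL

open Pool.Agent.H308.AL

namespace SIG

theorem mem_iff (f : ℕ → ℂ) : Memℓp f 2 ↔ Summable fun i => ‖f i‖ ^ 2 := by
  have h : (0 : ℝ) < (2 : ENNReal).toReal := by norm_num
  rw [memℓp_gen_iff h]
  have e : (fun i => ‖f i‖ ^ (2 : ENNReal).toReal) = fun i => ‖f i‖ ^ 2 := by
    funext i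
    rw [show (2 : ENNReal).toReal = ((2 : ℕ) : ℝ) by norm_num, Real.rpow_natCast]
  rw [e]

theorem norm_sq (x : L2) : ‖x‖ ^ 2 = ∑' i, ‖x i‖ ^ 2 := by
  have h : (0 : ℝ) < (2 : ENNReal).toReal := by norm_num
  have h1 := lp.norm_rpow_eq_tsum h x
  have e : (fun i => ‖x i‖ ^ (2 : ENNReal).toReal) = fun i => ‖x i‖ ^ 2 := by
    funext i
    rw [show (2 : ENNReal).toReal = ((2 : ℕ) : ℝ) by norm_num, Real.rpow_natCast]
  rw [e, show (2 : ENNReal).toReal = ((2 : ℕ) : ℝ) by norm_num, Real.rpow_natCast] at h1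
  exact h1

theorem summable_sq (x : L2) : Summable fun i => ‖x i‖ ^ 2 := (mem_iff _).mp (lp.memℓp x)

/-- the coordinates of the right shift -/
def jf (x : ℕ → ℂ) : ℕ → ℂ
  | 0 => 0
  | k + 1 => x k

theorem jf_mem (x : L2) : Memℓp (jf fun k => x k) 2 := by
  rw [mem_iff, ← summable_nat_add_iff 1]
  exact summable_sq x

theorem lf_mem (x : L2) : Memℓp (fun k : ℕ => x (k + 1)) 2 := by
  rw [mem_iff]
  exact (summable_nat_add_iff 1).mpr (summable_sq x)

/-- the right shift -/
def Jl : L2 →ₗ[ℂ] L2 where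
  toFun x := ⟨jf fun k => x k, jf_mem x⟩
  map_add' x y := by
    refine lp.ext (funext fun n => ?_)
    cases n with
    | zero => show (0 : ℂ) = 0 + 0; rw [add_zero]
    | succ k => rfl
  map_smul' c x := by
    refine lp.ext (funext fun n => ?_)
    cases n with
    | zero => show (0 : ℂ) = c * 0; rw [mul_zero]
    | succ k => rfl

theorem Jl_zero (x : L2) : (Jl x) 0 = 0 := rfl
theorem Jl_succ (x : L2) (k : ℕ) : (Jl x) (k + 1) = x k := rfl

theorem Jl_norm (x : L2) : ‖Jl x‖ = ‖x‖ := by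
  have h : ‖Jl x‖ ^ 2 = ‖x‖ ^ 2 := by
    rw [norm_sq, norm_sq, (summable_sq (Jl x)).tsum_eq_zero_add, Jl_zero]
    simp only [Jl_succ]
    simp
  exact (pow_left_inj₀ (norm_nonneg _) (norm_nonneg _) two_ne_zero).mp h

/-- the right shift as a bounded operator -/
def J : L2 →L[ℂ] L2 := Jl.mkContinuous 1 fun x => by rw [one_mul, Jl_norm]

theorem J_zero (x : L2) : (J x) 0 = 0 := rfl
theorem J_succ (x : L2) (k : ℕ) : (J x) (k + 1) = x k := rfl

/-- the left shift -/
def Ll : L2 →ₗ[ℂ] L2 where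
  toFun x := ⟨fun k => x (k + 1), lf_mem x⟩
  map_add' _ _ := rfl
  map_smul' _ _ := rfl

theorem Ll_apply (x : L2) (k : ℕ) : (Ll x) k = x (k + 1) := rfl

theorem Ll_norm (x : L2) : ‖Ll x‖ ≤ ‖x‖ := by
  have h : ‖Ll x‖ ^ 2 ≤ ‖x‖ ^ 2 := by
    rw [norm_sq, norm_sq, (summable_sq x).tsum_eq_zero_add]
    simp only [Ll_apply]
    exact le_add_of_nonneg_left (by positivity)
  exact (pow_le_pow_iff_left₀ (norm_nonneg _) (norm_nonneg _) two_ne_zero).mp h

def L : L2 →L[ℂ] L2 := Ll.mkContinuous 1 fun x => by rw [one_mul]; exact Ll_norm x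

theorem L_apply (x : L2) (k : ℕ) : (L x) k = x (k + 1) := rfl

theorem star_J : star J = L := by
  rw [ContinuousLinearMap.star_eq_adjoint]
  symm
  rw [ContinuousLinearMap.eq_adjoint_iff]
  intro x y
  have e1 : inner ℂ (L x) y = ∑' i, inner ℂ ((L x) i) (y i) := lp.inner_eq_tsum _ _
  have e2 : inner ℂ x (J y) = ∑' i, inner ℂ (x i) ((J y) i) := lp.inner_eq_tsum _ _
  have s : Summable fun i => inner ℂ (x i) ((J y) i) := lp.summable_inner x (J y)
  have e3 : inner ℂ (x 0) ((J y) 0) = 0 := by rw [J_zero, inner_zero_right]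
  rw [e1, e2, s.tsum_eq_zero_add, e3, zero_add]
  rfl

theorem JJ : star J * J = 1 := by
  rw [star_J]
  refine ContinuousLinearMap.ext fun x => ?_
  refine lp.ext (funext fun k => ?_)
  rfl

/-- series in the variable `z` -/
theorem hasSum_t (a : ℝ) (ha : 0 < a) (ha1 : a < 1) (k : ℕ) (z : ℂ) (hz : ‖z‖ < 1) :
    HasSum (fun j => (t a j k : ℂ) * z ^ (j + 1)) ((a * z / (1 - (1 - a) * z)) ^ (k + 1)) := by
  have hr : ‖(1 - (a : ℂ)) * z‖ < 1 := by
    rw [norm_mul]
    have e : ‖(1 - (a : ℂ))‖ = 1 - a := by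
      rw [← Complex.ofReal_one, ← Complex.ofReal_sub, Complex.norm_real, Real.norm_eq_abs,
        abs_of_pos (by linarith)]
    rw [e]
    nlinarith [norm_nonneg z]
  have h1 := hasSum_choose_mul_geometric_of_norm_lt_one k hr
  have h2 := h1.mul_left (((a : ℂ) * z) ^ (k + 1))
  have h3 : ((a : ℂ) * z) ^ (k + 1) * (1 / (1 - (1 - (a : ℂ)) * z) ^ (k + 1)) =
      (a * z / (1 - (1 - a) * z)) ^ (k + 1) := by
    rw [div_pow, mul_one_div]
  rw [h3] at h2
  rw [← hasSum_nat_add_iff' k]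
  have h4 : ∑ i ∈ Finset.range k, (t a i k : ℂ) * z ^ (i + 1) = 0 := by
    refine Finset.sum_eq_zero fun i hi => ?_
    rw [Finset.mem_range] at hi
    unfold t
    rw [Nat.choose_eq_zero_of_lt hi]
    simp
  rw [h4, sub_zero]
  have h5 : (fun n : ℕ => (t a (n + k) k : ℂ) * z ^ (n + k + 1)) =
      fun n : ℕ => ((a : ℂ) * z) ^ (k + 1) * (((n + k).choose k : ℂ) * ((1 - (a : ℂ)) * z) ^ n) := by
    funext n
    unfold t
    rw [Nat.add_sub_cancel]
    push_cast
    rw [mul_pow, mul_pow]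
    ring
  rw [h5]
  exact h2

theorem sab_lt {a r : ℝ} (ha : 0 < a) (_ha1 : a < 1) (hr0 : 0 ≤ r) (hr : r < 1) :
    0 < 1 - (1 - a) * r ∧ 0 ≤ a * r / (1 - (1 - a) * r) ∧ a * r / (1 - (1 - a) * r) < 1 := by
  have h0 : 0 < 1 - (1 - a) * r := by nlinarith
  refine ⟨h0, by positivity, ?_⟩
  rw [div_lt_one h0]
  nlinarith

theorem norm_psi {a : ℝ} (ha : 0 < a) (ha1 : a < 1) {z : ℂ} (hz : ‖z‖ < 1) :
    ‖(a * z / (1 - (1 - a) * z) : ℂ)‖ < 1 := by
  obtain ⟨h0, h1, h2⟩ := sab_lt ha ha1 (norm_nonneg z) hz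
  refine lt_of_le_of_lt ?_ h2
  rw [norm_div, norm_mul, Complex.norm_real, Real.norm_eq_abs, abs_of_pos ha]
  refine div_le_div_of_nonneg_left (by positivity) h0 ?_
  have e : ‖(1 - (a : ℂ)) * z‖ = (1 - a) * ‖z‖ := by
    rw [norm_mul, ← Complex.ofReal_one, ← Complex.ofReal_sub, Complex.norm_real,
      Real.norm_eq_abs, abs_of_pos (by linarith)]
  have h3 := norm_sub_norm_le (1 : ℂ) ((1 - (a : ℂ)) * z)
  rw [e, norm_one] at h3
  exact h3

end SIG

open SIG in
theorem sig (_h1 : S_SCH) (h2 : S_TWB) (h3 : S_EVL) (_h4 : S_ROW) : S_SIG := by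
  intro a b ha ha1 hb hb0 hanti hlow
  obtain ⟨hmat, -, hinj⟩ := h2 a b ha ha1.le hb hanti
  have hsJ : star (star J) = J := star_star J
  refine ⟨(1 - J * star J) + J * T a b * star J, J, ?_, JJ, ?_, ?_, ?_⟩
  · -- injectivity
    rw [injective_iff_map_eq_zero]
    intro x hx
    have e1 : T a b (star J x) = 0 := by
      have h := congrArg (fun v => (star J : L2 →L[ℂ] L2) v) hx
      have h' : (star J * ((1 - J * star J) + J * T a b * star J)) x = 0 :=
        h.trans (map_zero (star J : L2 →L[ℂ] L2))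
      have e : star J * ((1 - J * star J) + J * T a b * star J) = T a b * star J := by
        rw [mul_add, mul_sub, mul_one, ← mul_assoc, JJ, one_mul, sub_self, zero_add, ← mul_assoc,
          ← mul_assoc, JJ, one_mul]
      rw [e] at h'
      exact h'
    have e2 : star J x = 0 := hinj (by rw [e1, map_zero])
    have h' : x - J (star J x) + J (T a b (star J x)) = 0 := hx
    rw [e2, map_zero, map_zero, map_zero, sub_zero, add_zero] at h'
    exact h'
  · rw [add_mul, sub_mul, one_mul, mul_assoc J (star J), JJ, mul_one, sub_self, zero_add,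
      mul_assoc, JJ, mul_one]
  · rw [star_add, star_sub, star_one, star_mul, star_mul, star_mul, hsJ, add_mul, sub_mul, one_mul,
      mul_assoc J (star J), JJ, mul_one, sub_self, zero_add, mul_assoc, mul_assoc, JJ, mul_one]
  · -- the composition operator
    intro x z hz
    have hβ : ∀ j : ℕ, (1 / ((j : ℝ) + 1)) ^ 2 ≤ bet b j := by
      intro j
      cases j with
      | zero => show (1 / (((0 : ℕ) : ℝ) + 1)) ^ 2 ≤ 1; norm_num
      | succ k =>
        show (1 / (((k + 1 : ℕ) : ℝ) + 1)) ^ 2 ≤ b k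
        have h := hlow k 0 (Nat.zero_le _)
        rw [hb0, mul_one] at h
        refine le_trans ?_ h
        refine pow_le_pow_left₀ (by positivity) ?_ 2
        push_cast
        rw [zero_add]
        exact div_le_div_of_nonneg_left zero_le_one (by positivity) (by linarith)
    set ψ : ℂ := a * z / (1 - (1 - a) * z) with hψ
    have hψ1 : ‖ψ‖ < 1 := norm_psi ha ha1 hz
    set y : L2 := star J x with hy
    have hyk : ∀ k, y k = x (k + 1) := by
      intro k
      rw [hy, star_J]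
      rfl
    -- coordinates of `S x`
    set Sx : L2 := ((1 - J * star J) + J * T a b * star J) x with hSx
    have hSx' : Sx = x - J y + J (T a b y) := rfl
    have c0 : Sx 0 = x 0 := by
      rw [hSx']
      show x 0 - (J y) 0 + (J (T a b y)) 0 = x 0
      rw [J_zero, J_zero, sub_zero, add_zero]
    have c1 : ∀ k, Sx (k + 1) = T a b y k := by
      intro k
      rw [hSx']
      show x (k + 1) - (J y) (k + 1) + (J (T a b y)) (k + 1) = T a b y k
      rw [J_succ, J_succ, hyk, sub_self, zero_add]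
    -- both sides
    have s1 : Summable fun j => Sx j / (bet b j : ℂ) * z ^ j := (h3 (bet b) hβ Sx z hz).of_norm
    have s2 : Summable fun j => x j / (bet b j : ℂ) * ψ ^ j := (h3 (bet b) hβ x ψ hψ1).of_norm
    show evalH (bet b) Sx z = evalH (bet b) x ψ
    unfold evalH
    rw [s1.tsum_eq_zero_add, s2.tsum_eq_zero_add, c0, pow_zero, pow_zero]
    refine congrArg (fun u => x 0 / (bet b 0 : ℂ) * 1 + u) ?_
    -- the double series
    let F : ℕ × ℕ → ℂ := fun q => (y q.1 / (b q.1 : ℂ)) * ((t a q.2 q.1 : ℂ) * z ^ (q.2 + 1))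
    have ht0 : ∀ j k, 0 ≤ t a j k := by
      intro j k
      unfold t
      have : 0 ≤ 1 - a := by linarith
      positivity
    obtain ⟨-, r1, r2⟩ := sab_lt ha ha1 (norm_nonneg z) hz
    set ρ : ℝ := a * ‖z‖ / (1 - (1 - a) * ‖z‖) with hρ
    have hnorm : ∀ k, HasSum (fun j => ‖F (k, j)‖) (‖y k / (b k : ℂ)‖ * ρ ^ (k + 1)) := by
      intro k
      have h5 := hasSum_t a ha ha1 k (‖z‖ : ℂ) (by
        rw [Complex.norm_real, norm_norm]; exact hz)
      have h6 : HasSum (fun j => ((t a j k * ‖z‖ ^ (j + 1) : ℝ) : ℂ)) ((ρ ^ (k + 1) : ℝ) : ℂ) := by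
        have e1 : ((ρ ^ (k + 1) : ℝ) : ℂ) =
            ((a : ℂ) * (‖z‖ : ℂ) / (1 - (1 - (a : ℂ)) * (‖z‖ : ℂ))) ^ (k + 1) := by
          rw [hρ]
          push_cast
          rfl
        rw [e1]
        have e2 : (fun j => ((t a j k * ‖z‖ ^ (j + 1) : ℝ) : ℂ)) =
            fun j => (t a j k : ℂ) * (‖z‖ : ℂ) ^ (j + 1) := by
          funext j
          push_cast
          rfl
        rw [e2]
        exact h5
      have h7 : HasSum (fun j => t a j k * ‖z‖ ^ (j + 1)) (ρ ^ (k + 1)) :=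
        Complex.hasSum_ofReal.mp h6
      have h8 := h7.mul_left ‖y k / (b k : ℂ)‖
      have e3 : (fun j => ‖F (k, j)‖) =
          fun j => ‖y k / (b k : ℂ)‖ * (t a j k * ‖z‖ ^ (j + 1)) := by
        funext j
        show ‖(y k / (b k : ℂ)) * ((t a j k : ℂ) * z ^ (j + 1))‖ = _
        rw [norm_mul, norm_mul, norm_pow, Complex.norm_real, Real.norm_eq_abs,
          abs_of_nonneg (ht0 j k)]
      rw [e3]
      exact h8
    have hF : Summable F := by
      refine Summable.of_norm ?_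
      rw [summable_prod_of_nonneg (fun q => norm_nonneg _)]
      refine ⟨fun k => (hnorm k).summable, ?_⟩
      have e4 : (fun k => ∑' j, ‖F (k, j)‖) = fun k => ‖y k / (b k : ℂ)‖ * ρ ^ (k + 1) := by
        funext k
        exact (hnorm k).tsum_eq
      rw [e4]
      have h9 := h3 (bet b) hβ x (ρ : ℂ) (by
        rw [Complex.norm_real, Real.norm_eq_abs, abs_of_nonneg r1]; exact r2)
      have h10 := (summable_nat_add_iff 1).mpr h9
      have e5 : (fun k => ‖y k / (b k : ℂ)‖ * ρ ^ (k + 1)) =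
          fun k => ‖x (k + 1) / (bet b (k + 1) : ℂ) * (ρ : ℂ) ^ (k + 1)‖ := by
        funext k
        rw [norm_mul, norm_pow, Complex.norm_real, Real.norm_eq_abs, abs_of_nonneg r1, hyk]
        rfl
      rw [e5]
      exact h10
    have hF' : Summable (fun q : ℕ × ℕ => F (q.2, q.1)) := (Equiv.prodComm ℕ ℕ).summable_iff.mpr hF
    have t1 : HasSum (fun k => x (k + 1) / (bet b (k + 1) : ℂ) * ψ ^ (k + 1)) (∑' q, F q) := by
      refine hF.hasSum.prod_fiberwise fun k => ?_
      have := (hasSum_t a ha ha1 k z hz).mul_left (y k / (b k : ℂ))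
      rw [hyk] at this
      show HasSum (fun j => (y k / (b k : ℂ)) * ((t a j k : ℂ) * z ^ (j + 1))) _
      rw [hyk]
      exact this
    have t2 : HasSum (fun j => Sx (j + 1) / (bet b (j + 1) : ℂ) * z ^ (j + 1))
        (∑' q : ℕ × ℕ, F (q.2, q.1)) := by
      refine hF'.hasSum.prod_fiberwise fun j => ?_
      show HasSum (fun k => (y k / (b k : ℂ)) * ((t a j k : ℂ) * z ^ (j + 1))) _
      have e6 : Sx (j + 1) / (bet b (j + 1) : ℂ) * z ^ (j + 1) =
          ∑ k ∈ Finset.range (j + 1), (y k / (b k : ℂ)) * ((t a j k : ℂ) * z ^ (j + 1)) := by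
        rw [c1, hmat y j]
        show (∑ k ∈ Finset.range (j + 1), ((tw a b j k : ℝ) : ℂ) * y k) / (b j : ℂ) *
          z ^ (j + 1) = _
        rw [Finset.sum_div, Finset.sum_mul]
        refine Finset.sum_congr rfl fun k _ => ?_
        have hbj : (b j : ℂ) ≠ 0 := by exact_mod_cast (hb j).ne'
        have hbk : (b k : ℂ) ≠ 0 := by exact_mod_cast (hb k).ne'
        unfold tw
        push_cast
        field_simp
      rw [e6]
      refine hasSum_sum_of_ne_finset_zero fun k hk => ?_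
      rw [Finset.mem_range, not_lt] at hk
      have : t a j k = 0 := by
        unfold t
        rw [Nat.choose_eq_zero_of_lt (by omega)]
        simp
      rw [this]
      simp
    have e7 : ∑' q : ℕ × ℕ, F (q.2, q.1) = ∑' q, F q := (Equiv.prodComm ℕ ℕ).tsum_eq F
    rw [t2.tsum_eq, e7, ← t1.tsum_eq]

end Pool.Agent.H106.AL
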