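import Pool.Agent.H308.AL.Stm

/-! `S_SIM`: transfer of PUR to similar operators. -/

set_option autoImplicit false

open Filter Topology

noncomputable section

namespace Pool.Agent.H106.AL

open Pool.Agent.H308.AL

theorem sim (h1 : S_CMP) (h2 : S_ALU) : S_SIM := by
  intro H _ _ _ T R Y Z l D r hT hR hYZ hZY hYT hl hD hr hpur
  -- the iterates
  have key : ∀ n : ℕ, ∃ Y' Z' : H →L[ℂ] H, Function.Injective (it T n) ∧
      Function.Injective (it R n) ∧ Y' * Z' = 1 ∧ Z' * Y' = 1 ∧ Y' * it T n = it R n * Y' ∧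
      ‖Y'‖ ≤ ‖Y‖ ∧ ‖Z'‖ ≤ ‖Z‖ := by
    intro n
    induction n with
    | zero => exact ⟨Y, Z, hT, hR, hYZ, hZY, hYT, le_refl _, le_refl _⟩
    | succ n ih =>
      obtain ⟨Y₁, Z₁, i1, i2, i3, i4, i5, i6, i7⟩ := ih
      obtain ⟨Y₂, Z₂, j1, j2, j3, j4, j5⟩ := h1 H (it T n) (it R n) Y₁ Z₁ i1 i2 i3 i4 i5
      have e1 : it T (n + 1) = al (it T n) := Function.iterate_succ_apply' al n T
      have e2 : it R (n + 1) = al (it R n) := Function.iterate_succ_apply' al n R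
      rw [e1, e2]
      exact ⟨Y₂, Z₂, (h2 H (it T n) i1).2.2.1, (h2 H (it R n) i2).2.2.1, j1, j2, j3,
        j4.trans i6, j5.trans i7⟩
  refine ⟨‖Z‖ ^ r * D * ‖Y‖ * ‖Y‖ ^ (r - 1), by positivity, ?_⟩
  intro n k x
  obtain ⟨Y', Z', -, -, -, i4, i5, i6, i7⟩ := key n
  have hpow : ∀ j : ℕ, (it R n) ^ j * Y' = Y' * (it T n) ^ j := by
    intro j
    induction j with
    | zero => simp
    | succ j ih => rw [pow_succ', mul_assoc, ih, ← mul_assoc, ← i5, mul_assoc, ← pow_succ']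
  have a1 : ‖it T n x‖ ≤ ‖Z‖ * ‖it R n (Y' x)‖ := by
    have e1 : it T n x = Z' (Y' (it T n x)) := by
      have := congrArg (fun A : H →L[ℂ] H => A (it T n x)) i4
      exact this.symm
    have e2 : Y' (it T n x) = it R n (Y' x) :=
      congrArg (fun A : H →L[ℂ] H => A x) i5
    rw [e1, e2]
    exact (Z'.le_opNorm _).trans (mul_le_mul_of_nonneg_right i7 (norm_nonneg _))
  have a2 : ‖((it R n) ^ k) (Y' x)‖ ≤ ‖Y‖ * ‖((it T n) ^ k) x‖ := by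
    have e2 : ((it R n) ^ k) (Y' x) = Y' (((it T n) ^ k) x) :=
      congrArg (fun A : H →L[ℂ] H => A x) (hpow k)
    rw [e2]
    exact (Y'.le_opNorm _).trans (mul_le_mul_of_nonneg_right i6 (norm_nonneg _))
  have a3 : ‖Y' x‖ ≤ ‖Y‖ * ‖x‖ :=
    (Y'.le_opNorm _).trans (mul_le_mul_of_nonneg_right i6 (norm_nonneg _))
  calc ‖it T n x‖ ^ r * l ^ k ≤ (‖Z‖ * ‖it R n (Y' x)‖) ^ r * l ^ k :=
        mul_le_mul_of_nonneg_right (pow_le_pow_left₀ (norm_nonneg _) a1 r) (by positivity)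
    _ = ‖Z‖ ^ r * (‖it R n (Y' x)‖ ^ r * l ^ k) := by rw [mul_pow, mul_assoc]
    _ ≤ ‖Z‖ ^ r * (D * ‖((it R n) ^ k) (Y' x)‖ * ‖Y' x‖ ^ (r - 1)) :=
        mul_le_mul_of_nonneg_left (hpur n k (Y' x)) (by positivity)
    _ ≤ ‖Z‖ ^ r * (D * (‖Y‖ * ‖((it T n) ^ k) x‖) * (‖Y‖ * ‖x‖) ^ (r - 1)) := by
        refine mul_le_mul_of_nonneg_left ?_ (by positivity)
        exact mul_le_mul (mul_le_mul_of_nonneg_left a2 hD)
          (pow_le_pow_left₀ (norm_nonneg _) a3 _) (by positivity) (by positivity)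
    _ = ‖Z‖ ^ r * D * ‖Y‖ * ‖Y‖ ^ (r - 1) * ‖((it T n) ^ k) x‖ * ‖x‖ ^ (r - 1) := by
        rw [mul_pow]
        ring

end Pool.Agent.H106.AL
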