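import Pool.Agent.H308.AL.Stm

set_option autoImplicit false

open Filter Topology

noncomputable section

namespace Pool.Agent.H975.AL

open Pool.Agent.H308.AL

variable {H : Type} [NormedAddCommGroup H] [InnerProductSpace ℂ H] [CompleteSpace H]

theorem pow_eq (L : H →L[ℂ] H) (hQ : QuasiNormal L) (k : ℕ) :
    star (L ^ k) * L ^ k = (star L * L) ^ k := by
  have hc : Commute L (star L * L) := hQ
  induction k with
  | zero => simp
  | succ k ih =>
    have h1 : L ^ k * (star L * L) = (star L * L) * L ^ k := (hc.pow_left k).eq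
    calc star (L ^ (k + 1)) * L ^ (k + 1)
        = star (L ^ k) * ((star L * L) * L ^ k) := by
          rw [pow_succ' L k, star_mul]; simp only [mul_assoc]
      _ = star (L ^ k) * (L ^ k * (star L * L)) := by rw [h1]
      _ = (star (L ^ k) * L ^ k) * (star L * L) := by simp only [mul_assoc]
      _ = (star L * L) ^ (k + 1) := by rw [ih, pow_succ]

theorem norm_eq (L : H →L[ℂ] H) (hQ : QuasiNormal L) (k : ℕ) (x : H) :
    ‖(L ^ k) x‖ ^ 2 = (inner ℂ (((star L * L) ^ k) x) x).re := by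
  rw [← pow_eq L hQ k]
  have := ContinuousLinearMap.apply_norm_sq_eq_inner_adjoint_left (L ^ k) x
  exact this

theorem sa (L : H →L[ℂ] H) (k : ℕ) : IsSelfAdjoint ((star L * L) ^ k) :=
  (IsSelfAdjoint.star_mul_self L).pow k

theorem symm_of_sa (B : H →L[ℂ] H) (hB : IsSelfAdjoint B) (r : ℝ) :
    IsSelfAdjoint (algebraMap ℝ (H →L[ℂ] H) r) ∧ IsSelfAdjoint (B - algebraMap ℝ (H →L[ℂ] H) r) ∧
      IsSelfAdjoint (algebraMap ℝ (H →L[ℂ] H) r - B) := by
  have h : IsSelfAdjoint (algebraMap ℝ (H →L[ℂ] H) r) := IsSelfAdjoint.algebraMap _ (.all r)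
  exact ⟨h, hB.sub h, h.sub hB⟩

omit [CompleteSpace H] in
theorem re_alg (r : ℝ) (x : H) :
    (inner ℂ ((algebraMap ℝ (H →L[ℂ] H) r) x) x).re = r * ‖x‖ ^ 2 := by
  have h : (algebraMap ℝ (H →L[ℂ] H) r) x = (r : ℂ) • x := by
    rw [Algebra.algebraMap_eq_smul_one]
    simp
  rw [h, inner_smul_left, inner_self_eq_norm_sq_to_K]
  simp [← Complex.ofReal_pow, ← Complex.ofReal_mul]

theorem alg_le (B : H →L[ℂ] H) (hB : IsSelfAdjoint B) (r : ℝ) :
    algebraMap ℝ (H →L[ℂ] H) r ≤ B ↔ ∀ x : H, r * ‖x‖ ^ 2 ≤ (inner ℂ (B x) x).re := by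
  rw [ContinuousLinearMap.le_def, ContinuousLinearMap.isPositive_def]
  have hs := (symm_of_sa B hB r).2.1
  constructor
  · rintro ⟨-, h⟩ x
    have h1 : 0 ≤ (inner ℂ ((B - algebraMap ℝ (H →L[ℂ] H) r) x) x).re := h x
    rw [_root_.sub_apply, inner_sub_left, Complex.sub_re, re_alg] at h1
    linarith
  · intro h
    refine ⟨ContinuousLinearMap.isSelfAdjoint_iff_isSymmetric.1 hs, fun x => ?_⟩
    show 0 ≤ (inner ℂ ((B - algebraMap ℝ (H →L[ℂ] H) r) x) x).re
    rw [_root_.sub_apply, inner_sub_left, Complex.sub_re, re_alg]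
    linarith [h x]

theorem le_alg (B : H →L[ℂ] H) (hB : IsSelfAdjoint B) (r : ℝ) :
    B ≤ algebraMap ℝ (H →L[ℂ] H) r ↔ ∀ x : H, (inner ℂ (B x) x).re ≤ r * ‖x‖ ^ 2 := by
  rw [ContinuousLinearMap.le_def, ContinuousLinearMap.isPositive_def]
  have hs := (symm_of_sa B hB r).2.2
  constructor
  · rintro ⟨-, h⟩ x
    have h1 : 0 ≤ (inner ℂ ((algebraMap ℝ (H →L[ℂ] H) r - B) x) x).re := h x
    rw [_root_.sub_apply, inner_sub_left, Complex.sub_re, re_alg] at h1
    linarith
  · intro h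
    refine ⟨ContinuousLinearMap.isSelfAdjoint_iff_isSymmetric.1 hs, fun x => ?_⟩
    show 0 ≤ (inner ℂ ((algebraMap ℝ (H →L[ℂ] H) r - B) x) x).re
    rw [_root_.sub_apply, inner_sub_left, Complex.sub_re, re_alg]
    linarith [h x]

/-- if `(t / s)^k ≤ C` for all `k` then `t ≤ s` -/
theorem le_of_pow (s t C : ℝ) (hs : 0 < s) (h : ∀ k : ℕ, t ^ k ≤ C * s ^ k) : t ≤ s := by
  by_contra hlt
  push Not at hlt
  have h1 : 1 < t / s := by rw [lt_div_iff₀ hs]; linarith
  obtain ⟨k, hk⟩ := pow_unbounded_of_one_lt C h1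
  have h2 := h k
  rw [div_pow, lt_div_iff₀ (pow_pos hs k)] at hk
  linarith

theorem spc : S_SPC := by
  intro H _ _ _ L l c hl hc hQ
  have hA : IsSelfAdjoint (star L * L) := IsSelfAdjoint.star_mul_self L
  have n1 : ∀ x : H, ‖L x‖ ^ 2 = (inner ℂ ((star L * L) x) x).re := by
    intro x
    have := norm_eq L hQ 1 x
    simpa using this
  constructor
  · intro h x
    have h1 : algebraMap ℝ (H →L[ℂ] H) (l ^ 2) ≤ star L * L := by
      rw [algebraMap_le_iff_le_spectrum hA]
      intro t ht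
      have ht0 : 0 ≤ t := spectrum_nonneg_of_nonneg (star_mul_self_nonneg L) ht
      have hk : ∀ k : ℕ, (l ^ 2) ^ k ≤ (1 / c ^ 2) * t ^ k := by
        intro k
        have h2 : algebraMap ℝ (H →L[ℂ] H) (c ^ 2 * (l ^ 2) ^ k) ≤ (star L * L) ^ k := by
          rw [alg_le _ (sa L k)]
          intro y
          rw [← norm_eq L hQ k y]
          have h3 := h k y
          have h4 : 0 ≤ c * l ^ k * ‖y‖ := by positivity
          have h5 := mul_self_le_mul_self h4 h3
          have e : (l ^ 2) ^ k = l ^ k * l ^ k := by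
            rw [← pow_mul, mul_comm 2 k, pow_mul, sq]
          rw [e]
          have e2 : c ^ 2 * (l ^ k * l ^ k) * ‖y‖ ^ 2 = c * l ^ k * ‖y‖ * (c * l ^ k * ‖y‖) := by ring
          rw [e2, sq ‖(L ^ k) y‖]
          exact h5
        rw [algebraMap_le_iff_le_spectrum (sa L k)] at h2
        have h6 := h2 _ (spectrum.pow_mem_pow (star L * L) k ht)
        have hc2 : 0 < c ^ 2 := by positivity
        rw [div_mul_eq_mul_div, one_mul, le_div_iff₀ hc2]
        linarith
      rcases ht0.eq_or_lt with h0 | h0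
      · exfalso
        have := hk 1
        rw [← h0] at this
        have hl2 : 0 < l ^ 2 := by positivity
        simp at this
        linarith
      · exact le_of_pow t (l ^ 2) (1 / c ^ 2) h0 hk
    rw [alg_le _ hA] at h1
    have h2 := h1 x
    rw [← n1 x] at h2
    have h3 : (l * ‖x‖) ^ 2 ≤ ‖L x‖ ^ 2 := by rw [mul_pow]; exact h2
    exact (sq_le_sq₀ (by positivity) (norm_nonneg _)).1 h3
  · intro h x
    have h1 : star L * L ≤ algebraMap ℝ (H →L[ℂ] H) (l ^ 2) := by
      rw [le_algebraMap_iff_spectrum_le hA]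
      intro t ht
      have hk : ∀ k : ℕ, t ^ k ≤ c ^ 2 * (l ^ 2) ^ k := by
        intro k
        have h2 : (star L * L) ^ k ≤ algebraMap ℝ (H →L[ℂ] H) (c ^ 2 * (l ^ 2) ^ k) := by
          rw [le_alg _ (sa L k)]
          intro y
          rw [← norm_eq L hQ k y]
          have h3 := h k y
          have h5 := mul_self_le_mul_self (norm_nonneg _) h3
          have e : (l ^ 2) ^ k = l ^ k * l ^ k := by
            rw [← pow_mul, mul_comm 2 k, pow_mul, sq]
          rw [e]
          have e2 : c ^ 2 * (l ^ k * l ^ k) * ‖y‖ ^ 2 = c * l ^ k * ‖y‖ * (c * l ^ k * ‖y‖) := by ring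
          rw [e2, sq ‖(L ^ k) y‖]
          exact h5
        rw [le_algebraMap_iff_spectrum_le (sa L k)] at h2
        exact h2 _ (spectrum.pow_mem_pow (star L * L) k ht)
      exact le_of_pow (l ^ 2) t (c ^ 2) (by positivity) hk
    rw [le_alg _ hA] at h1
    have h2 := h1 x
    rw [← n1 x] at h2
    have h3 : ‖L x‖ ^ 2 ≤ (l * ‖x‖) ^ 2 := by rw [mul_pow]; exact h2
    exact (sq_le_sq₀ (norm_nonneg _) (by positivity)).1 h3

end Pool.Agent.H975.AL

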