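import Pool.Agent.H308.AL.Stm

set_option autoImplicit false

open Filter Topology
open scoped NNReal

noncomputable section

namespace Pool.Agent.H671.AL

open Pool.Agent.H308.AL

section

variable {H : Type} [NormedAddCommGroup H] [InnerProductSpace ℂ H] [CompleteSpace H]

theorem csm (m : ℝ) (X : H →L[ℂ] H) : (m : ℂ) • X = m • X := by
  ext x
  simp

theorem smul_mono {m : ℝ} (hm : 0 ≤ m) {X Y : H →L[ℂ] H} (h : X ≤ Y) : m • X ≤ m • Y := by
  exact smul_le_smul_of_nonneg_left h hm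

theorem smul_nn {m : ℝ} (hm : 0 ≤ m) {X : H →L[ℂ] H} (h : 0 ≤ X) : 0 ≤ m • X := by
  exact smul_nonneg hm h

theorem rpow_pos_add {X : H →L[ℂ] H} {x y : ℝ} (hx : 0 < x) (hy : 0 < y) :
    X ^ (x + y) = X ^ x * X ^ y := by
  have h := CFC.nnrpow_add (a := X) (x := ⟨x, hx.le⟩) (y := ⟨y, hy.le⟩) hx hy
  rw [CFC.nnrpow_eq_rpow, CFC.nnrpow_eq_rpow, CFC.nnrpow_eq_rpow] at h
  · exact h
  · exact hy
  · exact hx
  · exact add_pos hx hy

theorem smul_rpow {m q : ℝ} (hm : 0 ≤ m) {X : H →L[ℂ] H} (h : 0 ≤ X) (hq : 0 < q) :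
    (m • X) ^ q = (m ^ q) • X ^ q := by
  rw [CFC.rpow_eq_cfc_real (ha := smul_nn hm h), CFC.rpow_eq_cfc_real (ha := h)]
  have hc : Continuous fun x : ℝ => x ^ q := Real.continuous_rpow_const hq.le
  rw [← cfc_comp_smul m (fun x : ℝ => x ^ q) X (hc.continuousOn) (ha := IsSelfAdjoint.of_nonneg h)]
  rw [← cfc_const_mul (m ^ q) (fun x : ℝ => x ^ q) X hc.continuousOn]
  apply cfc_congr
  intro x hx
  have hx0 : 0 ≤ x := spectrum_nonneg_of_nonneg h hx
  simp only [smul_eq_mul]
  rw [Real.mul_rpow hm hx0]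

theorem sqrt_smul {m : ℝ} (hm : 0 ≤ m) {X : H →L[ℂ] H} (h : 0 ≤ X) :
    CFC.sqrt (m • X) = Real.sqrt m • CFC.sqrt X := by
  refine CFC.sqrt_unique ?_ (smul_nn (Real.sqrt_nonneg m) (CFC.sqrt_nonneg X))
  rw [smul_mul_smul_comm, Real.mul_self_sqrt hm, CFC.sqrt_mul_sqrt_self X h]

theorem sqrt_rpow' {X : H →L[ℂ] H} {x : ℝ} (hx : 0 ≤ x) : CFC.sqrt (X ^ x) = X ^ (x / 2) := by
  exact CFC.sqrt_rpow_nnreal (a := X) (x := ⟨x, hx⟩)

theorem sq_rpow {X : H →L[ℂ] H} (h : 0 ≤ X) {q : ℝ} (hq : 0 < q) :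
    CFC.sqrt ((X * X) ^ q) = X ^ q := by
  have h1 : (X * X) ^ q = X ^ q * X ^ q := by
    rw [← rpow_pos_add hq hq]
    have h2 : X * X = X ^ (2 : ℝ) := by
      rw [show (2 : ℝ) = 1 + 1 by norm_num, rpow_pos_add one_pos one_pos, CFC.rpow_one X h]
    rw [h2, CFC.rpow_rpow_of_exponent_nonneg X 2 q (by norm_num) hq.le h]
    congr 1
    ring
  rw [h1]
  exact CFC.sqrt_mul_self _ CFC.rpow_nonneg

end

theorem step (h1 : S_INT2) (h2 : S_ALU) (h3 : S_BAS) (h4 : S_FUR) : S_STEP := by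
  intro H _ _ _ T q M hT hq0 hq1 hM hyp
  have hM0 : (0 : ℝ) ≤ M := by linarith
  have hMp : (0 : ℝ) < M := by linarith
  obtain ⟨-, -, hinj, -, U, hU1, hUB, hal⟩ := h2 H T hT
  obtain ⟨hB0, hh0, hBB, hhh, -, -⟩ := h3 H T
  obtain ⟨hC0, -, hCC, -, -, -⟩ := h3 H (star T)
  obtain ⟨hE0, -, hEE, -, -, -⟩ := h3 H (al T)
  obtain ⟨hD0, -, hDD, -, -, -⟩ := h3 H (star (al T))
  rw [star_star] at hCC hDD
  set B := ab T with hB
  set C := ab (star T) with hC
  set h := hf T with hh
  set E := ab (al T) with hE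
  set D := ab (star (al T)) with hD
  have sB : star B = B := (IsSelfAdjoint.of_nonneg hB0)
  have sh : star h = h := (IsSelfAdjoint.of_nonneg hh0)
  have sT : star T = B * star U := by rw [← hUB, star_mul, sB]
  -- C = U B U*
  have hUBU : 0 ≤ U * B * star U := star_right_conjugate_nonneg hB0 U
  have hCeq : C = U * B * star U := by
    have e1 : (U * B * star U) * (U * B * star U) = C * C := by
      rw [hCC, sT]
      calc (U * B * star U) * (U * B * star U) = U * B * (star U * U) * (B * star U) := by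
            simp only [mul_assoc]
        _ = T * (B * star U) := by rw [hU1, mul_one, hUB]
    have e2 := CFC.sqrt_mul_self C hC0
    have e3 := CFC.sqrt_mul_self (U * B * star U) hUBU
    rw [e1, e2] at e3
    exact e3
  have hCU : C * U = U * B := by
    rw [hCeq]
    calc U * B * star U * U = U * B * (star U * U) := by simp only [mul_assoc]
      _ = U * B := by rw [hU1, mul_one]
  have hCq := (h1 H C B U hC0 hB0 hCU).2 q hq0.le
  have hBq : star U * C ^ q * U = B ^ q := by
    rw [mul_assoc, hCq, ← mul_assoc, hU1, one_mul]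
  rw [csm] at hyp
  have i1 : B ^ q ≤ M • (star U * B * U) := by
    have := star_left_conjugate_le_conjugate hyp U
    rw [hBq] at this
    refine this.trans (le_of_eq ?_)
    rw [mul_smul_comm, smul_mul_assoc]
  have sal : star (al T) = h * star U * h := by
    rw [hal, star_mul, star_mul, sh, mul_assoc]
  have hEE' : E * E = h * (star U * B * U) * h := by
    rw [hEE, sal, hal]
    calc h * star U * h * (h * U * h) = h * star U * (h * h) * U * h := by simp only [mul_assoc]
      _ = h * (star U * B * U) * h := by rw [hhh]; simp only [mul_assoc]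
  have hDD' : D * D = h * C * h := by
    rw [hDD, sal, hal, hCeq]
    calc h * U * h * (h * star U * h) = h * U * (h * h) * star U * h := by simp only [mul_assoc]
      _ = h * (U * B * star U) * h := by rw [hhh]; simp only [mul_assoc]
  have hBh : B * h = h * B := by rw [← hhh, mul_assoc]
  have hBqh := (h1 H B B h hB0 hB0 hBh).2 q hq0.le
  have hB1q : h * B ^ q * h = B ^ (1 + q) := by
    rw [← hBqh, mul_assoc, hhh, add_comm, rpow_pos_add hq0 one_pos, CFC.rpow_one B hB0]
  have i2 : B ^ (1 + q) ≤ M • (E * E) := by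
    rw [← hB1q, hEE']
    have := star_left_conjugate_le_conjugate i1 h
    rw [sh] at this
    refine this.trans (le_of_eq ?_)
    rw [mul_smul_comm, smul_mul_assoc]
  have hEEn : 0 ≤ E * E := by
    rw [hEE]; exact star_mul_self_nonneg _
  constructor
  · rw [csm]
    have f1 := h4 H (M • B) C q hq0 hq1 (smul_nn hM0 hB0) hC0 hyp
    have f2 : CFC.sqrt (M • B) = Real.sqrt M • h := by rw [sqrt_smul hM0 hB0]; rfl
    rw [f2, smul_mul_assoc, smul_mul_smul_comm, Real.mul_self_sqrt hM0, ← hDD',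
      smul_rpow hM0 (by rw [hDD]; exact mul_star_self_nonneg _) hq0,
      smul_rpow hM0 hB0 (by linarith)] at f1
    have f3 : (D * D) ^ q ≤ M • B ^ (1 + q) := by
      have hMq : (0 : ℝ) < M ^ q := Real.rpow_pos_of_pos hMp q
      have := smul_mono (inv_nonneg.mpr hMq.le) f1
      rw [smul_smul, smul_smul, inv_mul_cancel₀ hMq.ne', one_smul] at this
      refine this.trans (le_of_eq ?_)
      congr 1
      rw [Real.rpow_add hMp, Real.rpow_one]
      field_simp
    have f4 : (D * D) ^ q ≤ (M * M) • (E * E) := by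
      refine f3.trans ((smul_mono hM0 i2).trans (le_of_eq ?_))
      rw [smul_smul]
    have f5 := CFC.monotone_sqrt f4
    rw [sq_rpow hD0 hq0, sqrt_smul (mul_nonneg hM0 hM0) hEEn, Real.sqrt_mul_self hM0,
      CFC.sqrt_mul_self E hE0] at f5
    exact f5
  · rw [csm]
    have f5 := CFC.monotone_sqrt i2
    rw [sqrt_rpow' (by linarith), sqrt_smul hM0 hEEn, CFC.sqrt_mul_self E hE0] at f5
    exact f5

end Pool.Agent.H671.AL
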