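import Pool.Agent.H308.AL.Stm

/-!
# `s ↦ T a (bs s)` is *-strongly continuous
-/

set_option autoImplicit false

open Filter Topology

noncomputable section

namespace Pool.Agent.H670.AL

open Pool.Agent.H308.AL

/-- the basis vectors -/
def e (k : ℕ) : L2 := lp.single 2 k (1 : ℂ)

lemma e_apply (k j : ℕ) : (e k) j = if j = k then (1 : ℂ) else 0 := by
  show (Pi.single k (1 : ℂ) : ℕ → ℂ) j = _
  rw [Pi.single_apply]

lemma cont_of_basis {X : Type} [TopologicalSpace X] (A : X → L2 →L[ℂ] L2) (M : ℝ)
    (hM : ∀ s, ‖A s‖ ≤ M) (h : ∀ k, Continuous fun s => A s (e k)) (x : L2) :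
    Continuous fun s => A s x := by
  have hs := lp.hasSum_single (E := fun _ : ℕ => ℂ) (p := 2) (by norm_num) x
  have hF : ∀ F : Finset ℕ, Continuous fun s => A s (∑ k ∈ F, lp.single 2 k (x k)) := by
    intro F
    have e1 : (fun s => A s (∑ k ∈ F, lp.single 2 k (x k))) =
        fun s => ∑ k ∈ F, x k • A s (e k) := by
      funext s
      rw [map_sum]
      refine Finset.sum_congr rfl fun k _ => ?_
      rw [← map_smul]
      congr 1
      unfold e
      rw [← lp.single_smul, smul_eq_mul, mul_one]
    rw [e1]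
    exact continuous_finsetSum _ fun k _ =>
      (continuous_const_smul (T := L2) ((x k : ℂ))).comp (h k)
  refine continuous_of_uniform_approx_of_continuous fun u hu => ?_
  obtain ⟨ε, hε, hu⟩ := Metric.mem_uniformity_dist.mp hu
  have hM0 : 0 < |M| + 1 := by positivity
  have ht := (Metric.tendsto_atTop.mp hs (ε / (|M| + 1)) (by positivity))
  obtain ⟨F, hF'⟩ := ht
  have h2 := hF' F le_rfl
  refine ⟨_, hF F, fun s => hu ?_⟩
  rw [dist_eq_norm] at h2 ⊢
  rw [← map_sub]
  have h3 : ‖x - ∑ k ∈ F, lp.single 2 k (x k)‖ < ε / (|M| + 1) := by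
    rw [norm_sub_rev]; exact h2
  calc ‖A s (x - ∑ k ∈ F, lp.single 2 k (x k))‖ ≤
      ‖A s‖ * ‖x - ∑ k ∈ F, lp.single 2 k (x k)‖ := (A s).le_opNorm _
    _ ≤ (|M| + 1) * ‖x - ∑ k ∈ F, lp.single 2 k (x k)‖ := by
        refine mul_le_mul_of_nonneg_right ?_ (norm_nonneg _)
        have := hM s
        have := le_abs_self M
        linarith
    _ < ε := by
        rw [lt_div_iff₀ hM0] at h3
        linarith

lemma cont_of_coord {X : Type} [TopologicalSpace X] (v : X → L2) (B : ℕ → ℝ) (hB : Summable B)
    (hv : ∀ j, Continuous fun s => (v s) j) (hb : ∀ s j, ‖(v s) j‖ ≤ B j) : Continuous v := by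
  have e1 : v = fun s => ∑' j, lp.single 2 j ((v s) j) := by
    funext s
    exact (lp.hasSum_single (E := fun _ : ℕ => ℂ) (p := 2) (by norm_num) (v s)).tsum_eq.symm
  rw [e1]
  refine continuous_tsum (fun j => ?_) hB fun j s => ?_
  · exact (lp.isometry_single (E := fun _ : ℕ => ℂ) (p := 2) j).continuous.comp (hv j)
  · rw [lp.norm_single (by norm_num)]
    exact hb s j

lemma bs_cont (k : ℕ) : Continuous fun s : ℕ → Bool => bs s k := by
  induction k with
  | zero => exact continuous_const
  | succ k ih =>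
    have e1 : (fun s : ℕ → Bool => bs s (k + 1)) = fun s => bs s k *
        (fun b : Bool => if b then (1 : ℝ) else (((k : ℝ) + 1) / ((k : ℝ) + 2)) ^ 2) (s k) := by
      funext s
      show (if s k then bs s k else bs s k * (((k : ℝ) + 1) / ((k : ℝ) + 2)) ^ 2) = _
      by_cases h : s k = true
      · simp [h]
      · simp [h]
    have hg : Continuous (fun b : Bool => if b then (1 : ℝ) else
        (((k : ℝ) + 1) / ((k : ℝ) + 2)) ^ 2) := continuous_of_discreteTopology
    rw [e1]
    exact ih.mul (hg.comp (continuous_apply k))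

theorem tco (h1 : S_TWB) (h2 : S_ROW) (h3 : S_WTS) : S_TCO := by
  intro a ha ha1
  have hT : ∀ s : ℕ → Bool, IsMat (tw a (bs s)) (T a (bs s)) ∧
      ‖T a (bs s)‖ ≤ Real.sqrt a ∧ Function.Injective (T a (bs s)) := fun s =>
    h1 a (bs s) ha ha1.le (h3 s).1 (h3 s).2.1
  obtain ⟨r1, r2, r3⟩ := h2 a ha ha1.le
  have hz : ∀ j k : ℕ, j < k → t a j k = 0 := by
    intro j k h
    unfold t
    rw [Nat.choose_eq_zero_of_lt h]
    simp
  have hbd : ∀ (s : ℕ → Bool) (j k : ℕ), ‖((tw a (bs s) j k : ℝ) : ℂ)‖ ≤ t a j k := by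
    intro s j k
    rw [Complex.norm_real, Real.norm_eq_abs]
    unfold tw
    rcases lt_or_ge j k with h | h
    · rw [hz j k h, zero_mul, abs_zero]
    · have hj := (h3 s).1 j
      have hk := (h3 s).1 k
      have hjk := (h3 s).2.1 j k h
      rw [abs_of_nonneg (mul_nonneg (r1 j k) (by positivity))]
      exact mul_le_of_le_one_right (r1 j k) ((div_le_one hk).mpr hjk)
  have hct : ∀ j k : ℕ, Continuous fun s : ℕ → Bool => ((tw a (bs s) j k : ℝ) : ℂ) := by
    intro j k
    unfold tw
    exact Complex.continuous_ofReal.comp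
      (continuous_const.mul ((bs_cont j).div (bs_cont k) fun s => ((h3 s).1 k).ne'))
  have hco : ∀ (s : ℕ → Bool) (k j : ℕ), (T a (bs s) (e k)) j = ((tw a (bs s) j k : ℝ) : ℂ) := by
    intro s k j
    rw [(hT s).1 (e k) j]
    have e1 : ∀ i ∈ Finset.range (j + 1), ((tw a (bs s) j i : ℝ) : ℂ) * (e k) i =
        if i = k then ((tw a (bs s) j k : ℝ) : ℂ) else 0 := by
      intro i _
      rw [e_apply]
      by_cases h : i = k
      · subst h; simp
      · simp [h]
    rw [Finset.sum_congr rfl e1, Finset.sum_ite_eq']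
    by_cases h : k ∈ Finset.range (j + 1)
    · rw [if_pos h]
    · rw [if_neg h]
      have h' : j < k := by
        rw [Finset.mem_range] at h
        omega
      unfold tw
      rw [hz j k h', zero_mul, Complex.ofReal_zero]
  refine ⟨⟨Real.sqrt a, fun s => (hT s).2.1⟩, ?_, ?_⟩
  · refine cont_of_basis _ (Real.sqrt a) (fun s => (hT s).2.1) fun k => ?_
    refine cont_of_coord _ (fun j => t a j k) ?_ (fun j => ?_) fun s j => ?_
    · refine summable_of_sum_range_le (c := 1) (fun j => r1 j k) fun N => ?_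
      refine le_trans ?_ (r3 k N)
      rw [Finset.range_eq_Ico]
      rcases le_or_gt k N with hkN | hkN
      · rw [← Finset.sum_Ico_consecutive _ (Nat.zero_le k) hkN]
        have : ∑ i ∈ Finset.Ico 0 k, t a i k = 0 :=
          Finset.sum_eq_zero fun i hi => hz i k (Finset.mem_Ico.mp hi).2
        rw [this, zero_add]
      · have : ∑ i ∈ Finset.Ico 0 N, t a i k = 0 :=
          Finset.sum_eq_zero fun i hi => hz i k (lt_trans (Finset.mem_Ico.mp hi).2 hkN)
        rw [this]
        exact Finset.sum_nonneg fun i _ => r1 i k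
    · simp only [hco]
      exact hct j k
    · rw [hco]
      exact hbd s j k
  · have hn : ∀ s : ℕ → Bool, ‖star (T a (bs s))‖ ≤ Real.sqrt a := fun s => by
      rw [ContinuousLinearMap.star_eq_adjoint, LinearIsometryEquiv.norm_map]; exact (hT s).2.1
    have hst : ∀ (s : ℕ → Bool) (j k : ℕ),
        (star (T a (bs s)) (e j)) k = ((tw a (bs s) j k : ℝ) : ℂ) := by
      intro s j k
      have e1 : inner ℂ (e k) (star (T a (bs s)) (e j)) = inner ℂ (T a (bs s) (e k)) (e j) := by
        rw [ContinuousLinearMap.star_eq_adjoint, ContinuousLinearMap.adjoint_inner_right]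
      have e2 : inner ℂ (e k) (star (T a (bs s)) (e j)) = (star (T a (bs s)) (e j)) k := by
        unfold e
        rw [lp.inner_single_left]
        simp
      have e3 : inner ℂ (T a (bs s) (e k)) (e j) = (starRingEnd ℂ) ((T a (bs s) (e k)) j) := by
        conv_lhs => rw [show e j = lp.single 2 j (1 : ℂ) from rfl]
        rw [lp.inner_single_right]
        simp
      rw [← e2, e1, e3, hco, Complex.conj_ofReal]
    refine cont_of_basis _ (Real.sqrt a) hn fun j => ?_
    refine cont_of_coord _ (fun k => t a j k) ?_ (fun k => ?_) fun s k => ?_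
    · refine summable_of_ne_finset_zero (s := Finset.range (j + 1)) fun k hk => ?_
      rw [Finset.mem_range] at hk
      exact hz j k (by omega)
    · simp only [hst]
      exact hct j k
    · rw [hst]
      exact hbd s j k

end Pool.Agent.H670.AL
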