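import Pool.Agent.H308.AL.Stm

/-! Project AL (helper308), part TOT: totality of the kernel vectors (helper415). -/

set_option autoImplicit false

open Filter Topology
open scoped InnerProductSpace

namespace Pool.Agent.H415.AL

open Pool.Agent.H308.AL

theorem mem_kv {w : ℝ} (h0 : 0 ≤ w) (h1 : w < 1) :
    Memℓp (fun k : ℕ => ((w ^ k : ℝ) : ℂ)) 2 := by
  refine memℓp_gen ?_
  have h2 : Summable fun k : ℕ => (w ^ 2) ^ k :=
    summable_geometric_of_lt_one (by positivity) (by nlinarith)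
  refine h2.congr fun k => ?_
  rw [Complex.norm_real, Real.norm_eq_abs, abs_of_nonneg (pow_nonneg h0 k)]
  simp only [ENNReal.toReal_ofNat, Real.rpow_ofNat]
  ring

theorem kv_apply {w : ℝ} (h0 : 0 ≤ w) (h1 : w < 1) (k : ℕ) : (kv w) k = ((w ^ k : ℝ) : ℂ) := by
  rw [kv, dif_pos (mem_kv h0 h1)]

theorem norm_le (x : L2) (k : ℕ) : ‖x k‖ ≤ ‖x‖ := lp.norm_apply_le_norm (by norm_num) x k

theorem summ (x : L2) (n : ℕ) {w : ℝ} (h0 : 0 ≤ w) (h1 : w < 1) :
    Summable fun k : ℕ => x (k + n) * ((w ^ k : ℝ) : ℂ) := by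
  refine Summable.of_norm_bounded (g := fun k => ‖x‖ * w ^ k)
    ((summable_geometric_of_lt_one h0 h1).mul_left _) fun k => ?_
  rw [norm_mul, Complex.norm_real, Real.norm_eq_abs, abs_of_nonneg (pow_nonneg h0 k)]
  exact mul_le_mul_of_nonneg_right (norm_le x _) (pow_nonneg h0 k)

theorem tsum_bd (x : L2) (n : ℕ) {w : ℝ} (h0 : 0 ≤ w) (h1 : w ≤ 1 / 2) :
    ‖∑' k : ℕ, x (k + n) * ((w ^ k : ℝ) : ℂ)‖ ≤ ‖x‖ * 2 := by
  have h2 : HasSum (fun k : ℕ => ‖x‖ * (1 / 2 : ℝ) ^ k) (‖x‖ * 2) :=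
    hasSum_geometric_two.mul_left _
  refine tsum_of_norm_bounded h2 fun k => ?_
  rw [norm_mul, Complex.norm_real, Real.norm_eq_abs, abs_of_nonneg (pow_nonneg h0 k)]
  exact mul_le_mul (norm_le x _) (pow_le_pow_left₀ h0 h1 k) (pow_nonneg h0 k) (norm_nonneg _)

/-- identity theorem -/
theorem ident (x : L2) (h : ∀ w : ℝ, 0 ≤ w → w < 1 → ∑' k : ℕ, x k * ((w ^ k : ℝ) : ℂ) = 0)
    (n : ℕ) : x n = 0 := by
  induction n using Nat.strong_induction_on with
  | _ n ih =>
    have key : ∀ w : ℝ, 0 < w → w ≤ 1 / 2 → ‖x n‖ ≤ w * (‖x‖ * 2) := by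
      intro w hw0 hw1
      have hw : w < 1 := by linarith
      have h1 := h w hw0.le hw
      have hs : Summable fun k : ℕ => x k * ((w ^ k : ℝ) : ℂ) := summ x 0 hw0.le hw
      rw [← hs.sum_add_tsum_nat_add n, Finset.sum_eq_zero (fun k hk => by
        rw [ih k (Finset.mem_range.1 hk), zero_mul]), zero_add] at h1
      have h2 : ∑' k : ℕ, x (k + n) * ((w ^ (k + n) : ℝ) : ℂ) =
          ((w ^ n : ℝ) : ℂ) * ∑' k : ℕ, x (k + n) * ((w ^ k : ℝ) : ℂ) := by
        rw [← tsum_mul_left]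
        refine tsum_congr fun k => ?_
        rw [pow_add]
        push_cast
        ring
      rw [h2] at h1
      have h3 : ((w ^ n : ℝ) : ℂ) ≠ 0 := by
        rw [Complex.ofReal_ne_zero]
        exact pow_ne_zero n hw0.ne'
      have h4 := (mul_eq_zero.1 h1).resolve_left h3
      rw [(summ x n hw0.le hw).tsum_eq_zero_add] at h4
      have h5 : ∑' k : ℕ, x (k + 1 + n) * ((w ^ (k + 1) : ℝ) : ℂ) =
          (w : ℂ) * ∑' k : ℕ, x (k + (1 + n)) * ((w ^ k : ℝ) : ℂ) := by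
        rw [← tsum_mul_left]
        refine tsum_congr fun k => ?_
        rw [pow_succ, add_assoc k 1 n]
        push_cast
        ring
      rw [h5, zero_add, pow_zero, Complex.ofReal_one, mul_one] at h4
      rw [eq_neg_of_add_eq_zero_left h4, norm_neg, norm_mul, Complex.norm_real, Real.norm_eq_abs,
        abs_of_pos hw0]
      exact mul_le_mul_of_nonneg_left (tsum_bd x (1 + n) hw0.le hw1) hw0.le
    have hlim : Tendsto (fun w : ℝ => w * (‖x‖ * 2)) (𝓝[>] 0) (𝓝 0) := by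
      have h1 : Tendsto (fun w : ℝ => w * (‖x‖ * 2)) (𝓝 0) (𝓝 (0 * (‖x‖ * 2))) :=
        tendsto_id.mul_const _
      rw [zero_mul] at h1
      exact h1.mono_left nhdsWithin_le_nhds
    have h2 : ‖x n‖ ≤ 0 := by
      refine ge_of_tendsto hlim ?_
      have h3 : ∀ᶠ w : ℝ in 𝓝[>] 0, w ≤ 1 / 2 :=
        mem_nhdsWithin_of_mem_nhds (Iic_mem_nhds (by norm_num))
      filter_upwards [self_mem_nhdsWithin, h3] with w hw hw2
      exact key w hw hw2
    exact norm_le_zero_iff.1 h2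

theorem tot : S_TOT := by
  intro A B hAB
  let S : Submodule ℂ L2 := LinearMap.ker (A - B).toLinearMap
  have hS : IsClosed (S : Set L2) := (A - B).isClosed_ker
  have hkv : ∀ w : ℝ, 0 ≤ w → w < 1 → kv w ∈ S := by
    intro w h0 h1
    show (A - B) (kv w) = 0
    rw [ContinuousLinearMap.sub_apply, hAB w h0 h1, sub_self]
  have hperp : Sᗮ = ⊥ := by
    rw [Submodule.eq_bot_iff]
    intro x hx
    have h1 : ∀ w : ℝ, 0 ≤ w → w < 1 → ∑' k : ℕ, x k * ((w ^ k : ℝ) : ℂ) = 0 := by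
      intro w h0 hw
      have h2 : ⟪kv w, x⟫_ℂ = 0 := hx (kv w) (hkv w h0 hw)
      rw [lp.inner_eq_tsum] at h2
      rw [← h2]
      refine tsum_congr fun k => ?_
      rw [kv_apply h0 hw, RCLike.inner_apply, Complex.conj_ofReal]
    have h3 : ∀ n, x n = 0 := ident x h1
    ext n
    rw [h3 n]
    rfl
  have htop : S = ⊤ := by
    have h1 := (Submodule.topologicalClosure_eq_top_iff (K := S)).2 hperp
    rwa [IsClosed.submodule_topologicalClosure_eq hS] at h1
  refine ContinuousLinearMap.ext fun x => ?_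
  have hx : x ∈ S := by rw [htop]; exact Submodule.mem_top
  have h1 : (A - B) x = 0 := hx
  rw [ContinuousLinearMap.sub_apply] at h1
  exact sub_eq_zero.1 h1

end Pool.Agent.H415.AL
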