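import Pool.Agent.H308.AL.Stm

set_option autoImplicit false
set_option linter.all false

open Filter Topology

namespace Pool.Agent.H407.AL

open Pool.Agent.H308.AL

theorem t_zero (a : ℝ) {j k : ℕ} (h : j < k) : t a j k = 0 := by
  unfold t
  rw [Nat.choose_eq_zero_of_lt h]
  simp

theorem t_mul (a a' : ℝ) (j k : ℕ) :
    ∑ i ∈ Finset.range (j + 1), t a j i * t a' i k = t (a * a') j k := by
  by_cases hjk : j < k
  · rw [t_zero _ hjk]
    refine Finset.sum_eq_zero fun i hi => ?_
    have : i < k := by
      have := Finset.mem_range.1 hi
      omega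
    rw [t_zero a' this, mul_zero]
  · obtain ⟨d, rfl⟩ := Nat.exists_eq_add_of_le (not_lt.1 hjk)
    have e1 : k + d + 1 = k + (d + 1) := by ring
    rw [e1, Finset.sum_range_add]
    have h0 : ∑ x ∈ Finset.range k, t a (k + d) x * t a' x k = 0 := by
      refine Finset.sum_eq_zero fun i hi => ?_
      rw [t_zero a' (Finset.mem_range.1 hi), mul_zero]
    rw [h0, zero_add]
    have h1 : ∀ l ∈ Finset.range (d + 1), t a (k + d) (k + l) * t a' (k + l) k =
        (a * a') ^ (k + 1) * ((k + d).choose k : ℝ) *
          ((a * (1 - a')) ^ l * (1 - a) ^ (d - l) * (d.choose l : ℝ)) := by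
      intro l hl
      have hl' : l ≤ d := by
        have := Finset.mem_range.1 hl
        omega
      unfold t
      have e2 : k + d - (k + l) = d - l := by omega
      have e3 : k + l - k = l := by omega
      have e4 : ((k + d).choose (k + l) : ℝ) * ((k + l).choose k : ℝ) =
          ((k + d).choose k : ℝ) * (d.choose l : ℝ) := by
        have h := Nat.choose_mul (n := k + d) (k := k + l) (s := k) (by omega)
        have e5 : k + d - k = d := by omega
        rw [e5, e3] at h
        exact_mod_cast h
      rw [e2, e3]
      have e6 : a ^ (k + l + 1) = a ^ (k + 1) * a ^ l := by rw [← pow_add]; congr 1; ring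
      rw [e6, mul_pow, mul_pow]
      linear_combination (a ^ (k + 1) * a ^ l * (1 - a) ^ (d - l) * a' ^ (k + 1) *
        (1 - a') ^ l) * e4
    rw [Finset.sum_congr rfl h1, ← Finset.mul_sum, ← add_pow]
    unfold t
    have e7 : a * (1 - a') + (1 - a) = 1 - a * a' := by ring
    have e8 : k + d - k = d := by omega
    rw [e7, e8]

theorem tsg (h1 : S_TWB) : S_TSG := by
  intro a a' b ha ha1 ha' ha1' hb hmono
  have haa : 0 < a * a' := mul_pos ha ha'
  have haa1 : a * a' ≤ 1 := mul_le_one₀ ha1 ha'.le ha1'
  have m1 := (h1 a b ha ha1 hb hmono).1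
  have m2 := (h1 a' b ha' ha1' hb hmono).1
  have m3 := (h1 (a * a') b haa haa1 hb hmono).1
  have m4 := (h1 1 b one_pos le_rfl hb hmono).1
  constructor
  · ext x j
    have e1 : ((T a b * T a' b) x) j = ((T a b) ((T a' b) x)) j := rfl
    rw [e1, m1, m3]
    have e2 : ∀ i ∈ Finset.range (j + 1), (tw a b j i : ℂ) * ((T a' b) x) i =
        ∑ k ∈ Finset.range (j + 1), ((tw a b j i * tw a' b i k : ℝ) : ℂ) * x k := by
      intro i hi
      have hij : i + 1 ≤ j + 1 := by
        have := Finset.mem_range.1 hi
        omega
      rw [m2, Finset.mul_sum]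
      have hsub : Finset.range (i + 1) ⊆ Finset.range (j + 1) := Finset.range_mono hij
      rw [Finset.sum_subset hsub]
      · refine Finset.sum_congr rfl fun k _ => ?_
        push_cast
        ring
      · intro k _ hk
        have hk' : i < k := by
          rw [Finset.mem_range] at hk
          omega
        unfold tw
        rw [t_zero a' hk']
        simp
    rw [Finset.sum_congr rfl e2, Finset.sum_comm]
    refine Finset.sum_congr rfl fun k _ => ?_
    rw [← Finset.sum_mul]
    congr 1
    have e3 : ∑ i ∈ Finset.range (j + 1), tw a b j i * tw a' b i k = tw (a * a') b j k := by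
      unfold tw
      rw [← t_mul, Finset.sum_mul]
      refine Finset.sum_congr rfl fun i _ => ?_
      have := (hb i).ne'
      have := (hb k).ne'
      field_simp
    rw [← e3]
    push_cast
    rfl
  · ext x j
    rw [m4]
    show _ = x j
    rw [Finset.sum_eq_single j]
    · have : tw 1 b j j = 1 := by
        unfold tw t
        have := (hb j).ne'
        field_simp
        simp
      rw [this]
      simp
    · intro k hk hkj
      have hlt : k < j := by
        have := Finset.mem_range.1 hk
        omega
      have : tw 1 b j k = 0 := by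
        unfold tw t
        have h2 : j - k ≠ 0 := by omega
        rw [sub_self, zero_pow h2]
        simp
      rw [this]
      simp
    · intro h
      exact absurd (Finset.self_mem_range_succ j) h

end Pool.Agent.H407.AL
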