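import Pool.Agent.H308.AL.Stm

set_option autoImplicit false

namespace Pool.Agent.H695.AL

open Pool.Agent.H308.AL

private theorem twb_diag (a : ℝ) (b : ℕ → ℝ) (hb : ∀ k, 0 < b k) (j : ℕ) :
    tw a b j j = a ^ (j + 1) := by
  unfold tw t
  rw [Nat.choose_self, Nat.sub_self, pow_zero, div_self (hb j).ne']
  simp

/-- an operator with a lower triangular matrix with non zero diagonal is injective -/
private theorem twb_inj (m : ℕ → ℕ → ℝ) (hm : ∀ j, m j j ≠ 0) (M : L2 →L[ℂ] L2)
    (h : IsMat m M) : Function.Injective M := by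
  rw [injective_iff_map_eq_zero]
  intro x hx
  have key : ∀ j, x j = 0 := by
    intro j
    induction j using Nat.strong_induction_on with
    | _ j ih =>
      have h1 := h x j
      rw [hx, Finset.sum_range_succ, Finset.sum_eq_zero] at h1
      · rw [zero_add] at h1
        have h2 : (m j j : ℂ) * x j = 0 := h1.symm
        rcases mul_eq_zero.1 h2 with h3 | h3
        · exact absurd (by exact_mod_cast h3) (hm j)
        · exact h3
      · intro k hk
        rw [ih k (Finset.mem_range.1 hk), mul_zero]
  ext j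
  exact key j

/-- **TWB** -/
theorem twb (h1 : S_SCH) (h2 : S_ROW) : S_TWB := by
  intro a b ha ha1 hb hbm
  obtain ⟨r0, r1, r2⟩ := h2 a ha ha1
  have hle : ∀ j k, k ≤ j → tw a b j k ≤ t a j k := by
    intro j k hkj
    unfold tw
    have : b j / b k ≤ 1 := (div_le_one (hb k)).2 (hbm j k hkj)
    exact mul_le_of_le_one_right (r0 j k) this
  obtain ⟨s1, s2, s3⟩ := h1 (tw a b) a 1
    (fun j k => mul_nonneg (r0 j k) (div_pos (hb j) (hb k)).le)
    (fun j => (Finset.sum_le_sum fun k hk =>
      hle j k (by rw [Finset.mem_range] at hk; omega)).trans (r1 j).le)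
    (fun k N => by
      refine le_trans (Finset.sum_le_sum fun j hj => ?_) (r2 k N)
      exact hle j k (Finset.mem_Ico.1 hj).1)
  refine ⟨s1, ?_, ?_⟩
  · rw [mul_one] at s2
    exact s2
  · refine twb_inj (tw a b) (fun j => ?_) _ s1
    rw [twb_diag a b hb]
    exact pow_ne_zero _ ha.ne'

end Pool.Agent.H695.AL
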