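import Pool.Agent.H308.AL.Stm

/-! Project AL (helper308): UP and DOWN (helper665). -/

set_option autoImplicit false

open Filter Topology

noncomputable section

namespace Pool.Agent.H665.AL

open Pool.Agent.H308.AL

variable {H : Type} [NormedAddCommGroup H] [InnerProductSpace ℂ H] [CompleteSpace H]

theorem it_succ (T : H →L[ℂ] H) (n : ℕ) : it T (n + 1) = al (it T n) :=
  Function.iterate_succ_apply' al n T

theorem it_inj (h3 : S_ALU) {T : H →L[ℂ] H} (hT : Function.Injective T) (n : ℕ) :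
    Function.Injective (it T n) := by
  induction n with
  | zero => exact hT
  | succ n ih =>
    rw [it_succ]
    exact (h3 H (it T n) ih).2.2.1

theorem it_pow_le (h2 : S_HNZ) (h3 : S_ALU) {T : H →L[ℂ] H} (hT : Function.Injective T)
    (k n : ℕ) : ‖(it T n) ^ k‖ ≤ ‖T ^ k‖ := by
  induction n with
  | zero => exact le_refl _
  | succ n ih =>
    rw [it_succ]
    exact (h2 H (it T n) (it_inj h3 hT n) k).trans ih

theorem it_le (h2 : S_HNZ) (h3 : S_ALU) {T : H →L[ℂ] H} (hT : Function.Injective T)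
    (n : ℕ) : ‖it T n‖ ≤ ‖T‖ := by
  have := it_pow_le h2 h3 hT 1 n
  rwa [pow_one, pow_one] at this

theorem sot_pow {A : ℕ → H →L[ℂ] H} {L : H →L[ℂ] H} {M : ℝ} (hM : ∀ n, ‖A n‖ ≤ M)
    (hA : SOT A L) (k : ℕ) : SOT (fun n => (A n) ^ k) (L ^ k) := by
  induction k with
  | zero =>
    intro x
    simp only [pow_zero]
    exact tendsto_const_nhds
  | succ k ih =>
    intro x
    have e1 : ∀ n, ((A n) ^ (k + 1)) x = A n (((A n) ^ k) x) := by
      intro n
      rw [pow_succ']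
      rfl
    have e2 : (L ^ (k + 1)) x = L ((L ^ k) x) := by
      rw [pow_succ']
      rfl
    rw [e2]
    have h1 : Tendsto (fun n => A n (((A n) ^ k) x - (L ^ k) x)) atTop (𝓝 0) := by
      refine squeeze_zero_norm (a := fun n => M * ‖((A n) ^ k) x - (L ^ k) x‖) (fun n => ?_) ?_
      · exact ((A n).le_opNorm _).trans (mul_le_mul_of_nonneg_right (hM n) (norm_nonneg _))
      · have h0 : Tendsto (fun n => ((A n) ^ k) x - (L ^ k) x) atTop (𝓝 0) := by
          have := (ih x).sub_const ((L ^ k) x)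
          rwa [sub_self] at this
        have := (h0.norm).const_mul M
        rwa [norm_zero, mul_zero] at this
    have h2 := h1.add (hA ((L ^ k) x))
    rw [zero_add] at h2
    refine h2.congr (fun n => ?_)
    rw [e1, map_sub, sub_add_cancel]

theorem up (h1 : S_SPC) (h2 : S_HNZ) (h3 : S_ALU) : S_UP := by
  intro H _ _ _ T L l c C r hT hl hc hC hr hlow hpow hsot hq
  have hM := it_le h2 h3 hT
  have hk := sot_pow hM hsot
  have hlow' : ∀ x : H, c * ‖x‖ ≤ ‖L x‖ := fun x => ge_of_tendsto (hsot x).norm (hlow x)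
  have hpow' : ∀ (k : ℕ) (x : H), ‖L x‖ ^ r * l ^ k ≤ C * ‖(L ^ k) x‖ * ‖x‖ ^ (r - 1) := by
    intro k x
    refine le_of_tendsto_of_tendsto' (f := fun n => ‖it T n x‖ ^ r * l ^ k)
      (g := fun n => C * ‖((it T n) ^ k) x‖ * ‖x‖ ^ (r - 1)) (b := atTop) ?_ ?_
      (fun n => hpow n k x)
    · exact ((hsot x).norm.pow r).mul_const _
    · exact ((hk k x).norm.const_mul C).mul_const _
  have hc' : 0 < c ^ r / (C + 1) := by positivity
  refine (h1 H L l (c ^ r / (C + 1)) hl hc' hq).1 (fun k x => ?_)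
  by_cases hx : x = 0
  · subst hx
    simp
  have hxn : 0 < ‖x‖ := norm_pos_iff.2 hx
  have a1 : (c * ‖x‖) ^ r * l ^ k ≤ C * ‖(L ^ k) x‖ * ‖x‖ ^ (r - 1) :=
    (mul_le_mul_of_nonneg_right (pow_le_pow_left₀ (by positivity) (hlow' x) r)
      (by positivity)).trans (hpow' k x)
  have a2 : (c * ‖x‖) ^ r * l ^ k = (c ^ r * l ^ k * ‖x‖) * ‖x‖ ^ (r - 1) := by
    obtain ⟨s, rfl⟩ : ∃ s, r = s + 1 := ⟨r - 1, by omega⟩
    rw [Nat.add_sub_cancel]
    ring
  rw [a2] at a1
  have a3 : c ^ r * l ^ k * ‖x‖ ≤ C * ‖(L ^ k) x‖ := le_of_mul_le_mul_right a1 (by positivity)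
  have a4 : C * ‖(L ^ k) x‖ ≤ (C + 1) * ‖(L ^ k) x‖ := by
    have := norm_nonneg ((L ^ k) x)
    nlinarith
  have a5 : c ^ r / (C + 1) * l ^ k * ‖x‖ = (c ^ r * l ^ k * ‖x‖) / (C + 1) := by ring
  rw [a5, div_le_iff₀ (by positivity), mul_comm (‖(L ^ k) x‖)]
  exact a3.trans a4

theorem down (h1 : S_SPC) (h2 : S_HNZ) (h3 : S_ALU) : S_DOWN := by
  intro H _ _ _ T L m C hT hm hC hpow hsot hq
  have hM := it_le h2 h3 hT
  have hk := sot_pow hM hsot
  refine (h1 H L m C hm hC hq).2 (fun k x => ?_)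
  refine le_of_tendsto' (hk k x).norm (fun n => ?_)
  exact (((it T n) ^ k).le_opNorm x).trans (mul_le_mul_of_nonneg_right
    ((it_pow_le h2 h3 hT k n).trans (hpow k)) (norm_nonneg x))

end Pool.Agent.H665.AL
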