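import Pool.Agent.H308.AL.Stm

/-!
# WTS: the weights (project AL, helper308)
-/

set_option autoImplicit false

namespace Pool.Agent.H400.AL

open Pool.Agent.H308.AL

theorem bs_succ_true {s : ℕ → Bool} {k : ℕ} (h : s k = true) : bs s (k + 1) = bs s k := by
  change (if s k then bs s k else bs s k * (((k : ℝ) + 1) / ((k : ℝ) + 2)) ^ 2) = _
  rw [if_pos h]

theorem bs_succ_false {s : ℕ → Bool} {k : ℕ} (h : s k = false) :
    bs s (k + 1) = bs s k * (((k : ℝ) + 1) / ((k : ℝ) + 2)) ^ 2 := by
  change (if s k then bs s k else bs s k * (((k : ℝ) + 1) / ((k : ℝ) + 2)) ^ 2) = _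
  rw [if_neg (by rw [h]; exact Bool.false_ne_true)]

theorem bs_pos (s : ℕ → Bool) (k : ℕ) : 0 < bs s k := by
  induction k with
  | zero => exact one_pos
  | succ k ih =>
    have hk : (0 : ℝ) ≤ k := Nat.cast_nonneg k
    rcases h : s k with _ | _
    · rw [bs_succ_false h]
      positivity
    · rw [bs_succ_true h]
      exact ih

theorem bs_anti (s : ℕ → Bool) : Antitone (bs s) := by
  refine antitone_nat_of_succ_le fun k => ?_
  have hk : (0 : ℝ) ≤ k := Nat.cast_nonneg k
  have hp := bs_pos s k
  rcases h : s k with _ | _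
  · rw [bs_succ_false h]
    have h1 : (((k : ℝ) + 1) / ((k : ℝ) + 2)) ^ 2 ≤ 1 := by
      refine pow_le_one₀ (by positivity) ?_
      rw [div_le_one (by positivity)]
      linarith
    nlinarith
  · rw [bs_succ_true h]

/-- `(k + 1)² bs s k` -/
noncomputable def gg (s : ℕ → Bool) (k : ℕ) : ℝ := ((k : ℝ) + 1) ^ 2 * bs s k

theorem gg_false {s : ℕ → Bool} {k : ℕ} (h : s k = false) : gg s (k + 1) = gg s k := by
  unfold gg
  have hk : (0 : ℝ) ≤ k := Nat.cast_nonneg k
  rw [bs_succ_false h]
  push_cast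
  have h1 : ((k : ℝ) + 1 + 1) = (k : ℝ) + 2 := by ring
  rw [h1]
  field_simp

theorem gg_mono (s : ℕ → Bool) : Monotone (gg s) := by
  refine monotone_nat_of_le_succ fun k => ?_
  rcases h : s k with _ | _
  · rw [gg_false h]
  · unfold gg
    rw [bs_succ_true h]
    have hk : (0 : ℝ) ≤ k := Nat.cast_nonneg k
    refine mul_le_mul_of_nonneg_right ?_ (bs_pos s k).le
    push_cast
    refine pow_le_pow_left₀ (by positivity) (by linarith) 2

theorem gg_zero (s : ℕ → Bool) : gg s 0 = 1 := by
  have h : bs s 0 = 1 := rfl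
  unfold gg
  rw [h]
  norm_num

theorem wts : S_WTS := by
  intro s
  refine ⟨bs_pos s, fun j k hkj => bs_anti s hkj, ?_, ?_, ?_⟩
  · intro j k hkj
    have h := gg_mono s hkj
    unfold gg at h
    have hj : (0 : ℝ) < (j : ℝ) + 1 := by positivity
    rw [div_pow, div_mul_eq_mul_div, div_le_iff₀ (by positivity)]
    linarith
  · rintro ⟨N, hN⟩
    refine ⟨N, fun k hk => ?_⟩
    induction k, hk using Nat.le_induction with
    | base => rfl
    | succ k hk ih => rw [bs_succ_true (hN k hk), ih]
  · rintro ⟨N, hN⟩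
    have hc : ∀ k ≥ N, gg s k = gg s N := by
      intro k hk
      induction k, hk using Nat.le_induction with
      | base => rfl
      | succ k hk ih => rw [gg_false (hN k hk), ih]
    have h1 : ∀ k, 1 ≤ gg s k := fun k => by
      rw [← gg_zero s]
      exact gg_mono s (Nat.zero_le k)
    have h2 : ∀ j, gg s j ≤ gg s N := by
      intro j
      rcases le_total j N with h | h
      · exact gg_mono s h
      · exact (hc j h).le
    refine ⟨gg s N, h1 N, fun j k _ => ?_⟩
    have h3 : gg s j ≤ gg s N * gg s k := by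
      have := h2 j
      have := h1 k
      have := h1 N
      nlinarith
    have hj : (0 : ℝ) < (j : ℝ) + 1 := by positivity
    have h4 : gg s N * (((k : ℝ) + 1) / ((j : ℝ) + 1)) ^ 2 * bs s k =
        gg s N * gg s k / ((j : ℝ) + 1) ^ 2 := by
      rw [show gg s k = ((k : ℝ) + 1) ^ 2 * bs s k from rfl, div_pow]
      ring
    rw [h4, le_div_iff₀ (by positivity)]
    rw [show gg s j = ((j : ℝ) + 1) ^ 2 * bs s j from rfl] at h3
    linarith

end Pool.Agent.H400.AL
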